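import Mathlib

set_option autoImplicit false

open MeasureTheory Set Filter Topology

namespace Pool.Agent.Lib.TFW

/-- Three dimensional Euclidean space. -/
abbrev X := EuclideanSpace ℝ (Fin 3)

/-- Continuous, integrable and bounded real functions on space. -/
structure BI (f : X → ℝ) : Prop where
  cont : Continuous f
  int : Integrable f
  bdd : ∃ C : ℝ, ∀ x, |f x| ≤ C

lemma finrank_X : Module.finrank ℝ X = 3 := by simp

lemma integrableOn_inv_norm : IntegrableOn (fun z : X => ‖z‖⁻¹) (Metric.ball 0 1) := by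
  have h := (integrableOn_fun_norm_addHaar (E := X) (F := ℝ) volume
    (f := fun t : ℝ => t⁻¹) (r := 1)).2
  apply h
  rw [finrank_X]
  have : IntegrableOn (fun y : ℝ => y) (Ioo 0 1) := by
    exact (continuous_id.integrableOn_Icc (a := (0:ℝ)) (b := 1)).mono_set Ioo_subset_Icc_self
  refine this.congr_fun ?_ measurableSet_Ioo
  intro y hy
  have : y ≠ 0 := hy.1.ne'
  simp only [smul_eq_mul]
  field_simp

lemma integrableOn_inv_norm_sq (r : ℝ) :
    IntegrableOn (fun z : X => (‖z‖ ^ 2)⁻¹) (Metric.ball 0 r) := by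
  have h := (integrableOn_fun_norm_addHaar (E := X) (F := ℝ) volume
    (f := fun t : ℝ => (t ^ 2)⁻¹) (r := r)).2
  apply h
  rw [finrank_X]
  have : IntegrableOn (fun _ : ℝ => (1 : ℝ)) (Ioo 0 r) := by
    simp [integrableOn_const_iff]
  refine this.congr_fun ?_ measurableSet_Ioo
  intro y hy
  have : y ≠ 0 := hy.1.ne'
  simp only [smul_eq_mul]
  field_simp

/-- The integral of `1/|z|` over the unit ball. -/
noncomputable def kint : ℝ := ∫ z in Metric.ball (0 : X) 1, ‖z‖⁻¹

lemma kint_nonneg : 0 ≤ kint := by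
  unfold kint
  exact integral_nonneg (fun z => by positivity)

lemma integrable_kball (x : X) :
    Integrable (fun y : X => (Metric.ball x 1).indicator (fun y => ‖x - y‖⁻¹) y) := by
  have h0 : Integrable (fun z : X => (Metric.ball (0:X) 1).indicator (fun z => ‖z‖⁻¹) z) := by
    exact (integrable_indicator_iff measurableSet_ball).2 integrableOn_inv_norm
  have h1 := h0.comp_sub_left x
  refine h1.congr (Eventually.of_forall fun y => ?_)
  simp only [indicator, Metric.mem_ball, dist_eq_norm, sub_zero]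
  rw [norm_sub_rev y x]

lemma integral_kball (x : X) :
    ∫ y : X, (Metric.ball x 1).indicator (fun y => ‖x - y‖⁻¹) y = kint := by
  have h := integral_sub_left_eq_self
    (fun z : X => (Metric.ball (0:X) 1).indicator (fun z => ‖z‖⁻¹) z) volume x
  unfold kint
  rw [← integral_indicator measurableSet_ball, ← h]
  congr 1
  ext y
  simp only [indicator, Metric.mem_ball, dist_eq_norm, sub_zero]
  rw [norm_sub_rev y x]

lemma div_norm_bound {f : X → ℝ} {C : ℝ} (hC : ∀ x, |f x| ≤ C) (x y : X) :
    |f y / ‖x - y‖| ≤ C * (Metric.ball x 1).indicator (fun y => ‖x - y‖⁻¹) y + |f y| := by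
  have hC0 : 0 ≤ C := (abs_nonneg _).trans (hC x)
  by_cases hy : y ∈ Metric.ball x 1
  · rw [indicator_of_mem hy, abs_div, abs_norm, div_eq_mul_inv]
    have := mul_le_mul_of_nonneg_right (hC y) (inv_nonneg.2 (norm_nonneg (x - y)))
    have h2 := abs_nonneg (f y)
    linarith
  · rw [indicator_of_notMem hy, mul_zero, zero_add, abs_div, abs_norm]
    rw [Metric.mem_ball, dist_eq_norm, not_lt, norm_sub_rev] at hy
    exact div_le_self (abs_nonneg _) hy

lemma measurable_div_norm {f : X → ℝ} (hf : Measurable f) (x : X) :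
    Measurable (fun y : X => f y / ‖x - y‖) :=
  hf.div (measurable_const.sub measurable_id).norm

lemma integrable_div_norm {f : X → ℝ} (hf : BI f) (x : X) :
    Integrable (fun y : X => f y / ‖x - y‖) := by
  obtain ⟨C, hC⟩ := hf.bdd
  refine Integrable.mono' (((integrable_kball x).const_mul C).add hf.int.abs)
    (measurable_div_norm hf.cont.measurable x).aestronglyMeasurable
    (Eventually.of_forall fun y => ?_)
  rw [Real.norm_eq_abs]
  exact div_norm_bound hC x y

/-- Newtonian potential. -/
noncomputable def U (f : X → ℝ) (x : X) : ℝ := ∫ y, f y / ‖x - y‖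

lemma U_bound {f : X → ℝ} (hf : BI f) : ∃ C, ∀ x, |U f x| ≤ C := by
  obtain ⟨C, hC⟩ := hf.bdd
  refine ⟨C * kint + ∫ y, |f y|, fun x => ?_⟩
  calc |U f x| ≤ ∫ y, |f y / ‖x - y‖| := abs_integral_le_integral_abs
    _ ≤ ∫ y, (C * (Metric.ball x 1).indicator (fun y => ‖x - y‖⁻¹) y + |f y|) := by
        apply integral_mono (integrable_div_norm hf x).abs
          (((integrable_kball x).const_mul C).add hf.int.abs)
        intro y
        exact div_norm_bound hC x y
    _ = C * kint + ∫ y, |f y| := by
        rw [integral_add ((integrable_kball x).const_mul C) hf.int.abs, integral_const_mul,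
          integral_kball]

lemma U_nonneg {f : X → ℝ} (hf : ∀ x, 0 ≤ f x) (x : X) : 0 ≤ U f x :=
  integral_nonneg fun y => div_nonneg (hf y) (norm_nonneg _)

lemma BI.abs {f : X → ℝ} (hf : BI f) : BI (fun x => |f x|) :=
  ⟨hf.cont.abs, hf.int.abs, by obtain ⟨C, hC⟩ := hf.bdd; exact ⟨C, fun x => by simpa using hC x⟩⟩

lemma BI.add {f g : X → ℝ} (hf : BI f) (hg : BI g) : BI (fun x => f x + g x) :=
  ⟨hf.cont.add hg.cont, hf.int.add hg.int, by
    obtain ⟨C, hC⟩ := hf.bdd
    obtain ⟨C', hC'⟩ := hg.bdd
    exact ⟨C + C', fun x => (abs_add_le _ _).trans (add_le_add (hC x) (hC' x))⟩⟩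

lemma BI.sub {f g : X → ℝ} (hf : BI f) (hg : BI g) : BI (fun x => f x - g x) :=
  ⟨hf.cont.sub hg.cont, hf.int.sub hg.int, by
    obtain ⟨C, hC⟩ := hf.bdd
    obtain ⟨C', hC'⟩ := hg.bdd
    exact ⟨C + C', fun x => (abs_sub _ _).trans (add_le_add (hC x) (hC' x))⟩⟩

lemma BI.const_mul {f : X → ℝ} (hf : BI f) (c : ℝ) : BI (fun x => c * f x) :=
  ⟨continuous_const.mul hf.cont, hf.int.const_mul c, by
    obtain ⟨C, hC⟩ := hf.bdd
    exact ⟨|c| * C, fun x => by
      rw [abs_mul]; exact mul_le_mul_of_nonneg_left (hC x) (abs_nonneg c)⟩⟩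

/-- A continuous function dominated by a `BI` function is `BI`. -/
lemma BI.mono {f g : X → ℝ} (hg : BI g) (hf : Continuous f) (h : ∀ x, |f x| ≤ g x) : BI f := by
  refine ⟨hf, hg.int.mono' hf.aestronglyMeasurable (Eventually.of_forall fun x => ?_), ?_⟩
  · simpa using h x
  · obtain ⟨C, hC⟩ := hg.bdd
    exact ⟨C, fun x => (h x).trans ((le_abs_self _).trans (hC x))⟩

/-- bounded continuous times `BI`. -/
lemma BI.bdd_mul {f g : X → ℝ} (hg : BI g) (hf : Continuous f) {C : ℝ} (h : ∀ x, |f x| ≤ C) :
    BI (fun x => f x * g x) := by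
  refine BI.mono (hg.abs.const_mul C) (hf.mul hg.cont) fun x => ?_
  rw [abs_mul]
  exact mul_le_mul_of_nonneg_right (h x) (abs_nonneg _)

lemma BI.of_compactSupport {f : X → ℝ} (hf : Continuous f) (hc : HasCompactSupport f) : BI f := by
  refine ⟨hf, hf.integrable_of_hasCompactSupport hc, ?_⟩
  obtain ⟨C, hC⟩ := hf.bounded_above_of_compact_support hc
  exact ⟨C, fun x => by simpa using hC x⟩

/-- joint integrability of the Coulomb kernel. -/
lemma integrable_coul {f g : X → ℝ} (hf : BI f) (hg : BI g) :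
    Integrable (fun p : X × X => f p.1 * g p.2 / ‖p.1 - p.2‖) (volume.prod volume) := by
  have hm : Measurable (fun p : X × X => f p.1 * g p.2 / ‖p.1 - p.2‖) := by
    have h1 := hf.cont.measurable
    have h2 := hg.cont.measurable
    fun_prop
  rw [integrable_prod_iff hm.aestronglyMeasurable]
  constructor
  · refine Eventually.of_forall fun x => ?_
    have := (integrable_div_norm hg x).const_mul (f x)
    refine this.congr (Eventually.of_forall fun y => ?_)
    simp only
    ring
  · obtain ⟨C, hC⟩ := U_bound hg.abs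
    refine Integrable.mono' (hf.int.abs.mul_const C) ?_ (Eventually.of_forall fun x => ?_)
    · exact hm.aestronglyMeasurable.norm.integral_prod_right'
    · have : ∫ y, ‖f x * g y / ‖x - y‖‖ = |f x| * U (fun y => |g y|) x := by
        unfold U
        rw [← integral_const_mul]
        congr 1
        ext y
        rw [Real.norm_eq_abs, abs_div, abs_mul, abs_norm]
        ring
      simp only
      rw [this, norm_mul, norm_abs_eq_norm, Real.norm_eq_abs, Real.norm_eq_abs]
      exact mul_le_mul_of_nonneg_left (hC x) (abs_nonneg _)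

/-- Coulomb form. -/
noncomputable def D (f g : X → ℝ) : ℝ := ∫ x, ∫ y, f x * g y / ‖x - y‖

lemma D_eq_prod {f g : X → ℝ} (hf : BI f) (hg : BI g) :
    D f g = ∫ p : X × X, f p.1 * g p.2 / ‖p.1 - p.2‖ ∂(volume.prod volume) := by
  unfold D
  rw [integral_prod _ (integrable_coul hf hg)]

lemma D_eq_U (f g : X → ℝ) : D f g = ∫ x, f x * U g x := by
  unfold D U
  congr 1
  ext x
  rw [← integral_const_mul]
  congr 1
  ext y
  ring

lemma integrable_mul_U {f g : X → ℝ} (hf : BI f) (hg : BI g) :
    Integrable (fun x => f x * U g x) := by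
  have h := (integrable_coul hf hg).integral_prod_left
  refine h.congr (Eventually.of_forall fun x => ?_)
  simp only
  unfold U
  rw [← integral_const_mul]
  congr 1
  ext y
  ring

lemma D_symm {f g : X → ℝ} (hf : BI f) (hg : BI g) : D f g = D g f := by
  unfold D
  rw [integral_integral_swap (f := fun x y => f x * g y / ‖x - y‖) (integrable_coul hf hg)]
  congr 1
  ext x
  congr 1
  ext y
  rw [norm_sub_rev]
  ring

lemma U_add {f g : X → ℝ} (hf : BI f) (hg : BI g) (x : X) :
    U (fun y => f y + g y) x = U f x + U g x := by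
  unfold U
  rw [← integral_add (integrable_div_norm hf x) (integrable_div_norm hg x)]
  congr 1
  ext y
  ring

lemma U_sub {f g : X → ℝ} (hf : BI f) (hg : BI g) (x : X) :
    U (fun y => f y - g y) x = U f x - U g x := by
  unfold U
  rw [← integral_sub (integrable_div_norm hf x) (integrable_div_norm hg x)]
  congr 1
  ext y
  ring

lemma U_const_mul {f : X → ℝ} (c : ℝ) (x : X) :
    U (fun y => c * f y) x = c * U f x := by
  unfold U
  rw [← integral_const_mul]
  congr 1
  ext y
  ring

lemma U_mono {f g : X → ℝ} (hf : BI f) (hg : BI g) (h : ∀ x, f x ≤ g x) (x : X) :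
    U f x ≤ U g x := by
  unfold U
  apply integral_mono (integrable_div_norm hf x) (integrable_div_norm hg x)
  intro y
  exact div_le_div_of_nonneg_right (h y) (norm_nonneg _)

lemma D_add_left {f g k : X → ℝ} (hf : BI f) (hg : BI g) (hk : BI k) :
    D (fun y => f y + g y) k = D f k + D g k := by
  rw [D_eq_U, D_eq_U, D_eq_U, ← integral_add (integrable_mul_U hf hk) (integrable_mul_U hg hk)]
  congr 1
  ext x
  ring

lemma D_sub_left {f g k : X → ℝ} (hf : BI f) (hg : BI g) (hk : BI k) :
    D (fun y => f y - g y) k = D f k - D g k := by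
  rw [D_eq_U, D_eq_U, D_eq_U, ← integral_sub (integrable_mul_U hf hk) (integrable_mul_U hg hk)]
  congr 1
  ext x
  ring

lemma D_const_mul_left {f k : X → ℝ} (c : ℝ) :
    D (fun y => c * f y) k = c * D f k := by
  rw [D_eq_U, D_eq_U, ← integral_const_mul]
  congr 1
  ext x
  ring

lemma D_add_right {f g k : X → ℝ} (hf : BI f) (hg : BI g) (hk : BI k) :
    D k (fun y => f y + g y) = D k f + D k g := by
  rw [D_symm hk (hf.add hg), D_add_left hf hg hk, D_symm hf hk, D_symm hg hk]

lemma D_sub_right {f g k : X → ℝ} (hf : BI f) (hg : BI g) (hk : BI k) :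
    D k (fun y => f y - g y) = D k f - D k g := by
  rw [D_symm hk (hf.sub hg), D_sub_left hf hg hk, D_symm hf hk, D_symm hg hk]

lemma D_const_mul_right {f k : X → ℝ} (hf : BI f) (hk : BI k) (c : ℝ) :
    D k (fun y => c * f y) = c * D k f := by
  rw [D_symm hk (hf.const_mul c), D_const_mul_left, D_symm hf hk]

lemma D_nonneg_of_nonneg {f g : X → ℝ} (hf : ∀ x, 0 ≤ f x) (hg : ∀ x, 0 ≤ g x) : 0 ≤ D f g := by
  rw [D_eq_U]
  exact integral_nonneg fun x => mul_nonneg (hf x) (U_nonneg hg x)

end Pool.Agent.Lib.TFW
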