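import Pool.Agent.Lib.MP_1526eb_mp.Kin

set_option autoImplicit false

open MeasureTheory Set Filter Topology

namespace Pool.Agent.Lib.TFW

/-- A finite partition (up to null sets) of a ball into small pieces of positive volume. -/
structure Part (Λ h : ℝ) (K : ℕ) (R : Fin K → X) (C : Fin K → Set X) : Prop where
  inj : Function.Injective R
  meas : ∀ j, MeasurableSet (C j)
  disj : Pairwise (Function.onFun Disjoint C)
  pos : ∀ j, 0 < volume (C j)
  near : ∀ j, ∀ y ∈ C j, ‖y - R j‖ ≤ h
  sub : ∀ j, C j ⊆ Metric.closedBall 0 Λ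
  null : volume (Metric.closedBall (0:X) Λ \ ⋃ j, C j) = 0

lemma exists_part (Λ : ℝ) {h : ℝ} (hh : 0 < h) : ∃ K R C, Part Λ h K R C := by
  classical
  set e := TopologicalSpace.denseSeq X
  -- a finite number of balls cover
  obtain ⟨N, hN⟩ : ∃ N : ℕ, ∀ y ∈ Metric.closedBall (0:X) Λ, ∃ k ≤ N, dist (e k) y < h := by
    have hcov : Metric.closedBall (0:X) Λ ⊆ ⋃ k : ℕ, Metric.ball (e k) h := by
      intro y _
      have := (TopologicalSpace.denseRange_denseSeq X).exists_dist_lt y hh
      obtain ⟨k, hk⟩ := this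
      exact mem_iUnion.2 ⟨k, hk⟩
    obtain ⟨t, ht⟩ := (isCompact_closedBall (0:X) Λ).elim_finite_subcover _
      (fun k => Metric.isOpen_ball) hcov
    refine ⟨t.sup id, fun y hy => ?_⟩
    obtain ⟨k, hk, hky⟩ := mem_iUnion₂.1 (ht hy)
    exact ⟨k, Finset.le_sup (f := id) hk, by rwa [dist_comm]⟩
  set T := SimpleFunc.nearestPt e N
  have hT : ∀ y ∈ Metric.closedBall (0:X) Λ, ‖y - T y‖ ≤ h := by
    intro y hy
    obtain ⟨k, hk, hky⟩ := hN y hy
    have h1 := SimpleFunc.edist_nearestPt_le e y hk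
    rw [edist_dist, edist_dist, ENNReal.ofReal_le_ofReal_iff dist_nonneg] at h1
    rw [← dist_eq_norm, dist_comm]
    exact (h1.trans hky.le)
  set Cc : X → Set X := fun a => Metric.closedBall (0:X) Λ ∩ T ⁻¹' {a}
  have hCm : ∀ a, MeasurableSet (Cc a) := fun a =>
    measurableSet_closedBall.inter (T.measurableSet_fiber a)
  set S : Finset X := T.range.filter (fun a => 0 < volume (Cc a)) with hS
  refine ⟨S.card, fun j => (S.equivFin.symm j : X), fun j => Cc (S.equivFin.symm j : X), ?_⟩
  refine ⟨?_, ?_, ?_, ?_, ?_, ?_, ?_⟩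
  · intro i j hij
    exact S.equivFin.symm.injective (Subtype.ext hij)
  · intro j; exact hCm _
  · intro i j hij
    have hne : (S.equivFin.symm i : X) ≠ (S.equivFin.symm j : X) := by
      intro h
      exact hij (S.equivFin.symm.injective (Subtype.ext h))
    refine Set.disjoint_left.2 fun y hy1 hy2 => hne ?_
    have h1 : T y = _ := hy1.2
    have h2 : T y = _ := hy2.2
    rw [← h1, ← h2]
  · intro j
    have := (S.equivFin.symm j).2
    exact (Finset.mem_filter.1 this).2
  · intro j y hy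
    have h1 : T y = (S.equivFin.symm j : X) := hy.2
    have := hT y hy.1
    rwa [h1] at this
  · intro j; exact inter_subset_left
  · -- the rest is a finite union of null sets
    have hsub : Metric.closedBall (0:X) Λ \ ⋃ j, Cc (S.equivFin.symm j : X)
        ⊆ ⋃ a ∈ T.range.filter (fun a => ¬ 0 < volume (Cc a)), Cc a := by
      intro y hy
      have hyT : T y ∈ T.range := SimpleFunc.mem_range_self T y
      have hyC : y ∈ Cc (T y) := ⟨hy.1, rfl⟩
      refine mem_iUnion₂.2 ⟨T y, ?_, hyC⟩
      rw [Finset.mem_filter]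
      refine ⟨hyT, fun hpos => hy.2 ?_⟩
      have hmem : T y ∈ S := by rw [hS, Finset.mem_filter]; exact ⟨hyT, hpos⟩
      refine mem_iUnion.2 ⟨S.equivFin ⟨T y, hmem⟩, ?_⟩
      rw [Equiv.symm_apply_apply]
      exact hyC
    refine measure_mono_null hsub ?_
    refine (measure_biUnion_null_iff (Finset.countable_toSet _)).2 ?_
    intro a ha
    have := (Finset.mem_filter.1 ha).2
    exact nonpos_iff_eq_zero.1 (not_lt.1 this)

section
variable {Λ h : ℝ} {K : ℕ} {R : Fin K → X} {C : Fin K → Set X}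

lemma Part.integral_sum (P : Part Λ h K R C) {f : X → ℝ} (hf : Integrable f) :
    ∑ j, ∫ y in C j, f y = ∫ y in Metric.closedBall (0:X) Λ, f y := by
  have h1 := integral_iUnion_fintype (μ := (volume : Measure X)) (f := f) (s := C)
    P.meas P.disj (fun j => hf.integrableOn)
  rw [← h1]
  apply setIntegral_congr_set
  have h2 : (⋃ j, C j) ⊆ Metric.closedBall (0:X) Λ := iUnion_subset P.sub
  refine ae_eq_set.2 ⟨?_, P.null⟩
  rw [sdiff_eq_empty.2 h2]
  simp

/-- The charge of a cell. -/
noncomputable def chg (C : Fin K → Set X) (μ : X → ℝ) (j : Fin K) : ℝ := ∫ y in C j, μ y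

lemma Part.chg_pos (P : Part Λ h K R C) {μ : X → ℝ} (hμ : BI μ) (hp : ∀ x, 0 < μ x) (j : Fin K) :
    0 < chg C μ j := by
  unfold chg
  rw [setIntegral_pos_iff_support_of_nonneg_ae (Eventually.of_forall fun x => (hp x).le)
    hμ.int.integrableOn]
  have : Function.support μ = univ := by
    ext x; simp [(hp x).ne']
  rw [this, univ_inter]
  exact P.pos j

lemma Part.disc (P : Part Λ h K R C) {μ : X → ℝ} (hμ : BI μ) (hp : ∀ x, 0 ≤ μ x)
    {ψ : X → ℝ} (hψ : ContDiff ℝ 1 ψ) (hψc : HasCompactSupport ψ) :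
    |∑ j, chg C μ j * U (fun y => ψ y ^ 2) (R j)
        - ∫ y in Metric.closedBall (0:X) Λ, μ y * U (fun y => ψ y ^ 2) y|
      ≤ 4 * h * (∫ y in Metric.closedBall (0:X) Λ, μ y) * ∫ x, ‖fderiv ℝ ψ x‖ ^ 2 := by
  have hB : BI (fun x => ψ x ^ 2) := BI.of_compactSupport (hψ.continuous.pow 2) (hcs_sq hψc)
  have hint : Integrable (fun y => μ y * U (fun y => ψ y ^ 2) y) := integrable_mul_U hμ hB
  rw [← P.integral_sum hint, ← P.integral_sum hμ.int, ← Finset.sum_sub_distrib]
  refine (Finset.abs_sum_le_sum_abs _ _).trans ?_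
  rw [Finset.mul_sum, Finset.sum_mul]
  apply Finset.sum_le_sum
  intro j _
  have hK : 0 ≤ ∫ x, ‖fderiv ℝ ψ x‖ ^ 2 := integral_nonneg fun x => sq_nonneg _
  have e1 : chg C μ j * U (fun y => ψ y ^ 2) (R j) - ∫ y in C j, μ y * U (fun y => ψ y ^ 2) y
      = ∫ y in C j, μ y * (U (fun y => ψ y ^ 2) (R j) - U (fun y => ψ y ^ 2) y) := by
    unfold chg
    rw [← integral_mul_const, ← integral_sub (hμ.int.mul_const _).integrableOn hint.integrableOn]
    congr 1
    ext y
    ring
  rw [e1]
  calc |∫ y in C j, μ y * (U (fun y => ψ y ^ 2) (R j) - U (fun y => ψ y ^ 2) y)|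
      ≤ ∫ y in C j, |μ y * (U (fun y => ψ y ^ 2) (R j) - U (fun y => ψ y ^ 2) y)| :=
        abs_integral_le_integral_abs
    _ ≤ ∫ y in C j, μ y * (4 * h * ∫ x, ‖fderiv ℝ ψ x‖ ^ 2) := by
        apply setIntegral_mono_on _ (hμ.int.mul_const _).integrableOn (P.meas j)
        · intro y hy
          rw [abs_mul, abs_of_nonneg (hp y)]
          apply mul_le_mul_of_nonneg_left _ (hp y)
          refine (U_lipschitz hψ hψc (R j) y).trans ?_
          apply mul_le_mul_of_nonneg_right _ hK
          have := P.near j y hy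
          rw [norm_sub_rev] at this
          linarith
        · have h2 : Integrable (fun y => μ y * (U (fun y => ψ y ^ 2) (R j)
              - U (fun y => ψ y ^ 2) y)) := by
            have := (hμ.int.mul_const (U (fun y => ψ y ^ 2) (R j))).sub hint
            refine this.congr (Eventually.of_forall fun y => ?_)
            simp only [Pi.sub_apply]
            ring
          exact h2.abs.integrableOn
    _ = 4 * h * (∫ y in C j, μ y) * ∫ x, ‖fderiv ℝ ψ x‖ ^ 2 := by
        rw [integral_mul_const]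
        ring

end

end Pool.Agent.Lib.TFW
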