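import Pool.Agent.Lib.MP_1526eb_mp.Discrete

set_option autoImplicit false

open MeasureTheory Set Filter Topology

namespace Pool.Agent.Lib.TFW

/-- Admissible trial functions. -/
def Adm (ψ : X → ℝ) : Prop := ContDiff ℝ 1 ψ ∧ HasCompactSupport ψ

/-- density -/
def sq (ψ : X → ℝ) : X → ℝ := fun x => ψ x ^ 2

lemma Adm.BI {ψ : X → ℝ} (h : Adm ψ) : BI (sq ψ) :=
  BI.of_compactSupport (h.1.continuous.pow 2) (hcs_sq h.2)

lemma sq_nonneg' (ψ : X → ℝ) (x : X) : 0 ≤ sq ψ x := sq_nonneg _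

/-- kinetic energy -/
noncomputable def Kin (ψ : X → ℝ) : ℝ := ∫ x, ‖fderiv ℝ ψ x‖ ^ 2

lemma Kin_nonneg (ψ : X → ℝ) : 0 ≤ Kin ψ := integral_nonneg fun _ => sq_nonneg _

/-- The energy with `cW = 1`, with the nuclear term written through potentials. -/
noncomputable def En (cTF : ℝ) {K : ℕ} (R : Fin K → X) (z : Fin K → ℝ) (ψ : X → ℝ) : ℝ :=
  Kin ψ + cTF * (∫ x, |ψ x| ^ ((10 : ℝ) / 3)) - ∑ j, z j * U (sq ψ) (R j)
    + (1 / 2) * D (sq ψ) (sq ψ)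

/-- The nuclear density `μ₀ + s g`. -/
noncomputable def mus (s m : ℝ) (x : X) : ℝ := mu0 x + s * gg ((m ^ 2) ^ 2) x

lemma BI_mus (s : ℝ) {m : ℝ} (hm : 0 < m) : BI (mus s m) :=
  BI_mu0.add ((BI_gg (by positivity)).const_mul s)

lemma mus_pos {s m : ℝ} (hs : 0 ≤ s) (hm : 0 < m) (x : X) : 0 < mus s m x := by
  unfold mus
  have h1 := mu0_pos x
  have h2 := gg_pos (by positivity : 0 < (m ^ 2) ^ 2) x
  have := mul_nonneg hs h2.le
  linarith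

lemma mus_ge {s m : ℝ} (hs : 0 ≤ s) (hm : 0 < m) (x : X) : mu0 x ≤ mus s m x := by
  unfold mus
  have h2 := gg_pos (by positivity : 0 < (m ^ 2) ^ 2) x
  have := mul_nonneg hs h2.le
  linarith

lemma U_mus (s : ℝ) {m : ℝ} (hm : 0 < m) (x : X) :
    U (mus s m) x = U rho0 x + F0 (‖x‖ ^ 2) + s * kk ((m ^ 2) ^ 2) (‖x‖ ^ 2) := by
  have h1 := U_add BI_mu0 ((BI_gg (by positivity : 0 < (m ^ 2) ^ 2)).const_mul s) x
  have h2 : U (mus s m) x = U (fun y => mu0 y + s * gg ((m ^ 2) ^ 2) y) x := rfl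
  rw [h2, h1, U_const_mul, U_gg (by positivity), U_mu0]

lemma integral_mus (s : ℝ) {m : ℝ} (hm : 0 < m) : ∫ x, mus s m x = (∫ x, mu0 x) + s := by
  unfold mus
  have hm2 : 0 < m ^ 2 := by positivity
  rw [integral_add BI_mu0.int ((BI_gg (by positivity)).int.const_mul s), integral_const_mul,
    integral_gg hm2, mul_one]

lemma D_gg_m {m : ℝ} (hm : 0 < m) : D (gg ((m ^ 2) ^ 2)) (gg ((m ^ 2) ^ 2)) ≤ (m ^ 2)⁻¹ :=
  D_gg_self (by positivity)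

lemma D_mus_self {s m : ℝ} (hs : 0 ≤ s) (hs1 : s ≤ 1/2) (hm : 1 ≤ m) :
    D (mus s m) (mus s m) ≤ 2 * D mu0 mu0 + 1 := by
  have hm0 : 0 < m := by linarith
  have he : 0 < (m ^ 2) ^ 2 := by positivity
  have hg := BI_gg he
  have hsg := hg.const_mul s
  have h1 : D (mus s m) (mus s m) = D mu0 mu0 + 2 * (s * D mu0 (gg ((m ^ 2) ^ 2)))
      + s * (s * D (gg ((m ^ 2) ^ 2)) (gg ((m ^ 2) ^ 2))) := by
    have h2 : D (mus s m) (mus s m) = D (fun y => mu0 y + s * gg ((m ^ 2) ^ 2) y)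
      (fun y => mu0 y + s * gg ((m ^ 2) ^ 2) y) := rfl
    rw [h2, D_add_left BI_mu0 hsg (BI_mu0.add hsg), D_add_right BI_mu0 hsg BI_mu0,
      D_add_right BI_mu0 hsg hsg, D_symm hsg BI_mu0, D_const_mul_left, D_const_mul_right hg hg,
      D_const_mul_right hg BI_mu0]
    ring
  have h3 := D_le_add BI_mu0 hg one_pos
  have h4 := D_gg_m hm0
  have h5 : (m ^ 2)⁻¹ ≤ 1 := inv_le_one_of_one_le₀ (by nlinarith)
  have h6 := D_self_nonneg hg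
  have h7 := D_self_nonneg BI_mu0
  rw [h1]
  have h8 : s * (2 * D mu0 (gg ((m ^ 2) ^ 2))) ≤
      s * (1 * D mu0 mu0 + 1⁻¹ * D (gg ((m ^ 2) ^ 2)) (gg ((m ^ 2) ^ 2))) :=
    mul_le_mul_of_nonneg_left h3 hs
  have h9 : D (gg ((m ^ 2) ^ 2)) (gg ((m ^ 2) ^ 2)) ≤ 1 := h4.trans h5
  rw [inv_one, one_mul, one_mul] at h8
  have h10 : s * D mu0 mu0 ≤ 1/2 * D mu0 mu0 := mul_le_mul_of_nonneg_right hs1 h7
  have h11 : s * D (gg ((m ^ 2) ^ 2)) (gg ((m ^ 2) ^ 2)) ≤ 1/2 * 1 :=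
    mul_le_mul hs1 h9 h6 (by norm_num)
  have h12 : s * (s * D (gg ((m ^ 2) ^ 2)) (gg ((m ^ 2) ^ 2))) ≤ 1/2 * (1/2 * 1) := by
    apply mul_le_mul hs1 h11 (by positivity) (by norm_num)
  nlinarith

section
variable {Λ h : ℝ} {K : ℕ} {R : Fin K → X} {C : Fin K → Set X} {s m : ℝ}

lemma setInt_mus_le (hs : 0 ≤ s) (hs1 : s ≤ 1/2) (hm : 0 < m) (Λ : ℝ) :
    ∫ y in Metric.closedBall (0:X) Λ, mus s m y ≤ (∫ x, mu0 x) + 1/2 := by
  have h1 : ∫ y in Metric.closedBall (0:X) Λ, mus s m y ≤ ∫ y, mus s m y :=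
    setIntegral_le_integral (BI_mus s hm).int (Eventually.of_forall fun y => (mus_pos hs hm y).le)
  rw [integral_mus s hm] at h1
  linarith

/-- Upper form bound for the discretised nuclear potential. -/
lemma form_upper (P : Part Λ h K R C) (hh : 0 < h)
    (hs : 0 ≤ s) (hs1 : s ≤ 1/2) (hm : 0 < m) {ψ : X → ℝ} (hψ : Adm ψ) :
    ∑ j, chg C (mus s m) j * U (sq ψ) (R j) ≤ D (mus s m) (sq ψ)
      + (4 * h * ((∫ x, mu0 x) + 1/2)) * Kin ψ := by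
  have h1 := P.disc (BI_mus s hm) (fun x => (mus_pos hs hm x).le) hψ.1 hψ.2
  have h2 := (abs_le.1 h1).2
  have h3 : ∫ y in Metric.closedBall (0:X) Λ, mus s m y * U (fun y => ψ y ^ 2) y
      ≤ D (mus s m) (sq ψ) := by
    rw [D_eq_U]
    exact setIntegral_le_integral (integrable_mul_U (BI_mus s hm) hψ.BI)
      (Eventually.of_forall fun y => mul_nonneg (mus_pos hs hm y).le
        (U_nonneg (fun x => sq_nonneg _) y))
  have h4 := setInt_mus_le hs hs1 hm Λ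
  have h5 : 4 * h * (∫ y in Metric.closedBall (0:X) Λ, mus s m y) * Kin ψ
      ≤ (4 * h * ((∫ x, mu0 x) + 1/2)) * Kin ψ := by
    apply mul_le_mul_of_nonneg_right _ (Kin_nonneg ψ)
    exact mul_le_mul_of_nonneg_left h4 (by positivity)
  have h6 : (sq ψ) = fun y => ψ y ^ 2 := rfl
  have h7 : Kin ψ = ∫ x, ‖fderiv ℝ ψ x‖ ^ 2 := rfl
  rw [← h7] at h2
  rw [h6] at h3 ⊢
  linarith

lemma form_lower (P : Part Λ h K R C) (hh : 0 < h)
    (hs : 0 ≤ s) (hs1 : s ≤ 1/2) (hm : 0 < m) {ψ : X → ℝ} (hψ : Adm ψ) :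
    (∫ y in Metric.closedBall (0:X) Λ, mu0 y * U (sq ψ) y)
      - (4 * h * ((∫ x, mu0 x) + 1/2)) * Kin ψ ≤ ∑ j, chg C (mus s m) j * U (sq ψ) (R j) := by
  have h1 := P.disc (BI_mus s hm) (fun x => (mus_pos hs hm x).le) hψ.1 hψ.2
  have h2 := (abs_le.1 h1).1
  have h3 : ∫ y in Metric.closedBall (0:X) Λ, mu0 y * U (sq ψ) y
      ≤ ∫ y in Metric.closedBall (0:X) Λ, mus s m y * U (fun y => ψ y ^ 2) y := by
    apply setIntegral_mono_on (integrable_mul_U BI_mu0 hψ.BI).integrableOn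
      (integrable_mul_U (BI_mus s hm) hψ.BI).integrableOn measurableSet_closedBall
    intro y _
    exact mul_le_mul_of_nonneg_right (mus_ge hs hm y) (U_nonneg (fun x => sq_nonneg _) y)
  have h4 := setInt_mus_le hs hs1 hm Λ
  have h5 : 4 * h * (∫ y in Metric.closedBall (0:X) Λ, mus s m y) * Kin ψ
      ≤ (4 * h * ((∫ x, mu0 x) + 1/2)) * Kin ψ := by
    apply mul_le_mul_of_nonneg_right _ (Kin_nonneg ψ)
    exact mul_le_mul_of_nonneg_left h4 (by positivity)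
  have h6 : (sq ψ) = fun y => ψ y ^ 2 := rfl
  have h7 : Kin ψ = ∫ x, ‖fderiv ℝ ψ x‖ ^ 2 := rfl
  rw [← h7] at h2
  rw [h6] at h3 ⊢
  linarith

/-- A priori lower bound. -/
lemma apriori (P : Part Λ h K R C) (hh : 0 < h) (hhZ : 4 * h * ((∫ x, mu0 x) + 1/2) ≤ 1/2)
    (hs : 0 ≤ s) (hs1 : s ≤ 1/2) (hm : 1 ≤ m) {cTF : ℝ} (hc : 0 ≤ cTF) {ψ : X → ℝ}
    (hψ : Adm ψ) :
    (1/2) * Kin ψ + (1/4) * D (sq ψ) (sq ψ) ≤ En cTF R (chg C (mus s m)) ψ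
      + (2 * D mu0 mu0 + 1) := by
  have hm0 : 0 < m := by linarith
  have h1 := form_upper P hh hs hs1 hm0 hψ
  have h2 := D_le_add (BI_mus s hm0) hψ.BI (t := 2) (by norm_num)
  have h3 := D_mus_self hs hs1 hm
  have h4 : 0 ≤ cTF * (∫ x, |ψ x| ^ ((10 : ℝ) / 3)) :=
    mul_nonneg hc (integral_nonneg fun x => by positivity)
  have h5 := Kin_nonneg ψ
  have h6 := mul_le_mul_of_nonneg_right hhZ h5
  unfold En
  linarith

/-- The `s = 0`, `h = 0` functional identity (`E₀`). -/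
lemma E0_eq {ψ : X → ℝ} (hψ : Adm ψ) :
    Kin ψ - D mu0 (sq ψ) + (1/2) * D (sq ψ) (sq ψ)
      = (Kin ψ - ∫ x, F0 (‖x‖ ^ 2) * ψ x ^ 2)
        + (1/2) * D (fun x => sq ψ x - rho0 x) (fun x => sq ψ x - rho0 x)
        - (1/2) * D rho0 rho0 := by
  have hB := hψ.BI
  have h1 : D mu0 (sq ψ) = D (sq ψ) rho0 + ∫ x, F0 (‖x‖ ^ 2) * ψ x ^ 2 := by
    rw [D_symm BI_mu0 hB, D_eq_U, D_eq_U, ← integral_add (integrable_mul_U hB BI_rho0)]
    · congr 1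
      ext x
      rw [U_mu0]
      unfold sq
      ring
    · have : Continuous (fun x : X => F0 (‖x‖ ^ 2)) := rad_F0.contDiff.continuous
      exact (this.mul (hψ.1.continuous.pow 2)).integrable_of_hasCompactSupport
        (hcs_sq hψ.2).mul_left
  rw [h1, D_sub_self hB BI_rho0]
  ring

/-- Any admissible `ψ`: its density is close to `ρ₀` when its energy is low. -/
lemma closeness (P : Part Λ h K R C) (hh : 0 < h)
    (hs : 0 ≤ s) (hs1 : s ≤ 1/2) (hm : 1 ≤ m) {cTF : ℝ} (hc : 0 ≤ cTF) {ψ : X → ℝ}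
    (hψ : Adm ψ) :
    (1/2) * D (fun x => sq ψ x - rho0 x) (fun x => sq ψ x - rho0 x)
      ≤ En cTF R (chg C (mus s m)) ψ + (1/2) * D rho0 rho0
        + (4 * h * ((∫ x, mu0 x) + 1/2)) * Kin ψ + m⁻¹ * (D (sq ψ) (sq ψ) + 1) := by
  have hm0 : 0 < m := by linarith
  have he : 0 < (m ^ 2) ^ 2 := by positivity
  have hB := hψ.BI
  have h1 := form_upper P hh hs hs1 hm0 hψ
  have h2 := E0_eq hψ
  have h3 := kin_ge hψ.1 hψ.2
  have h3' : ∫ x, F0 (‖x‖ ^ 2) * ψ x ^ 2 ≤ Kin ψ := h3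
  have h4 : 0 ≤ cTF * (∫ x, |ψ x| ^ ((10 : ℝ) / 3)) :=
    mul_nonneg hc (integral_nonneg fun x => by positivity)
  have h5 : D (mus s m) (sq ψ) = D mu0 (sq ψ) + s * D (gg ((m ^ 2) ^ 2)) (sq ψ) := by
    have : D (mus s m) (sq ψ) = D (fun y => mu0 y + s * gg ((m ^ 2) ^ 2) y) (sq ψ) := rfl
    rw [this, D_add_left BI_mu0 ((BI_gg he).const_mul s) hB, D_const_mul_left]
  have h6 := D_le_add hB (BI_gg he) (inv_pos.2 hm0)
  rw [inv_inv] at h6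
  have h7 := mul_le_mul_of_nonneg_left (D_gg_m hm0) hm0.le
  have h8 : m * (m ^ 2)⁻¹ = m⁻¹ := by field_simp
  rw [h8] at h7
  have h9 : D (gg ((m ^ 2) ^ 2)) (sq ψ) = D (sq ψ) (gg ((m ^ 2) ^ 2)) := D_symm (BI_gg he) hB
  have h10 : 0 ≤ D (gg ((m ^ 2) ^ 2)) (sq ψ) :=
    D_nonneg_of_nonneg (fun x => (gg_pos he x).le) (fun x => sq_nonneg _)
  have h11 : s * D (gg ((m ^ 2) ^ 2)) (sq ψ) ≤ 1/2 * D (gg ((m ^ 2) ^ 2)) (sq ψ) :=
    mul_le_mul_of_nonneg_right hs1 h10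
  have h12 : 0 ≤ m⁻¹ * (D (sq ψ) (sq ψ) + 1) := by
    have := D_self_nonneg hB
    positivity
  unfold En
  nlinarith

end

end Pool.Agent.Lib.TFW
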