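import Pool.Agent.Lib.MP_1526eb_mp.Poisson

set_option autoImplicit false

open MeasureTheory Set Filter Topology

namespace Pool.Agent.Lib.TFW

/-- `u(s) = (1+s)^(-1/4)`. -/
noncomputable def uu (s : ℝ) : ℝ := Real.sqrt (kk 1 s)

lemma uu_pos {s : ℝ} (hs : 0 ≤ s) : 0 < uu s := Real.sqrt_pos.2 (kk_pos one_pos hs)

lemma uu_sq {s : ℝ} (hs : 0 ≤ s) : uu s ^ 2 = kk 1 s := Real.sq_sqrt (kk_pos one_pos hs).le

lemma uu_le_one {s : ℝ} (hs : 0 ≤ s) : uu s ≤ 1 := by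
  unfold uu
  rw [Real.sqrt_le_left one_pos.le]
  have := kk_le one_pos hs
  simpa using this

lemma uu_four {s : ℝ} (hs : 0 ≤ s) : (1 + s) * uu s ^ 4 = 1 := by
  rw [show uu s ^ 4 = (uu s ^ 2) ^ 2 by ring, uu_sq hs]
  exact kk_sq one_pos hs

lemma hasDerivAt_uu {s : ℝ} (hs : 0 ≤ s) : HasDerivAt uu (-(1/4) * uu s ^ 5) s := by
  have h1 := (hasDerivAt_kk one_pos hs).sqrt (kk_pos one_pos hs).ne'
  refine h1.congr_deriv ?_
  have hu := uu_pos hs
  have h2 : kk 1 s = uu s ^ 2 := (uu_sq hs).symm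
  have h3 : Real.sqrt (kk 1 s) = uu s := rfl
  rw [h3, h2]
  field_simp
  ring

lemma hasDerivAt_uu_pow (n : ℕ) {s : ℝ} (hs : 0 ≤ s) :
    HasDerivAt (fun s => uu s ^ (n + 1)) (-((n + 1 : ℝ) / 4) * uu s ^ (n + 5)) s := by
  have h := (hasDerivAt_uu hs).pow (n + 1)
  refine h.congr_deriv ?_
  simp only [Nat.add_sub_cancel]
  push_cast
  ring

/-- The radial profile of `φ₀`. -/
noncomputable def F0 (s : ℝ) : ℝ :=
  -uu s ^ 2 - (1/2) * uu s ^ 3 + uu s ^ 6 + (7/2) * uu s ^ 7 + 3 * uu s ^ 8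

/-- Its first derivative. -/
noncomputable def F01 (s : ℝ) : ℝ :=
  (1/2) * uu s ^ 6 + (3/8) * uu s ^ 7 - (3/2) * uu s ^ 10 - (49/8) * uu s ^ 11 - 6 * uu s ^ 12

/-- Its second derivative. -/
noncomputable def F02 (s : ℝ) : ℝ :=
  -(3/4) * uu s ^ 10 - (21/32) * uu s ^ 11 + (15/4) * uu s ^ 14 + (539/32) * uu s ^ 15
    + 18 * uu s ^ 16

/-- `β = u⁴ + u³`. -/
noncomputable def be (s : ℝ) : ℝ := uu s ^ 4 + uu s ^ 3

/-- `β' = -u⁸ - (3/4)u⁷`. -/
noncomputable def be1 (s : ℝ) : ℝ := -uu s ^ 8 - (3/4) * uu s ^ 7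

lemma hasDerivAt_F0 {s : ℝ} (hs : 0 ≤ s) : HasDerivAt F0 (F01 s) s := by
  have h2 := (hasDerivAt_uu_pow 1 hs)
  have h3 := (hasDerivAt_uu_pow 2 hs).const_mul (1/2)
  have h6 := (hasDerivAt_uu_pow 5 hs)
  have h7 := (hasDerivAt_uu_pow 6 hs).const_mul (7/2)
  have h8 := (hasDerivAt_uu_pow 7 hs).const_mul 3
  refine ((((h2.neg.sub h3).add h6).add h7).add h8).congr_deriv ?_
  unfold F01
  push_cast
  ring

lemma hasDerivAt_F01 {s : ℝ} (hs : 0 ≤ s) : HasDerivAt F01 (F02 s) s := by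
  have h2 := (hasDerivAt_uu_pow 5 hs).const_mul (1/2)
  have h3 := (hasDerivAt_uu_pow 6 hs).const_mul (3/8)
  have h6 := (hasDerivAt_uu_pow 9 hs).const_mul (3/2)
  have h7 := (hasDerivAt_uu_pow 10 hs).const_mul (49/8)
  have h8 := (hasDerivAt_uu_pow 11 hs).const_mul 6
  refine ((((h2.add h3).sub h6).sub h7).sub h8).congr_deriv ?_
  unfold F02
  push_cast
  ring

lemma hasDerivAt_be {s : ℝ} (hs : 0 ≤ s) : HasDerivAt be (be1 s) s := by
  have h2 := (hasDerivAt_uu_pow 3 hs)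
  have h3 := (hasDerivAt_uu_pow 2 hs)
  refine (h2.add h3).congr_deriv ?_
  unfold be1
  push_cast
  ring

lemma continuousOn_uu : ContinuousOn uu (Ici 0) :=
  continuousOn_of_deriv fun _ hs => hasDerivAt_uu hs

lemma continuousOn_be1 : ContinuousOn be1 (Ici 0) := by
  unfold be1
  have := continuousOn_uu
  fun_prop

lemma continuousOn_F02 : ContinuousOn F02 (Ici 0) := by
  unfold F02
  have := continuousOn_uu
  fun_prop

lemma continuous_uux : Continuous (fun x : X => uu (‖x‖ ^ 2)) := by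
  have := continuous_radial continuousOn_uu (0 : X)
  simpa using this

lemma rad_F0 : Rad F0 F01 F02 := by
  refine ⟨fun s hs => hasDerivAt_F0 hs, fun s hs => hasDerivAt_F01 hs, continuousOn_F02,
    ⟨9, fun s hs => ?_⟩, ⟨15, fun s hs => ?_⟩, ⟨41, fun s hs => ?_⟩⟩
  · have p := uu_pos hs
    have l := uu_le_one hs
    rw [← uu_sq hs]
    have e3 : uu s ^ 3 ≤ uu s ^ 2 := pow_le_pow_of_le_one p.le l (by norm_num)
    have e6 : uu s ^ 6 ≤ uu s ^ 2 := pow_le_pow_of_le_one p.le l (by norm_num)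
    have e7 : uu s ^ 7 ≤ uu s ^ 2 := pow_le_pow_of_le_one p.le l (by norm_num)
    have e8 : uu s ^ 8 ≤ uu s ^ 2 := pow_le_pow_of_le_one p.le l (by norm_num)
    have p3 := pow_pos p 3
    have p6 := pow_pos p 6
    have p7 := pow_pos p 7
    have p8 := pow_pos p 8
    unfold F0
    rw [abs_le]
    constructor <;> linarith
  · have p := uu_pos hs
    have l := uu_le_one hs
    rw [← uu_sq hs, ← pow_mul]
    norm_num
    have e6 : uu s ^ 6 ≤ uu s ^ 4 := pow_le_pow_of_le_one p.le l (by norm_num)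
    have e7 : uu s ^ 7 ≤ uu s ^ 4 := pow_le_pow_of_le_one p.le l (by norm_num)
    have e10 : uu s ^ 10 ≤ uu s ^ 4 := pow_le_pow_of_le_one p.le l (by norm_num)
    have e11 : uu s ^ 11 ≤ uu s ^ 4 := pow_le_pow_of_le_one p.le l (by norm_num)
    have e12 : uu s ^ 12 ≤ uu s ^ 4 := pow_le_pow_of_le_one p.le l (by norm_num)
    have p6 := pow_pos p 6
    have p7 := pow_pos p 7
    have p10 := pow_pos p 10
    have p11 := pow_pos p 11
    have p12 := pow_pos p 12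
    unfold F01
    rw [abs_le]
    constructor <;> linarith
  · have p := uu_pos hs
    have l := uu_le_one hs
    have h4 := uu_four hs
    rw [← uu_sq hs, ← pow_mul]
    norm_num
    have e10 : uu s ^ 10 ≤ uu s ^ 8 := pow_le_pow_of_le_one p.le l (by norm_num)
    have e11 : uu s ^ 11 ≤ uu s ^ 8 := pow_le_pow_of_le_one p.le l (by norm_num)
    have e14 : uu s ^ 14 ≤ uu s ^ 8 := pow_le_pow_of_le_one p.le l (by norm_num)
    have e15 : uu s ^ 15 ≤ uu s ^ 8 := pow_le_pow_of_le_one p.le l (by norm_num)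
    have e16 : uu s ^ 16 ≤ uu s ^ 8 := pow_le_pow_of_le_one p.le l (by norm_num)
    have p10 := pow_pos p 10
    have p11 := pow_pos p 11
    have p14 := pow_pos p 14
    have p15 := pow_pos p 15
    have p16 := pow_pos p 16
    have hF : |F02 s| ≤ 41 * uu s ^ 8 := by
      unfold F02
      rw [abs_le]
      constructor <;> linarith
    have h5 := mul_le_mul_of_nonneg_right hF hs
    have h6 : uu s ^ 8 * s ≤ uu s ^ 4 := by
      have : uu s ^ 8 * s ≤ uu s ^ 4 * ((1 + s) * uu s ^ 4) := by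
        have := pow_pos p 8
        nlinarith
      rw [h4, mul_one] at this
      exact this
    nlinarith

lemma F0_eq {s : ℝ} (hs : 0 ≤ s) :
    3 * be s + 2 * be1 s * s - be s ^ 2 * s = F0 s := by
  have h4 := uu_four hs
  have hs' : s * uu s ^ 4 = 1 - uu s ^ 4 := by linarith
  unfold be be1 F0
  linear_combination (-2 * (uu s ^ 4 + (3/4) * uu s ^ 3) - (uu s ^ 4 + 2 * uu s ^ 3 + uu s ^ 2)) * hs'

/-- `-Δφ₀` in closed form. -/
noncomputable def G0 (s : ℝ) : ℝ :=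
  (3/8) * uu s ^ 7 - 9 * uu s ^ 10 - (133/4) * uu s ^ 11 - 36 * uu s ^ 12 + 15 * uu s ^ 14
    + (539/8) * uu s ^ 15 + 72 * uu s ^ 16

lemma neg_lap_F0 (x : X) : -lap F01 F02 x = G0 (‖x‖ ^ 2) := by
  have h4 := uu_four (sq_nonneg ‖x‖)
  have hs' : ‖x‖ ^ 2 * uu (‖x‖ ^ 2) ^ 4 = 1 - uu (‖x‖ ^ 2) ^ 4 := by linarith
  unfold lap F01 F02 G0
  set u := uu (‖x‖ ^ 2)
  linear_combination (3 * u ^ 6 + (21/8) * u ^ 7 - 15 * u ^ 10 - (539/8) * u ^ 11 - 72 * u ^ 12) * hs'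

lemma integrable_uu7 : Integrable (fun x : X => uu (‖x‖ ^ 2) ^ 7) := by
  have h := integrable_rpow_neg_one_add_norm_sq (E := X) (μ := volume) (r := 7/2)
    (by rw [finrank_X]; norm_num)
  refine h.congr (Eventually.of_forall fun x => ?_)
  simp only
  have hp : (0:ℝ) < 1 + ‖x‖ ^ 2 := by positivity
  unfold uu kk
  generalize 1 + ‖x‖ ^ 2 = w at hp
  rw [Real.sqrt_eq_rpow, Real.sqrt_eq_rpow, ← Real.rpow_neg hp.le, ← Real.rpow_mul hp.le,
    ← Real.rpow_natCast, ← Real.rpow_mul hp.le]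
  congr 1
  norm_num

lemma BI_uu_pow {n : ℕ} (hn : 7 ≤ n) : BI (fun x : X => uu (‖x‖ ^ 2) ^ n) := by
  have h7 : BI (fun x : X => uu (‖x‖ ^ 2) ^ 7) := by
    refine ⟨continuous_uux.pow 7, integrable_uu7, 1, fun x => ?_⟩
    have p := uu_pos (sq_nonneg ‖x‖)
    rw [abs_of_nonneg (by positivity)]
    exact pow_le_one₀ p.le (uu_le_one (sq_nonneg _))
  refine h7.mono (continuous_uux.pow n) fun x => ?_
  have p := uu_pos (sq_nonneg ‖x‖)
  rw [abs_of_nonneg (by positivity)]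
  exact pow_le_pow_of_le_one p.le (uu_le_one (sq_nonneg _)) hn

lemma BI_G0 : BI (fun x : X => G0 (‖x‖ ^ 2)) := by
  unfold G0
  have h7 := (BI_uu_pow (n := 7) (by norm_num)).const_mul (3/8)
  have h10 := (BI_uu_pow (n := 10) (by norm_num)).const_mul 9
  have h11 := (BI_uu_pow (n := 11) (by norm_num)).const_mul (133/4)
  have h12 := (BI_uu_pow (n := 12) (by norm_num)).const_mul 36
  have h14 := (BI_uu_pow (n := 14) (by norm_num)).const_mul 15
  have h15 := (BI_uu_pow (n := 15) (by norm_num)).const_mul (539/8)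
  have h16 := (BI_uu_pow (n := 16) (by norm_num)).const_mul 72
  exact (((((h7.sub h10).sub h11).sub h12).add h14).add h15).add h16

lemma BI.neg {f : X → ℝ} (hf : BI f) : BI (fun x => -f x) := by
  have := hf.const_mul (-1)
  simpa using this

lemma BI_lapF0 : BI (lap F01 F02) := by
  have : lap F01 F02 = fun x => -G0 (‖x‖ ^ 2) := by
    ext x
    rw [← neg_lap_F0]
    ring
  rw [this]
  exact BI_G0.neg

lemma U_G0 (x : X) : U (fun y => G0 (‖y‖ ^ 2)) x = om * F0 (‖x‖ ^ 2) := by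
  have := poisson rad_F0 BI_lapF0 x
  simp only [neg_lap_F0] at this
  exact this

/-- The amplitude constant `λ²`. -/
noncomputable def Lam : ℝ := 256 * Real.exp 16 * 100 / om

lemma Lam_pos : 0 < Lam := by
  unfold Lam
  have := om_pos
  positivity

/-- The density `ρ₀`. -/
noncomputable def rho0 (x : X) : ℝ := Lam * (uu (‖x‖ ^ 2) ^ 4 * Real.exp (-4 / uu (‖x‖ ^ 2)))

lemma rho0_pos (x : X) : 0 < rho0 x := by
  have h1 := Lam_pos
  have h2 := uu_pos (sq_nonneg ‖x‖)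
  unfold rho0
  positivity

lemma exp_bound {u : ℝ} (hu : 0 < u) : Real.exp (-4 / u) ≤ u ^ 8 := by
  have h1 := Real.pow_div_factorial_le_exp (4 / u) (by positivity) 8
  have h2 : u⁻¹ ^ 8 ≤ (4 / u) ^ 8 / (Nat.factorial 8 : ℝ) := by
    rw [div_pow, inv_pow, inv_eq_one_div, div_div, div_le_div_iff₀ (by positivity) (by positivity)]
    have : ((Nat.factorial 8 : ℕ) : ℝ) = 40320 := by norm_num [Nat.factorial]
    rw [this]
    have := pow_pos hu 8
    nlinarith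
  have h3 : u⁻¹ ^ 8 ≤ Real.exp (4 / u) := h2.trans h1
  rw [neg_div, Real.exp_neg]
  have h4 := inv_anti₀ (by positivity) h3
  rwa [← inv_pow, inv_inv] at h4

lemma continuous_rho0 : Continuous rho0 := by
  unfold rho0
  have h := continuous_uux
  have h2 : Continuous (fun x : X => -4 / uu (‖x‖ ^ 2)) :=
    continuous_const.div h (fun x => (uu_pos (sq_nonneg _)).ne')
  exact continuous_const.mul ((h.pow 4).mul (Real.continuous_exp.comp h2))

lemma rho0_le (x : X) : rho0 x ≤ Lam * uu (‖x‖ ^ 2) ^ 12 := by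
  unfold rho0
  have h2 := uu_pos (sq_nonneg ‖x‖)
  have h3 := exp_bound h2
  apply mul_le_mul_of_nonneg_left _ Lam_pos.le
  calc uu (‖x‖ ^ 2) ^ 4 * Real.exp (-4 / uu (‖x‖ ^ 2)) ≤ uu (‖x‖ ^ 2) ^ 4 * uu (‖x‖ ^ 2) ^ 8 :=
        mul_le_mul_of_nonneg_left h3 (by positivity)
    _ = uu (‖x‖ ^ 2) ^ 12 := by ring

lemma BI_rho0 : BI rho0 := by
  refine ((BI_uu_pow (n := 12) (by norm_num)).const_mul Lam).mono continuous_rho0 fun x => ?_
  rw [abs_of_pos (rho0_pos x)]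
  exact rho0_le x

lemma BI_norm_rho0 : BI (fun x => ‖x‖ * rho0 x) := by
  refine ((BI_uu_pow (n := 8) (by norm_num)).const_mul Lam).mono
    (continuous_norm.mul continuous_rho0) fun x => ?_
  rw [abs_of_nonneg (mul_nonneg (norm_nonneg _) (rho0_pos x).le)]
  have h1 := rho0_le x
  have h4 := uu_four (sq_nonneg ‖x‖)
  have p := uu_pos (sq_nonneg ‖x‖)
  have h5 : ‖x‖ * uu (‖x‖ ^ 2) ^ 4 ≤ 1 := by
    have : ‖x‖ ≤ 1 + ‖x‖ ^ 2 := by nlinarith [sq_nonneg (‖x‖ - 1)]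
    have := mul_le_mul_of_nonneg_right this (pow_pos p 4).le
    linarith
  calc ‖x‖ * rho0 x ≤ ‖x‖ * (Lam * uu (‖x‖ ^ 2) ^ 12) :=
        mul_le_mul_of_nonneg_left h1 (norm_nonneg _)
    _ = (‖x‖ * uu (‖x‖ ^ 2) ^ 4) * (Lam * uu (‖x‖ ^ 2) ^ 8) := by ring
    _ ≤ 1 * (Lam * uu (‖x‖ ^ 2) ^ 8) :=
        mul_le_mul_of_nonneg_right h5 (by have := Lam_pos; positivity)
    _ = _ := by ring

lemma BI_normsq_rho0 : BI (fun x => ‖x‖ * (‖x‖ * rho0 x)) := by
  refine ((BI_uu_pow (n := 8) (by norm_num)).const_mul Lam).mono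
    (continuous_norm.mul (continuous_norm.mul continuous_rho0)) fun x => ?_
  rw [abs_of_nonneg (mul_nonneg (norm_nonneg _) (mul_nonneg (norm_nonneg _) (rho0_pos x).le))]
  have h1 := rho0_le x
  have h4 := uu_four (sq_nonneg ‖x‖)
  have p := uu_pos (sq_nonneg ‖x‖)
  have h5 : ‖x‖ ^ 2 * uu (‖x‖ ^ 2) ^ 4 ≤ 1 := by
    have : ‖x‖ ^ 2 ≤ 1 + ‖x‖ ^ 2 := by linarith
    have := mul_le_mul_of_nonneg_right this (pow_pos p 4).le
    linarith
  calc ‖x‖ * (‖x‖ * rho0 x) = ‖x‖ ^ 2 * rho0 x := by ring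
    _ ≤ ‖x‖ ^ 2 * (Lam * uu (‖x‖ ^ 2) ^ 12) :=
        mul_le_mul_of_nonneg_left h1 (by positivity)
    _ = (‖x‖ ^ 2 * uu (‖x‖ ^ 2) ^ 4) * (Lam * uu (‖x‖ ^ 2) ^ 8) := by ring
    _ ≤ 1 * (Lam * uu (‖x‖ ^ 2) ^ 8) :=
        mul_le_mul_of_nonneg_right h5 (by have := Lam_pos; positivity)
    _ = _ := by ring

/-- The nuclear density. -/
noncomputable def mu0 (x : X) : ℝ := rho0 x + om⁻¹ * G0 (‖x‖ ^ 2)

lemma BI_mu0 : BI mu0 := BI_rho0.add (BI_G0.const_mul om⁻¹)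

lemma mu0_pos (x : X) : 0 < mu0 x := by
  have ho := om_pos
  set u := uu (‖x‖ ^ 2) with hu
  have p : 0 < u := uu_pos (sq_nonneg ‖x‖)
  have l : u ≤ 1 := uu_le_one (sq_nonneg ‖x‖)
  by_cases h : u ≤ 1/4
  · -- tail region
    have hG : 0 < G0 (‖x‖ ^ 2) := by
      unfold G0
      rw [← hu]
      have e3 : u ^ 3 ≤ (1/4) ^ 3 := pow_le_pow_left₀ p.le h 3
      have e4 : u ^ 4 ≤ (1/4) ^ 4 := pow_le_pow_left₀ p.le h 4
      have e5 : u ^ 5 ≤ (1/4) ^ 5 := pow_le_pow_left₀ p.le h 5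
      have key : 0 < 3/8 - 9 * u ^ 3 - (133/4) * u ^ 4 - 36 * u ^ 5 := by
        norm_num at e3 e4 e5 ⊢
        linarith
      have p7 := pow_pos p 7
      have p14 := pow_pos p 14
      have p15 := pow_pos p 15
      have p16 := pow_pos p 16
      have := mul_pos p7 key
      nlinarith
    have := rho0_pos x
    unfold mu0
    have h2 : 0 < om⁻¹ * G0 (‖x‖ ^ 2) := by positivity
    linarith
  · push Not at h
    have hG : -79 < G0 (‖x‖ ^ 2) := by
      unfold G0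
      rw [← hu]
      have p7 := pow_pos p 7
      have p14 := pow_pos p 14
      have p15 := pow_pos p 15
      have p16 := pow_pos p 16
      have l10 : u ^ 10 ≤ 1 := pow_le_one₀ p.le l
      have l11 : u ^ 11 ≤ 1 := pow_le_one₀ p.le l
      have l12 : u ^ 12 ≤ 1 := pow_le_one₀ p.le l
      linarith
    have hr : 100 / om ≤ rho0 x := by
      unfold rho0 Lam
      rw [← hu]
      have e4 : (1/4:ℝ) ^ 4 ≤ u ^ 4 := pow_le_pow_left₀ (by norm_num) h.le 4
      have ee : Real.exp (-16) ≤ Real.exp (-4 / u) := by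
        apply Real.exp_le_exp.2
        rw [neg_div, neg_le_neg_iff, div_le_iff₀ p]
        linarith
      have e5 : (1/4:ℝ) ^ 4 * Real.exp (-16) ≤ u ^ 4 * Real.exp (-4 / u) :=
        mul_le_mul e4 ee (Real.exp_pos _).le (by positivity)
      have e6 := mul_le_mul_of_nonneg_left e5 (by positivity : 0 ≤ 256 * Real.exp 16 * 100 / om)
      refine le_trans (le_of_eq ?_) e6
      have e7 : Real.exp 16 * Real.exp (-16) = 1 := by rw [← Real.exp_add]; simp
      calc 100 / om = (Real.exp 16 * Real.exp (-16)) * (100 / om) := by rw [e7, one_mul]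
        _ = _ := by ring
    unfold mu0
    have h3 : om⁻¹ * (-79) < om⁻¹ * G0 (‖x‖ ^ 2) := mul_lt_mul_of_pos_left hG (by positivity)
    have h4 : 0 < 100 / om + om⁻¹ * (-79) := by
      rw [div_eq_mul_inv]
      have : 0 < om⁻¹ := by positivity
      linarith
    linarith

lemma U_mu0 (x : X) : U mu0 x = U rho0 x + F0 (‖x‖ ^ 2) := by
  have h1 := U_add BI_rho0 (BI_G0.const_mul om⁻¹) x
  have h2 : U mu0 x = U (fun y => rho0 y + om⁻¹ * G0 (‖y‖ ^ 2)) x := rfl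
  rw [h2, h1, U_const_mul, U_G0, ← mul_assoc, inv_mul_cancel₀ om_pos.ne', one_mul]

/-- The amplitude `ψ₀ = √ρ₀`. -/
noncomputable def psi0 (x : X) : ℝ :=
  Real.sqrt Lam * (uu (‖x‖ ^ 2) ^ 2 * Real.exp (-2 / uu (‖x‖ ^ 2)))

lemma psi0_sq (x : X) : psi0 x ^ 2 = rho0 x := by
  unfold psi0 rho0
  rw [mul_pow, Real.sq_sqrt Lam_pos.le, mul_pow, ← pow_mul, ← Real.exp_nat_mul]
  congr 3
  push_cast
  ring

end Pool.Agent.Lib.TFW
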