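import Pool.Agent.Lib.MP_1526eb_mp.Truncation

set_option autoImplicit false

open MeasureTheory Set Filter Topology

namespace Pool.Agent.Lib.TFW

lemma nuc_eq {K : ℕ} (R : Fin K → X) (z : Fin K → ℝ) {ψ : X → ℝ} (hψ : Adm ψ) :
    ∫ x, (∑ j, z j / ‖x - R j‖) * ψ x ^ 2 = ∑ j, z j * U (sq ψ) (R j) := by
  have h1 : (fun x => (∑ j, z j / ‖x - R j‖) * ψ x ^ 2)
      = fun x => ∑ j, z j * (sq ψ x / ‖R j - x‖) := by
    ext x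
    rw [Finset.sum_mul]
    apply Finset.sum_congr rfl
    intro j _
    rw [norm_sub_rev]
    unfold sq
    ring
  rw [h1, integral_finsetSum _ fun j _ => (integrable_div_norm hψ.BI (R j)).const_mul (z j)]
  apply Finset.sum_congr rfl
  intro j _
  rw [integral_const_mul]
  rfl

/-- the explicit energy formula equals `En` on admissible functions -/
lemma energy_eq (cTF : ℝ) {K : ℕ} (R : Fin K → X) (z : Fin K → ℝ) {ψ : X → ℝ} (hψ : Adm ψ) :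
    1 * (∫ x, ‖fderiv ℝ ψ x‖ ^ 2) + cTF * (∫ x, |ψ x| ^ ((10 : ℝ) / 3))
        - (∫ x, (∑ j, z j / ‖x - R j‖) * ψ x ^ 2)
        + (1 / 2) * ∫ x, ∫ y, ψ x ^ 2 * ψ y ^ 2 / ‖x - y‖ = En cTF R z ψ := by
  rw [nuc_eq R z hψ, one_mul]
  rfl

lemma chg_mono {K : ℕ} {C : Fin K → Set X} {m : ℝ} (hm : 0 < m) :
    chg C (mus 0 m) ≤ chg C (mus (1/2) m) := by
  intro j
  unfold chg
  apply setIntegral_mono (BI_mus _ hm).int.integrableOn (BI_mus _ hm).int.integrableOn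
  intro x
  unfold mus
  have := gg_pos (by positivity : 0 < (m ^ 2) ^ 2) x
  simp only
  linarith

lemma chg_sum {Λ h : ℝ} {K : ℕ} {R : Fin K → X} {C : Fin K → Set X} {m : ℝ} (hm : 0 < m)
    (P : Part Λ h K R C) :
    ∑ j, chg C (mus (1/2) m) j = ∑ j, chg C (mus 0 m) j
      + (1/2) * ∫ y in Metric.closedBall (0:X) Λ, gg ((m ^ 2) ^ 2) y := by
  unfold chg
  have hg := (BI_gg (by positivity : 0 < (m ^ 2) ^ 2))
  rw [P.integral_sum (BI_mus _ hm).int, P.integral_sum (BI_mus _ hm).int, ← integral_const_mul,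
    ← integral_add (BI_mus _ hm).int.integrableOn (hg.int.const_mul _).integrableOn]
  congr 1
  ext y
  unfold mus
  ring

/-- Bounds for the critical electron number from information on near minimisers. -/
lemma Nc_bounds {E : (X → ℝ) → ℝ} {N0 δ1 : ℝ} (hN0 : 0 ≤ N0) (hδ1 : 0 < δ1)
    (hbdd : ∃ B : ℝ, ∀ ψ, Adm ψ → B ≤ E ψ)
    (hlow : ∀ ψ, Adm ψ → (∀ φ, Adm φ → E ψ ≤ E φ + δ1) → N0 - 1/10 ≤ ∫ x, ψ x ^ 2)
    (hup : ∀ ψ, Adm ψ → (∀ φ, Adm φ → E ψ ≤ E φ + δ1) →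
      ∃ φ, Adm φ ∧ ∫ x, φ x ^ 2 ≤ N0 + 1/10 ∧ E φ ≤ E ψ) :
    N0 - 1/10 ≤ sInf {N : ℝ | 0 ≤ N ∧
      sInf (E '' {ψ : X → ℝ | ContDiff ℝ 1 ψ ∧ HasCompactSupport ψ ∧ ∫ x, ψ x ^ 2 ≤ N})
        = sInf (E '' {ψ : X → ℝ | ContDiff ℝ 1 ψ ∧ HasCompactSupport ψ})} ∧
    sInf {N : ℝ | 0 ≤ N ∧
      sInf (E '' {ψ : X → ℝ | ContDiff ℝ 1 ψ ∧ HasCompactSupport ψ ∧ ∫ x, ψ x ^ 2 ≤ N})
        = sInf (E '' {ψ : X → ℝ | ContDiff ℝ 1 ψ ∧ HasCompactSupport ψ})} ≤ N0 + 1/10 := by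
  obtain ⟨B, hB⟩ := hbdd
  set A : Set (X → ℝ) := {ψ : X → ℝ | ContDiff ℝ 1 ψ ∧ HasCompactSupport ψ} with hAdef
  set AN : ℝ → Set (X → ℝ) := fun N =>
    {ψ : X → ℝ | ContDiff ℝ 1 ψ ∧ HasCompactSupport ψ ∧ ∫ x, ψ x ^ 2 ≤ N} with hAN
  have hsub : ∀ N, AN N ⊆ A := fun N ψ hψ => ⟨hψ.1, hψ.2.1⟩
  have hbd : BddBelow (E '' A) := ⟨B, by
    rintro _ ⟨ψ, hψ, rfl⟩
    exact hB ψ hψ⟩
  have hbdN : ∀ N, BddBelow (E '' AN N) := fun N => hbd.mono (image_mono (hsub N))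
  have hneN : ∀ N, 0 ≤ N → (E '' AN N).Nonempty := fun N hN =>
    ⟨E (fun _ => 0), fun _ => 0, ⟨contDiff_const, HasCompactSupport.zero, by simpa using hN⟩, rfl⟩
  have hne : (E '' A).Nonempty := ⟨E (fun _ => 0), fun _ => 0, adm_zero, rfl⟩
  have near : ∀ ε : ℝ, ε ≤ δ1 → ∀ ψ, E ψ < sInf (E '' A) + ε →
      ∀ φ, Adm φ → E ψ ≤ E φ + δ1 := by
    intro ε hε ψ hψ φ hφ
    have h1 : sInf (E '' A) ≤ E φ := csInf_le hbd ⟨φ, hφ, rfl⟩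
    linarith
  have hmem : N0 + 1/10 ∈ {N : ℝ | 0 ≤ N ∧ sInf (E '' AN N) = sInf (E '' A)} := by
    refine ⟨by linarith, le_antisymm ?_ (csInf_le_csInf hbd (hneN _ (by linarith))
      (image_mono (hsub _)))⟩
    apply le_of_forall_pos_le_add
    intro ε hε
    have hlt : sInf (E '' A) < sInf (E '' A) + min ε δ1 := by
      have := lt_min hε hδ1
      linarith
    obtain ⟨_, ⟨ψ, hψ, rfl⟩, hψE⟩ := exists_lt_of_csInf_lt hne hlt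
    obtain ⟨φ, hφ, hφ1, hφ2⟩ := hup ψ hψ (near _ (min_le_right _ _) ψ hψE)
    have h1 : sInf (E '' AN (N0 + 1/10)) ≤ E φ := csInf_le (hbdN _) ⟨φ, ⟨hφ.1, hφ.2, hφ1⟩, rfl⟩
    have h2 := min_le_left ε δ1
    linarith
  constructor
  · apply le_csInf ⟨_, hmem⟩
    rintro N ⟨hN, hNeq⟩
    have hlt : sInf (E '' AN N) < sInf (E '' A) + δ1 := by
      rw [hNeq]; linarith
    obtain ⟨_, ⟨ψ, hψ, rfl⟩, hψE⟩ := exists_lt_of_csInf_lt (hneN N hN) hlt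
    have h1 := hlow ψ ⟨hψ.1, hψ.2.1⟩ (near _ le_rfl ψ hψE)
    exact h1.trans hψ.2.2
  · exact csInf_le ⟨0, fun N hN => hN.1⟩ hmem

end Pool.Agent.Lib.TFW
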