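import Pool.Agent.Lib.MP_1526eb_mp.Basic

set_option autoImplicit false

open MeasureTheory Set Filter Topology

namespace Pool.Agent.Lib.TFW

/-- Standard basis vector. -/
noncomputable def ev (i : Fin 3) : X := EuclideanSpace.single i 1

lemma norm_ev (i : Fin 3) : ‖ev i‖ = 1 := by simp [ev]

lemma sum_ev (v : X) : v = ∑ i, (v i) • ev i := by
  ext j
  simp [ev, Pi.single_apply]

lemma coord_le (v : X) (i : Fin 3) : |v i| ≤ ‖v‖ := by
  have := EuclideanSpace.norm_eq v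
  rw [this]
  apply Real.abs_le_sqrt
  have h : v i ^ 2 = ‖v i‖ ^ 2 := by rw [Real.norm_eq_abs, sq_abs]
  rw [h]
  exact Finset.single_le_sum (f := fun j => ‖v j‖ ^ 2) (fun _ _ => sq_nonneg _)
    (Finset.mem_univ i)

lemma sum_coord_sq (v : X) : ∑ i, v i ^ 2 = ‖v‖ ^ 2 := by
  rw [EuclideanSpace.norm_sq_eq]
  simp

lemma hasFDerivAt_normsq (a y : X) :
    HasFDerivAt (fun y : X => ‖y - a‖ ^ 2) ((2 : ℝ) • (innerSL ℝ (y - a))) y := by
  have h := ((hasStrictFDerivAt_norm_sq (y - a)).hasFDerivAt).comp y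
    ((hasFDerivAt_id (𝕜 := ℝ) y).sub_const a)
  refine h.congr_fderiv ?_
  ext v
  simp

lemma hasFDerivAt_radial {f f' : ℝ → ℝ} (hf : ∀ s, 0 ≤ s → HasDerivAt f (f' s) s) (a y : X) :
    HasFDerivAt (fun y : X => f (‖y - a‖ ^ 2))
      ((2 * f' (‖y - a‖ ^ 2)) • (innerSL ℝ (y - a))) y := by
  have h := (hf (‖y - a‖ ^ 2) (sq_nonneg _)).comp_hasFDerivAt y (hasFDerivAt_normsq a y)
  refine h.congr_fderiv ?_
  rw [smul_smul]
  congr 1
  ring

lemma continuous_radial {f : ℝ → ℝ} (hf : ContinuousOn f (Ici 0)) (a : X) :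
    Continuous (fun y : X => f (‖y - a‖ ^ 2)) := by
  have h : Continuous (fun y : X => ‖y - a‖ ^ 2) := by fun_prop
  exact hf.comp_continuous h (fun y => mem_Ici.2 (sq_nonneg _))

lemma continuousOn_of_deriv {f f' : ℝ → ℝ} (hf : ∀ s, 0 ≤ s → HasDerivAt f (f' s) s) :
    ContinuousOn f (Ici 0) :=
  fun s hs => (hf s hs).continuousAt.continuousWithinAt

lemma hcs_sq {f : X → ℝ} (h : HasCompactSupport f) : HasCompactSupport (fun x => f x ^ 2) := by
  have : (fun x => f x ^ 2) = fun x => f x * f x := by ext x; ring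
  rw [this]
  exact h.mul_right

/-- Integration by parts against the radial field `f(‖y-a‖²) (y-a)`. -/
lemma ibp_radial {f f' : ℝ → ℝ} (hf : ∀ s, 0 ≤ s → HasDerivAt f (f' s) s)
    (hf' : ContinuousOn f' (Ici 0)) (a : X) {g : X → ℝ} (hg : ContDiff ℝ 1 g)
    (h1 : Integrable (fun y => g y * f (‖y - a‖ ^ 2)))
    (h2 : Integrable (fun y => g y * f' (‖y - a‖ ^ 2) * ‖y - a‖ ^ 2))
    (h3 : Integrable (fun y => ‖fderiv ℝ g y‖ * |f (‖y - a‖ ^ 2)| * ‖y - a‖))
    (h4 : Integrable (fun y => g y * f (‖y - a‖ ^ 2) * ‖y - a‖)) :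
    ∫ y, g y * (3 * f (‖y - a‖ ^ 2) + 2 * f' (‖y - a‖ ^ 2) * ‖y - a‖ ^ 2)
      = - ∫ y, fderiv ℝ g y (y - a) * f (‖y - a‖ ^ 2) := by
  have hgc := hg.continuous
  have hfc := continuous_radial (continuousOn_of_deriv hf) a
  have hf'c := continuous_radial hf' a
  have hdg : Continuous (fun y => fderiv ℝ g y) := hg.continuous_fderiv one_ne_zero
  -- component fields
  have hF : ∀ (i : Fin 3) (y : X), HasFDerivAt (fun y : X => f (‖y - a‖ ^ 2) * (y i - a i))
      (f (‖y - a‖ ^ 2) • (EuclideanSpace.proj i : X →L[ℝ] ℝ)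
        + (y i - a i) • ((2 * f' (‖y - a‖ ^ 2)) • (innerSL ℝ (y - a)))) y := by
    intro i y
    have hp : HasFDerivAt (fun y : X => y i - a i) (EuclideanSpace.proj i : X →L[ℝ] ℝ) y := by
      have := (EuclideanSpace.proj i : X →L[ℝ] ℝ).hasFDerivAt (x := y)
      exact this.sub_const (a i)
    exact (hasFDerivAt_radial hf a y).mul hp
  have hFv : ∀ (i : Fin 3) (y : X), (f (‖y - a‖ ^ 2) • (EuclideanSpace.proj i : X →L[ℝ] ℝ)
        + (y i - a i) • ((2 * f' (‖y - a‖ ^ 2)) • (innerSL ℝ (y - a)))) (ev i)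
      = f (‖y - a‖ ^ 2) + 2 * f' (‖y - a‖ ^ 2) * (y i - a i) ^ 2 := by
    intro i y
    simp [ev, EuclideanSpace.inner_single_right]
    ring
  have i1 : ∀ i : Fin 3, Integrable (fun y : X => g y *
      (f (‖y - a‖ ^ 2) + 2 * f' (‖y - a‖ ^ 2) * (y i - a i) ^ 2)) := by
    intro i
    have hpart : Integrable (fun y : X => 2 * (g y * f' (‖y - a‖ ^ 2) * (y i - a i) ^ 2)) := by
      refine (Integrable.mono h2 ?_ (Eventually.of_forall fun y => ?_)).const_mul 2
      · exact (((hgc.mul hf'c).mul (by fun_prop))).aestronglyMeasurable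
      · rw [norm_mul, norm_mul (g y * f' (‖y - a‖ ^ 2)) (‖y - a‖ ^ 2)]
        apply mul_le_mul_of_nonneg_left _ (norm_nonneg _)
        rw [Real.norm_eq_abs, Real.norm_eq_abs, abs_pow, abs_pow, abs_norm]
        have := coord_le (y - a) i
        simp only [PiLp.sub_apply] at this
        exact pow_le_pow_left₀ (abs_nonneg _) this 2
    refine (h1.add hpart).congr (Eventually.of_forall fun y => ?_)
    simp only [Pi.add_apply]
    ring
  have i2 : ∀ i : Fin 3, Integrable (fun y : X => fderiv ℝ g y (ev i) *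
      (f (‖y - a‖ ^ 2) * (y i - a i))) := by
    intro i
    refine Integrable.mono h3 ?_ (Eventually.of_forall fun y => ?_)
    · have : Continuous (fun y => fderiv ℝ g y (ev i)) := hdg.clm_apply continuous_const
      exact (this.mul (hfc.mul (by fun_prop))).aestronglyMeasurable
    · rw [norm_mul, norm_mul, norm_mul, norm_mul, norm_norm, norm_norm]
      have e1 : ‖fderiv ℝ g y (ev i)‖ ≤ ‖fderiv ℝ g y‖ := by
        have := (fderiv ℝ g y).le_opNorm (ev i)
        rwa [norm_ev, mul_one] at this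
      have e2 : ‖y i - a i‖ ≤ ‖y - a‖ := by
        have := coord_le (y - a) i
        simpa using this
      rw [mul_assoc, norm_abs_eq_norm]
      exact mul_le_mul e1 (mul_le_mul_of_nonneg_left e2 (norm_nonneg _))
        (by positivity) (norm_nonneg _)
  have i3 : ∀ i : Fin 3, Integrable (fun y : X => g y * (f (‖y - a‖ ^ 2) * (y i - a i))) := by
    intro i
    refine Integrable.mono h4 ?_ (Eventually.of_forall fun y => ?_)
    · exact (hgc.mul (hfc.mul (by fun_prop))).aestronglyMeasurable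
    · rw [← mul_assoc, norm_mul, norm_mul _ ‖y - a‖, norm_norm]
      apply mul_le_mul_of_nonneg_left _ (norm_nonneg _)
      have := coord_le (y - a) i
      simpa using this
  have key : ∀ i : Fin 3, ∫ y, g y * (f (‖y - a‖ ^ 2) + 2 * f' (‖y - a‖ ^ 2) * (y i - a i) ^ 2)
      = - ∫ y, fderiv ℝ g y (ev i) * (f (‖y - a‖ ^ 2) * (y i - a i)) := by
    intro i
    have := integral_bilinear_hasFDerivAt_right_eq_neg_left_of_integrable (μ := (volume : Measure X))
      (B := ContinuousLinearMap.mul ℝ ℝ) (f := g) (f' := fun y => fderiv ℝ g y)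
      (g := fun y : X => f (‖y - a‖ ^ 2) * (y i - a i))
      (g' := fun y => (f (‖y - a‖ ^ 2) • (EuclideanSpace.proj i : X →L[ℝ] ℝ)
        + (y i - a i) • ((2 * f' (‖y - a‖ ^ 2)) • (innerSL ℝ (y - a))))) (v := ev i)
      (by simpa only [ContinuousLinearMap.mul_apply'] using i2 i)
      (by simpa only [ContinuousLinearMap.mul_apply', hFv] using i1 i)
      (by simpa only [ContinuousLinearMap.mul_apply'] using i3 i)
      (fun y _ => (hg.differentiable (by norm_num) y).hasFDerivAt)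
      (fun y _ => hF i y)
    simpa only [ContinuousLinearMap.mul_apply', hFv] using this
  have s1 : ∫ y, g y * (3 * f (‖y - a‖ ^ 2) + 2 * f' (‖y - a‖ ^ 2) * ‖y - a‖ ^ 2)
      = ∑ i : Fin 3, ∫ y, g y * (f (‖y - a‖ ^ 2) + 2 * f' (‖y - a‖ ^ 2) * (y i - a i) ^ 2) := by
    rw [← integral_finsetSum _ (fun i _ => i1 i)]
    congr 1
    ext y
    have := sum_coord_sq (y - a)
    rw [← this]
    simp only [PiLp.sub_apply, Fin.sum_univ_three]
    ring
  have s2 : ∫ y, fderiv ℝ g y (y - a) * f (‖y - a‖ ^ 2)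
      = ∑ i : Fin 3, ∫ y, fderiv ℝ g y (ev i) * (f (‖y - a‖ ^ 2) * (y i - a i)) := by
    rw [← integral_finsetSum _ (fun i _ => i2 i)]
    congr 1
    ext y
    have hy : fderiv ℝ g y (y - a) = ∑ i, (y i - a i) * fderiv ℝ g y (ev i) := by
      conv_lhs => rw [sum_ev (y - a)]
      simp only [map_sum, map_smul, PiLp.sub_apply, smul_eq_mul]
    rw [hy]
    simp only [Fin.sum_univ_three]
    ring
  rw [s1, s2, ← Finset.sum_neg_distrib]
  exact Finset.sum_congr rfl fun i _ => key i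

/-- Compactly supported version. -/
lemma ibp_radial_cs {f f' : ℝ → ℝ} (hf : ∀ s, 0 ≤ s → HasDerivAt f (f' s) s)
    (hf' : ContinuousOn f' (Ici 0)) (a : X) {g : X → ℝ} (hg : ContDiff ℝ 1 g)
    (hgc : HasCompactSupport g) :
    ∫ y, g y * (3 * f (‖y - a‖ ^ 2) + 2 * f' (‖y - a‖ ^ 2) * ‖y - a‖ ^ 2)
      = - ∫ y, fderiv ℝ g y (y - a) * f (‖y - a‖ ^ 2) := by
  have hgcont := hg.continuous
  have hfc := continuous_radial (continuousOn_of_deriv hf) a
  have hf'c := continuous_radial hf' a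
  have hdg : Continuous (fun y => fderiv ℝ g y) := hg.continuous_fderiv one_ne_zero
  have hn : Continuous (fun y : X => ‖y - a‖) := by fun_prop
  apply ibp_radial hf hf' a hg
  · exact (hgcont.mul hfc).integrable_of_hasCompactSupport hgc.mul_right
  · exact ((hgcont.mul hf'c).mul (hn.pow 2)).integrable_of_hasCompactSupport
      (hgc.mul_right.mul_right)
  · refine ((hdg.norm.mul hfc.abs).mul hn).integrable_of_hasCompactSupport ?_
    exact ((hgc.fderiv (𝕜 := ℝ)).norm.mul_right).mul_right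
  · exact ((hgcont.mul hfc).mul hn).integrable_of_hasCompactSupport
      (hgc.mul_right.mul_right)

/-- Ground-state type lower bound: for a radial field `b = -β(|x-a|²)(x-a)`,
`∫ |∇ψ|² ≥ ∫ (-div b - |b|²) ψ²`. -/
lemma ground_state {β β' : ℝ → ℝ} (hβ : ∀ s, 0 ≤ s → HasDerivAt β (β' s) s)
    (hβ' : ContinuousOn β' (Ici 0)) (a : X) {ψ : X → ℝ} (hψ : ContDiff ℝ 1 ψ)
    (hψc : HasCompactSupport ψ) :
    ∫ x, (3 * β (‖x - a‖ ^ 2) + 2 * β' (‖x - a‖ ^ 2) * ‖x - a‖ ^ 2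
        - β (‖x - a‖ ^ 2) ^ 2 * ‖x - a‖ ^ 2) * ψ x ^ 2
      ≤ ∫ x, ‖fderiv ℝ ψ x‖ ^ 2 := by
  have hψcont := hψ.continuous
  have hβc := continuous_radial (continuousOn_of_deriv hβ) a
  have hβ'c := continuous_radial hβ' a
  have hdψ : Continuous (fun y => fderiv ℝ ψ y) := hψ.continuous_fderiv one_ne_zero
  have hn : Continuous (fun y : X => ‖y - a‖) := by fun_prop
  have hsq : ContDiff ℝ 1 (fun x => ψ x ^ 2) := hψ.pow 2
  have hsqc : HasCompactSupport (fun x => ψ x ^ 2) := hcs_sq hψc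
  have hsqd : ∀ x v, fderiv ℝ (fun x => ψ x ^ 2) x v = 2 * ψ x * fderiv ℝ ψ x v := by
    intro x v
    have h := ((hψ.differentiable (by norm_num) x).hasFDerivAt).pow 2
    rw [h.fderiv]
    simp
    try ring
  have hibp := ibp_radial_cs hβ hβ' a hsq hsqc
  simp only [hsqd] at hibp
  have c1 : Integrable (fun x => ψ x ^ 2 * (3 * β (‖x - a‖ ^ 2)
      + 2 * β' (‖x - a‖ ^ 2) * ‖x - a‖ ^ 2)) :=
    (hsq.continuous.mul ((continuous_const.mul hβc).add ((continuous_const.mul hβ'c).mul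
      (hn.pow 2)))).integrable_of_hasCompactSupport hsqc.mul_right
  have c2 : Integrable (fun x => ψ x ^ 2 * (β (‖x - a‖ ^ 2) ^ 2 * ‖x - a‖ ^ 2)) :=
    (hsq.continuous.mul ((hβc.pow 2).mul (hn.pow 2))).integrable_of_hasCompactSupport
      hsqc.mul_right
  have c3 : Integrable (fun x => ‖fderiv ℝ ψ x‖ ^ 2) := by
    exact (hdψ.norm.pow 2).integrable_of_hasCompactSupport
      (hcs_sq (hψc.fderiv (𝕜 := ℝ)).norm)
  have c4 : Integrable (fun x => 2 * ψ x * fderiv ℝ ψ x (x - a) * β (‖x - a‖ ^ 2)) := by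
    refine Continuous.integrable_of_hasCompactSupport ?_ ?_
    · exact (((continuous_const.mul hψcont).mul (hdψ.clm_apply (by fun_prop))).mul hβc)
    · exact ((hψc.mul_left (f := fun _ => (2:ℝ))).mul_right).mul_right
  have e1 : ∫ x, (3 * β (‖x - a‖ ^ 2) + 2 * β' (‖x - a‖ ^ 2) * ‖x - a‖ ^ 2
        - β (‖x - a‖ ^ 2) ^ 2 * ‖x - a‖ ^ 2) * ψ x ^ 2
      = (∫ x, ψ x ^ 2 * (3 * β (‖x - a‖ ^ 2) + 2 * β' (‖x - a‖ ^ 2) * ‖x - a‖ ^ 2))
        - ∫ x, ψ x ^ 2 * (β (‖x - a‖ ^ 2) ^ 2 * ‖x - a‖ ^ 2) := by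
    rw [← integral_sub c1 c2]
    congr 1
    ext x
    ring
  have c4' : Integrable (fun x => -(2 * ψ x * fderiv ℝ ψ x (x - a) * β (‖x - a‖ ^ 2))) := c4.neg
  rw [e1, hibp, ← integral_neg, ← integral_sub c4' c2]
  apply integral_mono (c4'.sub c2) c3
  intro x
  simp only [Pi.sub_apply]
  have h1 : |fderiv ℝ ψ x (x - a)| ≤ ‖fderiv ℝ ψ x‖ * ‖x - a‖ := (fderiv ℝ ψ x).le_opNorm _
  have h2 : -(2 * ψ x * fderiv ℝ ψ x (x - a) * β (‖x - a‖ ^ 2))
      ≤ 2 * (|ψ x * β (‖x - a‖ ^ 2)| * (‖fderiv ℝ ψ x‖ * ‖x - a‖)) := by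
    have : -(2 * ψ x * fderiv ℝ ψ x (x - a) * β (‖x - a‖ ^ 2))
        ≤ 2 * |ψ x * β (‖x - a‖ ^ 2) * fderiv ℝ ψ x (x - a)| := by
      have := neg_abs_le (ψ x * β (‖x - a‖ ^ 2) * fderiv ℝ ψ x (x - a))
      nlinarith
    rw [abs_mul] at this
    have h3 := mul_le_mul_of_nonneg_left h1 (abs_nonneg (ψ x * β (‖x - a‖ ^ 2)))
    linarith
  have h4 : (|ψ x * β (‖x - a‖ ^ 2)| * ‖x - a‖) ^ 2
      = ψ x ^ 2 * (β (‖x - a‖ ^ 2) ^ 2 * ‖x - a‖ ^ 2) := by
    rw [mul_pow, sq_abs]; ring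
  have h5 := sq_nonneg (‖fderiv ℝ ψ x‖ - |ψ x * β (‖x - a‖ ^ 2)| * ‖x - a‖)
  nlinarith

/-- Hardy's inequality. -/
lemma hardy_eps (a : X) {ψ : X → ℝ} (hψ : ContDiff ℝ 1 ψ) (hψc : HasCompactSupport ψ)
    {ε : ℝ} (hε : 0 < ε) :
    ∫ x, (ε + ‖x - a‖ ^ 2)⁻¹ * ψ x ^ 2 ≤ 4 * ∫ x, ‖fderiv ℝ ψ x‖ ^ 2 := by
  have hβ : ∀ s, 0 ≤ s → HasDerivAt (fun s : ℝ => (2 * (ε + s))⁻¹) (-(2 * ((ε + s) ^ 2))⁻¹) s := by
    intro s hs
    have h0 : 2 * (ε + s) ≠ 0 := by positivity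
    have h1 : HasDerivAt (fun s : ℝ => 2 * (ε + s)) 2 s := by
      simpa using ((hasDerivAt_id s).const_add ε).const_mul 2
    have := h1.inv h0
    refine this.congr_deriv ?_
    have : ε + s ≠ 0 := by positivity
    field_simp
  have hβ' : ContinuousOn (fun s : ℝ => -(2 * ((ε + s) ^ 2))⁻¹) (Ici 0) := by
    intro s hs
    have : 2 * (ε + s) ^ 2 ≠ 0 := by
      have : 0 ≤ s := hs
      positivity
    apply ContinuousAt.continuousWithinAt
    fun_prop (disch := assumption)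
  have h := ground_state hβ hβ' a hψ hψc
  have hcont : Continuous (fun x : X => (ε + ‖x - a‖ ^ 2)⁻¹) := by
    apply Continuous.inv₀ (by fun_prop)
    intro x
    positivity
  have hψ2 : HasCompactSupport (fun x => ψ x ^ 2) := hcs_sq hψc
  have i1 : Integrable (fun x => (ε + ‖x - a‖ ^ 2)⁻¹ * ψ x ^ 2) :=
    (hcont.mul (hψ.continuous.pow 2)).integrable_of_hasCompactSupport hψ2.mul_left
  have hle : 4⁻¹ * ∫ x, (ε + ‖x - a‖ ^ 2)⁻¹ * ψ x ^ 2 ≤ ∫ x, ‖fderiv ℝ ψ x‖ ^ 2 := by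
    refine le_trans ?_ h
    rw [← integral_const_mul]
    apply integral_mono (i1.const_mul _)
    · refine Continuous.integrable_of_hasCompactSupport ?_ hψ2.mul_left
      have c1 := continuous_radial (continuousOn_of_deriv hβ) a
      have c2 := continuous_radial hβ' a
      have c3 : Continuous (fun y : X => ‖y - a‖) := by fun_prop
      exact (((continuous_const.mul c1).add ((continuous_const.mul c2).mul (c3.pow 2))).sub
        ((c1.pow 2).mul (c3.pow 2))).mul (hψ.continuous.pow 2)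
    · intro x
      simp only
      rw [← mul_assoc]
      apply mul_le_mul_of_nonneg_right _ (sq_nonneg _)
      set s := ‖x - a‖ ^ 2 with hs
      have hs0 : 0 ≤ s := sq_nonneg _
      have hpos : 0 < ε + s := by positivity
      have : 3 * (2 * (ε + s))⁻¹ + 2 * -(2 * (ε + s) ^ 2)⁻¹ * s - (2 * (ε + s))⁻¹ ^ 2 * s
          - 4⁻¹ * (ε + s)⁻¹ = (5 * ε) / (4 * (ε + s) ^ 2) := by
        field_simp
        ring
      have h2 : 0 ≤ (5 * ε) / (4 * (ε + s) ^ 2) := by positivity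
      linarith
  linarith

end Pool.Agent.Lib.TFW
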