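import Pool.Agent.Lib.MP_1526eb_mp.Positivity
import Pool.Agent.Lib.MP_1526eb_mp.IBP

set_option autoImplicit false

open MeasureTheory Set Filter Topology

namespace Pool.Agent.Lib.TFW

lemma integrable_mul_q {f : X → ℝ} (hf : BI f) (a : X) :
    Integrable (fun y : X => q (y - a) * f y) := by
  obtain ⟨C, hC⟩ := hf.bdd
  have hC0 : 0 ≤ C := (abs_nonneg _).trans (hC 0)
  refine Integrable.mono' ((((integrable_q_ball 1).comp_sub_right a).const_mul C).add hf.int.abs)
    ?_ (Eventually.of_forall fun y => ?_)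
  · exact ((measurable_q.comp (measurable_id.sub_const a)).mul hf.cont.measurable).aestronglyMeasurable
  · rw [Real.norm_eq_abs, abs_mul, abs_of_nonneg (q_nonneg _)]
    simp only [Pi.add_apply]
    by_cases hy : y - a ∈ Metric.ball (0:X) 1
    · rw [indicator_of_mem hy]
      have := mul_le_mul_of_nonneg_left (hC y) (q_nonneg (y - a))
      have h2 := abs_nonneg (f y)
      linarith
    · rw [indicator_of_notMem hy, mul_zero, zero_add]
      rw [mem_ball_zero_iff, not_lt] at hy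
      have : q (y - a) ≤ 1 := by
        unfold q
        exact inv_le_one_of_one_le₀ (by nlinarith)
      have := mul_le_mul_of_nonneg_right this (abs_nonneg (f y))
      linarith

/-- Hardy's inequality in dimension three. -/
lemma hardy (a : X) {ψ : X → ℝ} (hψ : ContDiff ℝ 1 ψ) (hψc : HasCompactSupport ψ) :
    ∫ x, q (x - a) * ψ x ^ 2 ≤ 4 * ∫ x, ‖fderiv ℝ ψ x‖ ^ 2 := by
  have hB : BI (fun x => ψ x ^ 2) := BI.of_compactSupport (hψ.continuous.pow 2) (hcs_sq hψc)
  have hlim : Tendsto (fun n : ℕ => ∫ x, ((1 / ((n : ℝ) + 1)) + ‖x - a‖ ^ 2)⁻¹ * ψ x ^ 2)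
      atTop (𝓝 (∫ x, q (x - a) * ψ x ^ 2)) := by
    apply tendsto_integral_of_dominated_convergence (fun x => q (x - a) * ψ x ^ 2)
    · intro n
      apply Continuous.aestronglyMeasurable
      have : Continuous (fun x : X => ((1 / ((n : ℝ) + 1)) + ‖x - a‖ ^ 2)⁻¹) := by
        apply Continuous.inv₀ (by fun_prop)
        intro x
        positivity
      exact this.mul (hψ.continuous.pow 2)
    · exact integrable_mul_q hB a
    · intro n
      have hne : ∀ᵐ x : X, x ≠ a := by simp [ae_iff]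
      filter_upwards [hne] with x hx
      have h1 : 0 < ‖x - a‖ := norm_pos_iff.2 (sub_ne_zero.2 hx)
      rw [Real.norm_eq_abs, abs_of_nonneg (by positivity)]
      apply mul_le_mul_of_nonneg_right _ (sq_nonneg _)
      unfold q
      apply inv_anti₀ (by positivity)
      have : (0:ℝ) ≤ 1 / ((n : ℝ) + 1) := by positivity
      linarith
    · have hne : ∀ᵐ x : X, x ≠ a := by simp [ae_iff]
      filter_upwards [hne] with x hx
      have h1 : 0 < ‖x - a‖ := norm_pos_iff.2 (sub_ne_zero.2 hx)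
      apply Tendsto.mul_const
      unfold q
      apply Tendsto.inv₀ _ (by positivity)
      have := (tendsto_one_div_add_atTop_nhds_zero_nat (𝕜 := ℝ)).add_const (‖x - a‖ ^ 2)
      simpa using this
  refine le_of_tendsto' hlim fun n => ?_
  exact hardy_eps a hψ hψc (by positivity)

lemma inv_norm_diff {u v : X} (hu : u ≠ 0) (hv : v ≠ 0) :
    |‖u‖⁻¹ - ‖v‖⁻¹| ≤ ‖u - v‖ * (2⁻¹ * (q u + q v)) := by
  have h1 : 0 < ‖u‖ := norm_pos_iff.2 hu
  have h2 : 0 < ‖v‖ := norm_pos_iff.2 hv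
  have h3 : |‖u‖⁻¹ - ‖v‖⁻¹| = |‖v‖ - ‖u‖| * (‖u‖⁻¹ * ‖v‖⁻¹) := by
    have : ‖u‖⁻¹ - ‖v‖⁻¹ = (‖v‖ - ‖u‖) * (‖u‖⁻¹ * ‖v‖⁻¹) := by
      field_simp
    rw [this, abs_mul, abs_of_pos (by positivity : 0 < ‖u‖⁻¹ * ‖v‖⁻¹)]
  rw [h3]
  apply mul_le_mul _ _ (by positivity) (norm_nonneg _)
  · rw [abs_sub_comm]
    exact abs_norm_sub_norm_le u v
  · unfold q
    have h4 := sq_nonneg (‖u‖⁻¹ - ‖v‖⁻¹)
    rw [← inv_pow, ← inv_pow]
    nlinarith

/-- Potentials of `ψ²` are Lipschitz by Hardy's inequality. -/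
lemma U_lipschitz {ψ : X → ℝ} (hψ : ContDiff ℝ 1 ψ) (hψc : HasCompactSupport ψ) (a b : X) :
    |U (fun y => ψ y ^ 2) a - U (fun y => ψ y ^ 2) b|
      ≤ 4 * ‖a - b‖ * ∫ x, ‖fderiv ℝ ψ x‖ ^ 2 := by
  have hB : BI (fun x => ψ x ^ 2) := BI.of_compactSupport (hψ.continuous.pow 2) (hcs_sq hψc)
  unfold U
  rw [← integral_sub (integrable_div_norm hB a) (integrable_div_norm hB b)]
  have hint : Integrable (fun y => ‖a - b‖ * (2⁻¹ * (q (y - a) * ψ y ^ 2 + q (y - b) * ψ y ^ 2))) :=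
    (((integrable_mul_q hB a).add (integrable_mul_q hB b)).const_mul _).const_mul _
  calc |∫ y, (ψ y ^ 2 / ‖a - y‖ - ψ y ^ 2 / ‖b - y‖)|
      ≤ ∫ y, |ψ y ^ 2 / ‖a - y‖ - ψ y ^ 2 / ‖b - y‖| := abs_integral_le_integral_abs
    _ ≤ ∫ y, ‖a - b‖ * (2⁻¹ * (q (y - a) * ψ y ^ 2 + q (y - b) * ψ y ^ 2)) := by
        apply integral_mono_ae
          ((integrable_div_norm hB a).sub (integrable_div_norm hB b)).abs hint
        have hne : ∀ᵐ x : X, x ≠ a := by simp [ae_iff]
        have hne' : ∀ᵐ x : X, x ≠ b := by simp [ae_iff]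
        filter_upwards [hne, hne'] with y hya hyb
        have h1 := inv_norm_diff (sub_ne_zero.2 hya.symm) (sub_ne_zero.2 hyb.symm)
        have h2 : ψ y ^ 2 / ‖a - y‖ - ψ y ^ 2 / ‖b - y‖ = ψ y ^ 2 * (‖a - y‖⁻¹ - ‖b - y‖⁻¹) := by
          ring
        simp only [Pi.sub_apply]
        rw [h2, abs_mul, abs_of_nonneg (sq_nonneg _)]
        have h3 := mul_le_mul_of_nonneg_left h1 (sq_nonneg (ψ y))
        have h4 : q (a - y) = q (y - a) := by unfold q; rw [norm_sub_rev]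
        have h5 : q (b - y) = q (y - b) := by unfold q; rw [norm_sub_rev]
        have h6 : (a - y) - (b - y) = a - b := by abel
        rw [h4, h5, h6] at h3
        linarith
    _ ≤ 4 * ‖a - b‖ * ∫ x, ‖fderiv ℝ ψ x‖ ^ 2 := by
        rw [integral_const_mul, integral_const_mul,
          integral_add (integrable_mul_q hB a) (integrable_mul_q hB b)]
        have h1 := hardy a hψ hψc
        have h2 := hardy b hψ hψc
        have h3 : 2⁻¹ * ((∫ x, q (x - a) * ψ x ^ 2) + ∫ x, q (x - b) * ψ x ^ 2)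
            ≤ 4 * ∫ x, ‖fderiv ℝ ψ x‖ ^ 2 := by linarith
        have h4 := mul_le_mul_of_nonneg_left h3 (norm_nonneg (a - b))
        linarith

end Pool.Agent.Lib.TFW
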