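import Pool.Agent.Lib.MP_1526eb_mp.Plummer
import Pool.Agent.Lib.MP_1526eb_mp.Hardy

set_option autoImplicit false

open MeasureTheory Set Filter Topology

namespace Pool.Agent.Lib.TFW

/-- Lower bound for the kinetic energy by `φ₀`. -/
lemma kin_ge {ψ : X → ℝ} (hψ : ContDiff ℝ 1 ψ) (hψc : HasCompactSupport ψ) :
    ∫ x, F0 (‖x‖ ^ 2) * ψ x ^ 2 ≤ ∫ x, ‖fderiv ℝ ψ x‖ ^ 2 := by
  have h := ground_state (fun s hs => hasDerivAt_be hs) continuousOn_be1 (0 : X) hψ hψc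
  simp only [sub_zero] at h
  simpa only [F0_eq (sq_nonneg _)] using h

lemma hasDerivAt_P {s : ℝ} (hs : 0 ≤ s) :
    HasDerivAt (fun s => Real.sqrt Lam * (uu s ^ 2 * Real.exp (-2 / uu s)))
      (-(1/2) * be s * (Real.sqrt Lam * (uu s ^ 2 * Real.exp (-2 / uu s)))) s := by
  have p := uu_pos hs
  have h1 := hasDerivAt_uu_pow 1 hs
  have h2 : HasDerivAt (fun s => -2 / uu s) (-2 * (-(-(1/4) * uu s ^ 5) / uu s ^ 2)) s := by
    have := ((hasDerivAt_uu hs).inv p.ne').const_mul (-2)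
    refine this.congr_of_eventuallyEq (Eventually.of_forall fun t => ?_)
    simp only [Pi.inv_apply]
    ring
  have h3 := (h1.mul h2.exp).const_mul (Real.sqrt Lam)
  refine h3.congr_deriv ?_
  unfold be
  have : uu s ≠ 0 := p.ne'
  field_simp
  push_cast
  ring

lemma hasFDerivAt_psi0 (x : X) :
    HasFDerivAt psi0 ((-(be (‖x‖ ^ 2) * psi0 x)) • (innerSL ℝ x)) x := by
  have h := hasFDerivAt_radial (fun s hs => hasDerivAt_P hs) (0 : X) x
  simp only [sub_zero] at h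
  refine h.congr_fderiv ?_
  congr 1
  unfold psi0
  ring

lemma continuous_psi0 : Continuous psi0 :=
  continuous_iff_continuousAt.2 fun x => (hasFDerivAt_psi0 x).continuousAt

lemma continuous_be : Continuous (fun x : X => be (‖x‖ ^ 2)) := by
  have := continuous_radial (continuousOn_of_deriv fun s hs => hasDerivAt_be hs) (0 : X)
  simpa using this

lemma contDiff_psi0 : ContDiff ℝ 1 psi0 := by
  rw [contDiff_one_iff_fderiv]
  refine ⟨fun y => (hasFDerivAt_psi0 y).differentiableAt, ?_⟩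
  have : (fderiv ℝ psi0) = fun x => (-(be (‖x‖ ^ 2) * psi0 x)) • (innerSL ℝ x) := by
    ext1 y
    exact (hasFDerivAt_psi0 y).fderiv
  rw [this]
  exact (continuous_be.mul continuous_psi0).neg.smul (innerSL ℝ).continuous

/-- Riesz representative. -/
noncomputable def rz (l : X →L[ℝ] ℝ) : X := (InnerProductSpace.toDual ℝ X).symm l

lemma norm_rz (l : X →L[ℝ] ℝ) : ‖rz l‖ = ‖l‖ := by
  unfold rz
  exact LinearIsometryEquiv.norm_map _ _

lemma inner_rz (l : X →L[ℝ] ℝ) (v : X) : inner ℝ (rz l) v = l v := by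
  unfold rz
  simp

lemma rz_add (l m : X →L[ℝ] ℝ) : rz (l + m) = rz l + rz m := by
  unfold rz
  exact map_add _ _ _

lemma rz_smul (c : ℝ) (l : X →L[ℝ] ℝ) : rz (c • l) = c • rz l := by
  unfold rz
  simp

lemma rz_inner (v : X) : rz (innerSL ℝ v) = v := by
  apply ext_inner_right ℝ
  intro w
  rw [inner_rz]
  simp

lemma norm_sq_comb (a b : ℝ) (l m : X →L[ℝ] ℝ) :
    ‖a • l + b • m‖ ^ 2 = a ^ 2 * ‖l‖ ^ 2 + 2 * a * b * inner ℝ (rz l) (rz m) + b ^ 2 * ‖m‖ ^ 2 := by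
  rw [← norm_rz (a • l + b • m), rz_add, rz_smul, rz_smul, norm_add_sq_real, norm_smul, norm_smul,
    real_inner_smul_left, real_inner_smul_right, norm_rz, norm_rz, mul_pow, mul_pow,
    Real.norm_eq_abs, Real.norm_eq_abs, sq_abs, sq_abs]
  ring

/-- Exact kinetic identity for `χ ψ₀`. -/
lemma kin_trial {χ : X → ℝ} (hχ : ContDiff ℝ 1 χ) (hχc : HasCompactSupport χ) :
    ∫ x, ‖fderiv ℝ (fun x => χ x * psi0 x) x‖ ^ 2
      = (∫ x, F0 (‖x‖ ^ 2) * (χ x * psi0 x) ^ 2) + ∫ x, rho0 x * ‖fderiv ℝ χ x‖ ^ 2 := by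
  set ψ : X → ℝ := fun x => χ x * psi0 x with hψdef
  have hψ : ContDiff ℝ 1 ψ := hχ.mul contDiff_psi0
  have hψc : HasCompactSupport ψ := hχc.mul_right
  have hdχ : ∀ x, HasFDerivAt χ (fderiv ℝ χ x) x :=
    fun x => (hχ.differentiable (by norm_num) x).hasFDerivAt
  have hfd : ∀ x, fderiv ℝ ψ x
      = psi0 x • fderiv ℝ χ x + (-(χ x * be (‖x‖ ^ 2) * psi0 x)) • innerSL ℝ x := by
    intro x
    have h : HasFDerivAt ψ _ x := (hdχ x).mul (hasFDerivAt_psi0 x)
    rw [h.fderiv, smul_smul, add_comm]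
    congr 2
    ring
  have hsq : ContDiff ℝ 1 (fun x => ψ x ^ 2) := hψ.pow 2
  have hsqc : HasCompactSupport (fun x => ψ x ^ 2) := hcs_sq hψc
  have hsqd : ∀ x v, fderiv ℝ (fun x => ψ x ^ 2) x v = 2 * ψ x * fderiv ℝ ψ x v := by
    intro x v
    have h := ((hψ.differentiable (by norm_num) x).hasFDerivAt).pow 2
    rw [h.fderiv]
    simp
  have hibp := ibp_radial_cs (fun s hs => hasDerivAt_be hs) continuousOn_be1 (0 : X) hsq hsqc
  simp only [hsqd, sub_zero] at hibp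
  have cb := continuous_be
  have cb1 : Continuous (fun x : X => be1 (‖x‖ ^ 2)) := by
    have := continuous_radial continuousOn_be1 (0 : X)
    simpa using this
  have cn : Continuous (fun x : X => ‖x‖ ^ 2) := by fun_prop
  have hdψ : Continuous (fun y => fderiv ℝ ψ y) := hψ.continuous_fderiv one_ne_zero
  have hdχc : Continuous (fun y => fderiv ℝ χ y) := hχ.continuous_fderiv one_ne_zero
  have c1 : Integrable (fun x => F0 (‖x‖ ^ 2) * ψ x ^ 2) := by
    have : Continuous (fun x : X => F0 (‖x‖ ^ 2)) := rad_F0.contDiff.continuous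
    exact (this.mul hsq.continuous).integrable_of_hasCompactSupport hsqc.mul_left
  have c2 : Integrable (fun x => rho0 x * ‖fderiv ℝ χ x‖ ^ 2) :=
    (continuous_rho0.mul (hdχc.norm.pow 2)).integrable_of_hasCompactSupport
      (hcs_sq (hχc.fderiv (𝕜 := ℝ)).norm).mul_left
  have c3 : Integrable (fun x => 2 * ψ x * fderiv ℝ ψ x x * be (‖x‖ ^ 2)) := by
    refine Continuous.integrable_of_hasCompactSupport ?_ ?_
    · exact (((continuous_const.mul hψ.continuous).mul (hdψ.clm_apply continuous_id)).mul cb)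
    · exact ((hψc.mul_left (f := fun _ => (2:ℝ))).mul_right).mul_right
  have c4 : Integrable (fun x => ψ x ^ 2 * (be (‖x‖ ^ 2) ^ 2 * ‖x‖ ^ 2)) :=
    (hsq.continuous.mul ((cb.pow 2).mul cn)).integrable_of_hasCompactSupport hsqc.mul_right
  have c5 : Integrable (fun x => ψ x ^ 2 * (3 * be (‖x‖ ^ 2) + 2 * be1 (‖x‖ ^ 2) * ‖x‖ ^ 2)) :=
    (hsq.continuous.mul ((continuous_const.mul cb).add ((continuous_const.mul cb1).mul
      cn))).integrable_of_hasCompactSupport hsqc.mul_right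
  have pw : ∀ x, ‖fderiv ℝ ψ x‖ ^ 2 = -(2 * ψ x * fderiv ℝ ψ x x * be (‖x‖ ^ 2))
      - ψ x ^ 2 * (be (‖x‖ ^ 2) ^ 2 * ‖x‖ ^ 2) + rho0 x * ‖fderiv ℝ χ x‖ ^ 2 := by
    intro x
    have e1 : fderiv ℝ ψ x x = psi0 x * fderiv ℝ χ x x
        - χ x * be (‖x‖ ^ 2) * psi0 x * ‖x‖ ^ 2 := by
      rw [hfd x]
      simp only [_root_.add_apply, FunLike.coe_smul, Pi.smul_apply, smul_eq_mul,
        innerSL_apply_apply, real_inner_self_eq_norm_sq]
      ring
    rw [e1, hfd x, norm_sq_comb, rz_inner, inner_rz, innerSL_apply_norm, ← psi0_sq]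
    simp only [hψdef]
    ring
  have e2 : ∫ x, ‖fderiv ℝ ψ x‖ ^ 2 = (∫ x, -(2 * ψ x * fderiv ℝ ψ x x * be (‖x‖ ^ 2)))
      - (∫ x, ψ x ^ 2 * (be (‖x‖ ^ 2) ^ 2 * ‖x‖ ^ 2)) + ∫ x, rho0 x * ‖fderiv ℝ χ x‖ ^ 2 := by
    have c3' : Integrable (fun x => -(2 * ψ x * fderiv ℝ ψ x x * be (‖x‖ ^ 2))) := c3.neg
    have c34 : Integrable (fun x => -(2 * ψ x * fderiv ℝ ψ x x * be (‖x‖ ^ 2))
        - ψ x ^ 2 * (be (‖x‖ ^ 2) ^ 2 * ‖x‖ ^ 2)) := c3'.sub c4
    rw [← integral_sub c3' c4, ← integral_add c34 c2]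
    congr 1
    ext x
    exact pw x
  rw [e2, integral_neg, ← hibp, ← integral_sub c5 c4]
  congr 1
  congr 1
  ext x
  rw [← F0_eq (sq_nonneg ‖x‖)]
  ring

/-- IMS pointwise identity. -/
lemma ims_pointwise {ψ θ : X → ℝ} (hψ : ContDiff ℝ 1 ψ) (hθ : ContDiff ℝ 1 θ) (x : X) :
    ‖fderiv ℝ (fun x => Real.cos (θ x) * ψ x) x‖ ^ 2
      + ‖fderiv ℝ (fun x => Real.sin (θ x) * ψ x) x‖ ^ 2
      = ‖fderiv ℝ ψ x‖ ^ 2 + ψ x ^ 2 * ‖fderiv ℝ θ x‖ ^ 2 := by
  have h1 := (hψ.differentiable (by norm_num) x).hasFDerivAt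
  have h2 := (hθ.differentiable (by norm_num) x).hasFDerivAt
  have h3 : HasFDerivAt (fun x => Real.cos (θ x) * ψ x) _ x := h2.cos.mul h1
  have h4 : HasFDerivAt (fun x => Real.sin (θ x) * ψ x) _ x := h2.sin.mul h1
  have e3 : fderiv ℝ (fun x => Real.cos (θ x) * ψ x) x = Real.cos (θ x) • fderiv ℝ ψ x
      + (-(ψ x * Real.sin (θ x))) • fderiv ℝ θ x := by
    rw [h3.fderiv, smul_smul]
    congr 2
    ring
  have e4 : fderiv ℝ (fun x => Real.sin (θ x) * ψ x) x = Real.sin (θ x) • fderiv ℝ ψ x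
      + (ψ x * Real.cos (θ x)) • fderiv ℝ θ x := by
    rw [h4.fderiv, smul_smul]
  rw [e3, e4, norm_sq_comb, norm_sq_comb]
  have h5 := Real.sin_sq_add_cos_sq (θ x)
  linear_combination (‖fderiv ℝ ψ x‖ ^ 2 + ψ x ^ 2 * ‖fderiv ℝ θ x‖ ^ 2) * h5

/-- Angle cutoff: `0` for `|x| ≤ L`, `π/2` for `|x| ≥ 2L`. -/
noncomputable def th (L : ℝ) (x : X) : ℝ :=
  (Real.pi / 2) * Real.smoothTransition ((‖x‖ ^ 2 / L ^ 2 - 1) / 3)

lemma contDiff_th (L : ℝ) : ContDiff ℝ 1 (th L) := by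
  unfold th
  have h1 : ContDiff ℝ 1 (fun x : X => (‖x‖ ^ 2 / L ^ 2 - 1) / 3) := by
    have : ContDiff ℝ 1 (fun x : X => ‖x‖ ^ 2) := contDiff_norm_sq ℝ
    exact ((this.div_const _).sub contDiff_const).div_const _
  exact contDiff_const.mul (Real.smoothTransition.contDiff.comp h1)

lemma th_zero {L : ℝ} (hL : 0 < L) {x : X} (hx : ‖x‖ ≤ L) : th L x = 0 := by
  unfold th
  rw [Real.smoothTransition.zero_of_nonpos, mul_zero]
  have : ‖x‖ ^ 2 / L ^ 2 ≤ 1 := by
    rw [div_le_one (by positivity)]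
    exact pow_le_pow_left₀ (norm_nonneg _) hx 2
  linarith

lemma th_top {L : ℝ} (hL : 0 < L) {x : X} (hx : 2 * L ≤ ‖x‖) : th L x = Real.pi / 2 := by
  unfold th
  rw [Real.smoothTransition.one_of_one_le, mul_one]
  have : 4 ≤ ‖x‖ ^ 2 / L ^ 2 := by
    rw [le_div_iff₀ (by positivity)]
    nlinarith
  linarith

lemma th_nonneg (L : ℝ) (x : X) : 0 ≤ th L x := by
  unfold th
  have := Real.smoothTransition.nonneg ((‖x‖ ^ 2 / L ^ 2 - 1) / 3)
  have := Real.pi_pos
  positivity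

lemma th_le (L : ℝ) (x : X) : th L x ≤ Real.pi / 2 := by
  unfold th
  have := Real.smoothTransition.le_one ((‖x‖ ^ 2 / L ^ 2 - 1) / 3)
  have := Real.pi_pos
  nlinarith

lemma fderiv_th_inner {L : ℝ} (hL : 0 < L) {x : X} (hx : ‖x‖ ≤ L) : fderiv ℝ (th L) x = 0 := by
  apply IsLocalMin.fderiv_eq_zero
  refine Eventually.of_forall fun y => ?_
  rw [th_zero hL hx]
  exact th_nonneg L y

lemma fderiv_th_outer {L : ℝ} (hL : 0 < L) {x : X} (hx : 2 * L ≤ ‖x‖) :
    fderiv ℝ (th L) x = 0 := by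
  apply IsLocalMax.fderiv_eq_zero
  refine Eventually.of_forall fun y => ?_
  rw [th_top hL hx]
  exact th_le L y

lemma exists_bound_st : ∃ C : ℝ, 0 ≤ C ∧ ∀ s, |deriv Real.smoothTransition s| ≤ C := by
  have hc : Continuous (deriv Real.smoothTransition) :=
    (Real.smoothTransition.contDiff (n := 1)).continuous_deriv le_rfl
  obtain ⟨C, hC⟩ := (isCompact_Icc (a := (0:ℝ)) (b := 1)).exists_bound_of_continuousOn
    hc.continuousOn
  have hC0 : 0 ≤ C := (norm_nonneg _).trans (hC 0 (by simp))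
  refine ⟨C, hC0, fun s => ?_⟩
  by_cases h0 : s < 0
  · have : deriv Real.smoothTransition s = 0 := by
      apply IsLocalMin.deriv_eq_zero
      refine Eventually.of_forall fun y => ?_
      rw [Real.smoothTransition.zero_of_nonpos h0.le]
      exact Real.smoothTransition.nonneg y
    rw [this]; simpa using hC0
  · by_cases h1 : 1 < s
    · have : deriv Real.smoothTransition s = 0 := by
        apply IsLocalMax.deriv_eq_zero
        refine Eventually.of_forall fun y => ?_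
        rw [Real.smoothTransition.one_of_one_le h1.le]
        exact Real.smoothTransition.le_one y
      rw [this]; simpa using hC0
    · push Not at h0 h1
      exact hC s ⟨h0, h1⟩

lemma exists_bound_th : ∃ C : ℝ, 0 < C ∧ ∀ L : ℝ, 0 < L → ∀ x : X,
    ‖fderiv ℝ (th L) x‖ ^ 2 ≤ C / L ^ 2 := by
  obtain ⟨C, hC0, hC⟩ := exists_bound_st
  refine ⟨((Real.pi / 2) * C * (4/3)) ^ 2 + 1, by positivity, fun L hL x => ?_⟩
  by_cases hx : 2 * L ≤ ‖x‖
  · rw [fderiv_th_outer hL hx, norm_zero, zero_pow two_ne_zero]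
    positivity
  · push Not at hx
    have h1 : HasFDerivAt (fun x : X => (‖x‖ ^ 2 / L ^ 2 - 1) / 3)
        ((2 / (3 * L ^ 2)) • innerSL ℝ x) x := by
      have h0 := hasFDerivAt_normsq (0 : X) x
      simp only [sub_zero] at h0
      have h2 : (fun x : X => (‖x‖ ^ 2 / L ^ 2 - 1) / 3)
          = fun x : X => (1 / (3 * L ^ 2)) * ‖x‖ ^ 2 - 1/3 := by
        ext y
        field_simp
      rw [h2]
      refine ((h0.const_mul (1 / (3 * L ^ 2))).sub_const _).congr_fderiv ?_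
      rw [smul_smul]
      congr 1
      ring
    have h2 : HasDerivAt Real.smoothTransition
        (deriv Real.smoothTransition ((‖x‖ ^ 2 / L ^ 2 - 1) / 3)) ((‖x‖ ^ 2 / L ^ 2 - 1) / 3) :=
      ((Real.smoothTransition.contDiff (n := 1)).differentiable (by norm_num) _).hasDerivAt
    have h3 := (h2.comp_hasFDerivAt x h1).const_mul (Real.pi / 2)
    have h4 : HasFDerivAt (th L) _ x := h3
    rw [h4.fderiv, norm_smul, norm_smul, norm_smul, innerSL_apply_norm]
    simp only [Real.norm_eq_abs]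
    rw [abs_of_pos (by have := Real.pi_pos; positivity : 0 < Real.pi / 2),
      abs_of_pos (by positivity : 0 < 2 / (3 * L ^ 2))]
    have h5 := hC ((‖x‖ ^ 2 / L ^ 2 - 1) / 3)
    have h6 : 2 / (3 * L ^ 2) * ‖x‖ ≤ (4/3) / L := by
      rw [div_mul_eq_mul_div, div_le_div_iff₀ (by positivity) hL]
      nlinarith
    have h7 : Real.pi / 2 * (|deriv Real.smoothTransition ((‖x‖ ^ 2 / L ^ 2 - 1) / 3)| *
        (2 / (3 * L ^ 2) * ‖x‖)) ≤ (Real.pi / 2 * C * (4/3)) / L := by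
      have := mul_le_mul h5 h6 (by positivity) hC0
      have h8 := mul_le_mul_of_nonneg_left this (by have := Real.pi_pos; positivity :
        0 ≤ Real.pi / 2)
      calc _ ≤ Real.pi / 2 * (C * (4 / 3 / L)) := h8
        _ = _ := by ring
    have h9 := pow_le_pow_left₀ (by have := Real.pi_pos; positivity) h7 2
    refine h9.trans ?_
    rw [div_pow]
    apply div_le_div_of_nonneg_right _ (by positivity)
    linarith

end Pool.Agent.Lib.TFW
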