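import Pool.Agent.Lib.MP_1526eb_mp.Trunc

set_option autoImplicit false

open MeasureTheory Set Filter Topology

namespace Pool.Agent.Lib.TFW

/-- Plummer profile. -/
noncomputable def pl (t s : ℝ) : ℝ := t * kk (t ^ 2) s

lemma pl_pos {t s : ℝ} (ht : 0 < t) (hs : 0 ≤ s) : 0 < pl t s :=
  mul_pos ht (kk_pos (by positivity) hs)

lemma pl_le_one {t s : ℝ} (ht : 0 < t) (hs : 0 ≤ s) : pl t s ≤ 1 := plummer_le_one ht hs

lemma pl_sq {t s : ℝ} (ht : 0 < t) (hs : 0 ≤ s) : pl t s ^ 2 = t ^ 2 / (t ^ 2 + s) := by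
  have h := kk_sq (by positivity : 0 < t ^ 2) hs
  have hp : 0 < t ^ 2 + s := by positivity
  unfold pl
  rw [eq_div_iff hp.ne', mul_pow]
  linear_combination (t ^ 2) * h

lemma pl_anti {t s s' : ℝ} (ht : 0 < t) (hs : 0 ≤ s) (h : s ≤ s') : pl t s' ≤ pl t s := by
  apply le_of_sq_le_sq _ (pl_pos ht hs).le
  rw [pl_sq ht hs, pl_sq ht (hs.trans h)]
  exact div_le_div_of_nonneg_left (by positivity) (by positivity) (by linarith)

lemma pl_mono {t t' s : ℝ} (ht : 0 < t) (h : t ≤ t') (hs : 0 ≤ s) : pl t s ≤ pl t' s := by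
  have ht' : 0 < t' := ht.trans_le h
  apply le_of_sq_le_sq _ (pl_pos ht' hs).le
  rw [pl_sq ht hs, pl_sq ht' hs, div_le_div_iff₀ (by positivity) (by positivity)]
  have : t ^ 2 ≤ t' ^ 2 := pow_le_pow_left₀ ht.le h 2
  nlinarith

lemma pl_half {t1 t2 s : ℝ} (h1 : 0 < t1) (h2 : 4 * t1 ≤ t2) (hs : (2 * t1) ^ 2 ≤ s) :
    pl t1 s ≤ (1/2) * pl t2 s := by
  have ht2 : 0 < t2 := by linarith
  have hs0 : 0 ≤ s := (sq_nonneg _).trans hs
  have hp := pl_pos ht2 hs0
  apply le_of_sq_le_sq _ (by positivity)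
  rw [mul_pow, pl_sq h1 hs0, pl_sq ht2 hs0, ← mul_div_assoc,
    div_le_div_iff₀ (by positivity) (by positivity)]
  have a1 : (4 * t1) ^ 2 ≤ t2 ^ 2 := pow_le_pow_left₀ (by positivity) h2 2
  have a2 : (4 * t1) ^ 2 * s ≤ t2 ^ 2 * s := mul_le_mul_of_nonneg_right a1 hs0
  have a3 : (2 * t1) ^ 2 * t2 ^ 2 ≤ s * t2 ^ 2 := mul_le_mul_of_nonneg_right hs (by positivity)
  nlinarith

lemma continuous_pl {t : ℝ} (ht : 0 < t) : Continuous (fun x : X => pl t (‖x‖ ^ 2)) := by
  have := continuous_kk (by positivity : 0 < t ^ 2) (0 : X)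
  simp only [sub_zero] at this
  exact continuous_const.mul this

lemma integrable_mul_pl {f : X → ℝ} (hf : BI f) {t : ℝ} (ht : 0 < t) :
    Integrable (fun x => f x * pl t (‖x‖ ^ 2)) := by
  have h := hf.bdd_mul (continuous_pl ht) (C := 1) (fun x => by
    rw [abs_of_pos (pl_pos ht (sq_nonneg _))]; exact pl_le_one ht (sq_nonneg _))
  exact h.int.congr (Eventually.of_forall fun x => mul_comm _ _)

lemma tendsto_pl (s : ℝ) (hs : 0 ≤ s) :
    Tendsto (fun n : ℕ => pl ((n:ℝ) + 1) s) atTop (𝓝 1) := by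
  have h1 : ∀ n : ℕ, 1 - s * (1 / ((n:ℝ) + 1)) ≤ pl ((n:ℝ) + 1) s := by
    intro n
    have ht : (0:ℝ) < (n:ℝ) + 1 := by positivity
    set t := (n:ℝ) + 1
    have ht1 : 1 ≤ t := by simp [t]
    have hp := pl_pos ht hs
    have hl := pl_le_one ht hs
    have h2 := pl_sq ht hs
    have h3 : 1 - s * (1 / t) ≤ pl t s ^ 2 := by
      rw [h2, le_div_iff₀ (by positivity)]
      have e1 : (1 - s * (1 / t)) * (t ^ 2 + s) = t ^ 2 + s - s * t - s ^ 2 / t := by
        field_simp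
        ring
      rw [e1]
      have e2 : 0 ≤ s ^ 2 / t := by positivity
      nlinarith
    nlinarith
  have h2 : Tendsto (fun n : ℕ => 1 - s * (1 / ((n:ℝ) + 1))) atTop (𝓝 (1 - s * 0)) :=
    (tendsto_one_div_add_atTop_nhds_zero_nat.const_mul s).const_sub 1
  rw [mul_zero, sub_zero] at h2
  exact tendsto_of_tendsto_of_tendsto_of_le_of_le h2 tendsto_const_nhds h1
    (fun n => pl_le_one (by positivity) hs)

lemma tendsto_pl_rho0 :
    Tendsto (fun n : ℕ => ∫ x, rho0 x * pl ((n:ℝ) + 1) (‖x‖ ^ 2)) atTop (𝓝 (∫ x, rho0 x)) := by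
  apply tendsto_integral_of_dominated_convergence rho0
  · intro n
    exact (continuous_rho0.mul (continuous_pl (by positivity))).aestronglyMeasurable
  · exact BI_rho0.int
  · intro n
    refine Eventually.of_forall fun x => ?_
    have p := pl_pos (by positivity : (0:ℝ) < (n:ℝ) + 1) (sq_nonneg ‖x‖)
    have l := pl_le_one (by positivity : (0:ℝ) < (n:ℝ) + 1) (sq_nonneg ‖x‖)
    rw [Real.norm_eq_abs, abs_of_nonneg (mul_nonneg (rho0_pos x).le p.le)]
    have := mul_le_mul_of_nonneg_left l (rho0_pos x).le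
    linarith
  · refine Eventually.of_forall fun x => ?_
    have := (tendsto_pl (‖x‖ ^ 2) (sq_nonneg _)).const_mul (rho0 x)
    simpa using this

lemma mass_nonneg (ψ : X → ℝ) (r : ℝ) : 0 ≤ mass ψ r := integral_nonneg fun _ => sq_nonneg _

lemma mass_mono {ψ : X → ℝ} (hψ : Adm ψ) {a b : ℝ} (h : a ≤ b) : mass ψ a ≤ mass ψ b := by
  unfold mass
  exact setIntegral_mono_set hψ.BI.int.integrableOn (Eventually.of_forall fun _ => sq_nonneg _)
    (Metric.ball_subset_ball h).eventuallyLE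

lemma mass_le {ψ : X → ℝ} (hψ : Adm ψ) (r : ℝ) : mass ψ r ≤ ∫ x, sq ψ x :=
  setIntegral_le_integral hψ.BI.int (Eventually.of_forall fun _ => sq_nonneg _)

lemma mass_shell {ψ : X → ℝ} (hψ : Adm ψ) {a b : ℝ} (h : a ≤ b) :
    ∫ x in Metric.ball (0:X) b \ Metric.ball 0 a, sq ψ x = mass ψ b - mass ψ a := by
  unfold mass
  exact setIntegral_sdiff measurableSet_ball hψ.BI.int.integrableOn (Metric.ball_subset_ball h)

/-- Local mass control from closeness in Coulomb norm. -/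
theorem mass_control {η : ℝ} (hη : 0 < η) : ∃ r0 : ℝ, 0 < r0 ∧ ∀ L0 : ℝ, r0 ≤ L0 →
    ∃ δ' : ℝ, 0 < δ' ∧ ∀ ψ : X → ℝ, Adm ψ →
      D (fun x => sq ψ x - rho0 x) (fun x => sq ψ x - rho0 x) ≤ δ' →
      (∫ x, rho0 x) - 8 * η ≤ mass ψ r0 ∧ mass ψ (2 * L0) ≤ (∫ x, rho0 x) + 2 * η := by
  set N0 := ∫ x, rho0 x with hN0
  have hN0pos : 0 ≤ N0 := integral_nonneg fun x => (rho0_pos x).le
  obtain ⟨n1, hn1⟩ := (tendsto_pl_rho0.eventually_const_le
    (by linarith : N0 - η < N0)).exists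
  set t1 : ℝ := (n1:ℝ) + 1 with ht1
  have ht1p : 0 < t1 := by positivity
  refine ⟨2 * t1, by positivity, fun L0 hL0 => ?_⟩
  -- choose t2
  have ev1 := (tendsto_pl ((2 * L0) ^ 2) (sq_nonneg _)).eventually_const_le
    (show (N0 + η) / (N0 + 2 * η) < 1 by
      rw [div_lt_one (by positivity)]; linarith)
  obtain ⟨n2, hn2, hn2'⟩ := (ev1.and (eventually_ge_atTop ⌈4 * t1⌉₊)).exists
  set t2 : ℝ := (n2:ℝ) + 1 with ht2
  have ht2p : 0 < t2 := by positivity
  have h42 : 4 * t1 ≤ t2 := by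
    have := (Nat.le_ceil (4 * t1)).trans (Nat.cast_le.2 hn2')
    linarith
  refine ⟨η ^ 2 / t2, by positivity, fun ψ hψ hD => ?_⟩
  have hB := hψ.BI
  have hf : BI (fun x => sq ψ x - rho0 x) := hB.sub BI_rho0
  have hDnn := D_self_nonneg hf
  have test : ∀ t : ℝ, 0 < t → t ≤ t2 →
      |(∫ x, sq ψ x * pl t (‖x‖ ^ 2)) - ∫ x, rho0 x * pl t (‖x‖ ^ 2)| ≤ η := by
    intro t ht htt
    have h1 := plummer_test ht hf
    have h2 : ∫ x, (sq ψ x - rho0 x) * (t * kk (t ^ 2) (‖x‖ ^ 2))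
        = (∫ x, sq ψ x * pl t (‖x‖ ^ 2)) - ∫ x, rho0 x * pl t (‖x‖ ^ 2) := by
      rw [← integral_sub (integrable_mul_pl hB ht) (integrable_mul_pl BI_rho0 ht)]
      congr 1
      ext x
      unfold pl
      ring
    rw [h2] at h1
    refine h1.trans ?_
    rw [Real.sqrt_le_left hη.le]
    calc t * D (fun x => sq ψ x - rho0 x) (fun x => sq ψ x - rho0 x)
        ≤ t2 * (η ^ 2 / t2) := mul_le_mul htt hD hDnn ht2p.le
      _ = η ^ 2 := by field_simp
  have T1 := abs_le.1 (test t1 ht1p (by linarith))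
  have T2 := abs_le.1 (test t2 ht2p le_rfl)
  -- ρ₀ against the two profiles
  have A1 : N0 - η ≤ ∫ x, rho0 x * pl t1 (‖x‖ ^ 2) := hn1
  have A2 : ∫ x, rho0 x * pl t1 (‖x‖ ^ 2) ≤ ∫ x, rho0 x * pl t2 (‖x‖ ^ 2) := by
    apply integral_mono (integrable_mul_pl BI_rho0 ht1p) (integrable_mul_pl BI_rho0 ht2p)
    intro x
    exact mul_le_mul_of_nonneg_left (pl_mono ht1p (by linarith) (sq_nonneg _)) (rho0_pos x).le
  have A3 : ∫ x, rho0 x * pl t2 (‖x‖ ^ 2) ≤ N0 := by
    apply integral_mono (integrable_mul_pl BI_rho0 ht2p) BI_rho0.int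
    intro x
    have := mul_le_mul_of_nonneg_left (pl_le_one ht2p (sq_nonneg ‖x‖)) (rho0_pos x).le
    simpa using this
  -- outer part
  have hi1 := integrable_mul_pl hB ht1p
  have hi2 := integrable_mul_pl hB ht2p
  have O1 : ∫ x in (Metric.ball (0:X) (2 * t1))ᶜ, sq ψ x * pl t2 (‖x‖ ^ 2)
      ≤ 2 * ((∫ x, sq ψ x * pl t2 (‖x‖ ^ 2)) - ∫ x, sq ψ x * pl t1 (‖x‖ ^ 2)) := by
    rw [← integral_sub hi2 hi1, ← integral_const_mul]
    have step : ∫ x in (Metric.ball (0:X) (2 * t1))ᶜ, sq ψ x * pl t2 (‖x‖ ^ 2)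
        ≤ ∫ x in (Metric.ball (0:X) (2 * t1))ᶜ,
          2 * (sq ψ x * pl t2 (‖x‖ ^ 2) - sq ψ x * pl t1 (‖x‖ ^ 2)) := by
      apply setIntegral_mono_on hi2.integrableOn ((hi2.sub hi1).const_mul 2).integrableOn
        measurableSet_ball.compl
      intro x hx
      have hx' : 2 * t1 ≤ ‖x‖ := by
        rw [mem_compl_iff, mem_ball_zero_iff, not_lt] at hx
        exact hx
      have h1 := pl_half ht1p h42 (pow_le_pow_left₀ (by positivity) hx' 2)
      have h2 := mul_le_mul_of_nonneg_left h1 (sq_nonneg' ψ x)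
      simp only [Pi.sub_apply]
      linarith
    refine step.trans ?_
    apply setIntegral_le_integral ((hi2.sub hi1).const_mul 2)
    refine Eventually.of_forall fun x => ?_
    have h1 := pl_mono ht1p (by linarith : t1 ≤ t2) (sq_nonneg ‖x‖)
    have h2 := mul_le_mul_of_nonneg_left h1 (sq_nonneg' ψ x)
    simp only [Pi.zero_apply, Pi.sub_apply]
    linarith
  have split := integral_add_compl (measurableSet_ball (x := (0:X)) (ε := 2 * t1)) hi2
  constructor
  · have M1 : ∫ x in Metric.ball (0:X) (2 * t1), sq ψ x * pl t2 (‖x‖ ^ 2) ≤ mass ψ (2 * t1) := by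
      unfold mass
      apply setIntegral_mono_on hi2.integrableOn hB.int.integrableOn measurableSet_ball
      intro x _
      have := mul_le_mul_of_nonneg_left (pl_le_one ht2p (sq_nonneg ‖x‖)) (sq_nonneg' ψ x)
      linarith
    linarith [T1.1, T1.2, T2.1, T2.2]
  · have hL0' : 0 < L0 := by linarith
    have hq : 0 < pl t2 ((2 * L0) ^ 2) := pl_pos ht2p (sq_nonneg _)
    have M2 : mass ψ (2 * L0) * pl t2 ((2 * L0) ^ 2) ≤ ∫ x, sq ψ x * pl t2 (‖x‖ ^ 2) := by
      unfold mass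
      rw [← integral_mul_const]
      refine le_trans (b := ∫ x in Metric.ball (0:X) (2 * L0), sq ψ x * pl t2 (‖x‖ ^ 2)) ?_ ?_
      · apply setIntegral_mono_on (hB.int.mul_const _).integrableOn hi2.integrableOn
          measurableSet_ball
        intro x hx
        rw [mem_ball_zero_iff] at hx
        apply mul_le_mul_of_nonneg_left _ (sq_nonneg' ψ x)
        exact pl_anti ht2p (sq_nonneg _) (pow_le_pow_left₀ (norm_nonneg _) hx.le 2)
      · apply setIntegral_le_integral hi2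
        exact Eventually.of_forall fun x =>
          mul_nonneg (sq_nonneg' ψ x) (pl_pos ht2p (sq_nonneg _)).le
    have M3 : N0 + η ≤ (N0 + 2 * η) * pl t2 ((2 * L0) ^ 2) := by
      rw [div_le_iff₀ (by positivity)] at hn2
      linarith
    have M4 : mass ψ (2 * L0) * pl t2 ((2 * L0) ^ 2)
        ≤ (N0 + 2 * η) * pl t2 ((2 * L0) ^ 2) := by
      linarith [T2.1, T2.2]
    exact le_of_mul_le_mul_right M4 hq

/-- Dyadic selection. -/
lemma dyadic {S : ℕ → ℝ} (hmono : Monotone S) (hev : ∃ n, ∀ k, n ≤ k → S k = S n) :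
    ∃ i, (1/2) * (S (i + 1) - S i) ≤ S (i + 2) - S (i + 1) ∧ S (i + 1) ≤ S 1 + (S 1 - S 0) := by
  classical
  have hex : ∃ i, (1/2) * (S (i + 1) - S i) ≤ S (i + 2) - S (i + 1) := by
    obtain ⟨n, hn⟩ := hev
    refine ⟨n, ?_⟩
    rw [hn (n + 1) (by omega), hn (n + 2) (by omega)]
    simp
  refine ⟨Nat.find hex, Nat.find_spec hex, ?_⟩
  have key : ∀ k, k ≤ Nat.find hex → S (k + 1) ≤ S 1 + (S 1 - S 0) - (S (k + 1) - S k) := by
    intro k
    induction k with
    | zero => intro _; simp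
    | succ k ih =>
      intro hk
      have h1 := ih (by omega)
      have h2 := Nat.find_min hex (m := k) (by omega)
      push Not at h2
      have h3 : k + 1 + 1 = k + 2 := rfl
      rw [h3]
      linarith
  have h1 := key _ le_rfl
  have h2 := hmono (Nat.le_succ (Nat.find hex))
  have h3 : S (Nat.find hex + 1) - S (Nat.find hex) ≥ 0 := by
    simp only [Nat.succ_eq_add_one] at h2
    linarith
  linarith

end Pool.Agent.Lib.TFW
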