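import Mathlib

/-!
# Thomas-Fermi-von Weizsaecker theory: energy, critical electron number, excess charge
-/

set_option autoImplicit false

open MeasureTheory

namespace Pool.Agent.Lib.TFW.One

/-- the space of positions -/
abbrev E3 : Type := EuclideanSpace ℝ (Fin 3)

/-- The TFW energy `ξ(ψ²)` of `K` nuclei with charges `z j` at the positions `R j`. -/
noncomputable def energy (A γ : ℝ) {K : ℕ} (R : Fin K → E3) (z : Fin K → ℝ) (ψ : E3 → ℝ) : ℝ :=
  A * (∫ x, ‖fderiv ℝ ψ x‖ ^ 2) + 3 / 5 * γ * (∫ x, |ψ x| ^ ((10 : ℝ) / 3))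
    - (∫ x, (∑ j, z j / ‖x - R j‖) * ψ x ^ 2)
    + (1 / 2) * ∫ x, ∫ y, ψ x ^ 2 * ψ y ^ 2 / ‖x - y‖

/-- the trial functions: continuously differentiable with compact support -/
def Trial (ψ : E3 → ℝ) : Prop := ContDiff ℝ 1 ψ ∧ HasCompactSupport ψ

/-- the ground state energy: the infimum of the energy over all trial functions -/
noncomputable def groundEnergy (A γ : ℝ) {K : ℕ} (R : Fin K → E3) (z : Fin K → ℝ) : EReal :=
  ⨅ ψ : {ψ : E3 → ℝ // Trial ψ}, (energy A γ R z ψ.1 : EReal)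

/-- the infimum of the energy over the trial functions with at most `N` electrons -/
noncomputable def groundEnergyLe (A γ : ℝ) {K : ℕ} (R : Fin K → E3) (z : Fin K → ℝ) (N : ℝ) :
    EReal :=
  ⨅ ψ : {ψ : E3 → ℝ // Trial ψ ∧ ∫ x, ψ x ^ 2 ≤ N}, (energy A γ R z ψ.1 : EReal)

/-- The critical electron number `N_c`: the smallest number of electrons with which the ground
state energy is reached. -/
noncomputable def criticalNumber (A γ : ℝ) {K : ℕ} (R : Fin K → E3) (z : Fin K → ℝ) : EReal :=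
  ⨅ N : {N : ℝ // 0 ≤ N ∧ groundEnergyLe A γ R z N = groundEnergy A γ R z}, ((N.1 : ℝ) : EReal)

/-- the excess charge `N_c - Z` -/
noncomputable def excessCharge (A γ : ℝ) {K : ℕ} (R : Fin K → E3) (z : Fin K → ℝ) : EReal :=
  criticalNumber A γ R z - ((∑ j, z j : ℝ) : EReal)

end Pool.Agent.Lib.TFW.One
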