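import Pool.Agent.Lib.MP_1526eb_mp.Final

/-!
# Finiteness of the critical electron number
-/

set_option autoImplicit false

open MeasureTheory Set Filter Topology

namespace Pool.Agent.Lib.TFW

/-- the outer part -/
noncomputable def ou (L : ℝ) (ψ : X → ℝ) : X → ℝ := fun x => Real.sin (th L x) * ψ x

/-- the inner part -/
noncomputable def inn (L : ℝ) (ψ : X → ℝ) : X → ℝ := fun x => Real.cos (th L x) * ψ x

lemma adm_ou {ψ : X → ℝ} (hψ : Adm ψ) (L : ℝ) : Adm (ou L ψ) := Adm.mul (contDiff_sin_th L) hψ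

lemma adm_inn {ψ : X → ℝ} (hψ : Adm ψ) (L : ℝ) : Adm (inn L ψ) := Adm.mul (contDiff_cos_th L) hψ

lemma sq_ou (L : ℝ) (ψ : X → ℝ) : sq (ou L ψ) = fun y => Real.sin (th L y) ^ 2 * sq ψ y := by
  ext x; simp only [sq, ou, mul_pow]

lemma sq_inn (L : ℝ) (ψ : X → ℝ) : sq (inn L ψ) = fun y => Real.cos (th L y) ^ 2 * sq ψ y := by
  ext x; simp only [sq, inn, mul_pow]

/-- Localisation of the energy, for all charges. -/
lemma ims_gen {K : ℕ} (R : Fin K → X) (z : Fin K → ℝ) {cTF : ℝ} (hc : 0 ≤ cTF) {ψ : X → ℝ}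
    (hψ : Adm ψ) (L : ℝ) :
    D (sq (ou L ψ)) (sq (inn L ψ)) + (1 / 2) * D (sq (ou L ψ)) (sq (ou L ψ))
        - (∑ j, z j * U (sq (ou L ψ)) (R j)) - ∫ x, sq ψ x * ‖fderiv ℝ (th L) x‖ ^ 2
      ≤ En cTF R z ψ - En cTF R z (inn L ψ) := by
  have hA : Adm (inn L ψ) := adm_inn hψ L
  have hAb : Adm (ou L ψ) := adm_ou hψ L
  have hBf := hA.BI
  have hBg := hAb.BI
  have hB := hψ.BI
  have hsum : sq ψ = fun y => sq (inn L ψ) y + sq (ou L ψ) y := by
    ext x
    rw [sq_inn, sq_ou]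
    have := Real.sin_sq_add_cos_sq (th L x)
    linear_combination (-(sq ψ x)) * this
  have hth : Continuous (fun x : X => fderiv ℝ (th L) x) :=
    (contDiff_th L).continuous_fderiv one_ne_zero
  have kin : Kin (inn L ψ) + Kin (ou L ψ) =
      Kin ψ + ∫ x, sq ψ x * ‖fderiv ℝ (th L) x‖ ^ 2 := by
    unfold Kin
    have i1 : ∀ φ : X → ℝ, Adm φ → Integrable (fun x => ‖fderiv ℝ φ x‖ ^ 2) := by
      intro φ hφ
      exact ((hφ.1.continuous_fderiv one_ne_zero).norm.pow 2).integrable_of_hasCompactSupport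
        (hcs_sq (hφ.2.fderiv (𝕜 := ℝ)).norm)
    have i2 : Integrable (fun x => sq ψ x * ‖fderiv ℝ (th L) x‖ ^ 2) :=
      (hB.cont.mul (hth.norm.pow 2)).integrable_of_hasCompactSupport (hcs_sq hψ.2).mul_right
    rw [← integral_add (i1 _ hA) (i1 _ hAb), ← integral_add (i1 _ hψ) i2]
    congr 1
    ext x
    exact ims_pointwise hψ.1 (contDiff_th L) x
  have tf : (∫ x, |inn L ψ x| ^ ((10:ℝ)/3)) ≤ ∫ x, |ψ x| ^ ((10:ℝ)/3) := by
    apply integral_mono (integrable_TF hA) (integrable_TF hψ)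
    intro x
    apply Real.rpow_le_rpow (abs_nonneg _) _ (by norm_num)
    simp only [inn]
    rw [abs_mul]
    have := mul_le_mul_of_nonneg_right (Real.abs_cos_le_one (th L x)) (abs_nonneg (ψ x))
    linarith
  have nuc : ∑ j, z j * U (sq ψ) (R j) - ∑ j, z j * U (sq (inn L ψ)) (R j) =
      ∑ j, z j * U (sq (ou L ψ)) (R j) := by
    rw [← Finset.sum_sub_distrib]
    apply Finset.sum_congr rfl
    intro j _
    have : U (sq ψ) (R j) = U (sq (inn L ψ)) (R j) + U (sq (ou L ψ)) (R j) := by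
      conv_lhs => rw [hsum]
      exact U_add hBf hBg (R j)
    rw [this]
    ring
  have coul : D (sq ψ) (sq ψ) = D (sq (inn L ψ)) (sq (inn L ψ))
      + 2 * D (sq (ou L ψ)) (sq (inn L ψ)) + D (sq (ou L ψ)) (sq (ou L ψ)) := by
    have e1 : D (sq ψ) (sq ψ) = D (fun y => sq (inn L ψ) y + sq (ou L ψ) y)
        (fun y => sq (inn L ψ) y + sq (ou L ψ) y) := by
      rw [← hsum]
    rw [e1, D_add_left hBf hBg (hBf.add hBg), D_add_right hBf hBg hBf, D_add_right hBf hBg hBg,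
      D_symm hBf hBg]
    ring
  have h9 := Kin_nonneg (ou L ψ)
  have h10 := mul_le_mul_of_nonneg_left tf hc
  unfold En
  linarith

/-- lower bound for a potential by the mass in a ball -/
lemma U_lower {f : X → ℝ} (hf : BI f) (hf0 : ∀ x, 0 ≤ f x) {r : ℝ} (hr : 0 < r) (y : X) :
    (∫ x in Metric.ball (0:X) r, f x) / (‖y‖ + r) ≤ U f y := by
  have hp : 0 < ‖y‖ + r := by positivity
  unfold U
  rw [div_eq_mul_inv, ← integral_mul_const, ← integral_indicator Metric.isOpen_ball.measurableSet]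
  apply integral_mono_ae
  · exact (hf.int.mul_const _).indicator measurableSet_ball
  · exact integrable_div_norm hf y
  · have hne : ∀ᵐ x : X, x ≠ y := by simp [ae_iff]
    filter_upwards [hne] with x hx
    have hxy : 0 < ‖y - x‖ := norm_pos_iff.2 (sub_ne_zero.2 hx.symm)
    by_cases hb : x ∈ Metric.ball (0:X) r
    · rw [indicator_of_mem hb]
      rw [mem_ball_zero_iff] at hb
      rw [div_eq_mul_inv]
      apply mul_le_mul_of_nonneg_left _ (hf0 x)
      apply inv_anti₀ hxy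
      have := norm_sub_le y x
      linarith
    · rw [indicator_of_notMem hb]
      exact div_nonneg (hf0 x) hxy.le

lemma nuc_le {f : X → ℝ} (hf : BI f) (hf0 : ∀ x, 0 ≤ f x) {ρ : ℝ} (_hρ : 0 < ρ) {R : X}
    (hR : 2 * ‖R‖ ≤ ρ) (hsupp : ∀ x, ‖x‖ ≤ ρ → f x = 0) : U f R ≤ 2 * U f 0 := by
  unfold U
  rw [← integral_const_mul]
  apply integral_mono (integrable_div_norm hf R) ((integrable_div_norm hf 0).const_mul 2)
  intro x
  simp only
  rcases le_or_gt ‖x‖ ρ with h | h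
  · rw [hsupp x h]; simp
  · have h1 : ‖(0:X) - x‖ = ‖x‖ := by rw [zero_sub, norm_neg]
    rw [h1]
    have h2 : ‖x‖ / 2 ≤ ‖R - x‖ := by
      have := norm_sub_norm_le x R
      rw [norm_sub_rev] at this
      linarith
    have hx : 0 < ‖x‖ := by linarith
    calc f x / ‖R - x‖ ≤ f x / (‖x‖ / 2) :=
          div_le_div_of_nonneg_left (hf0 x) (by positivity) h2
      _ = 2 * (f x / ‖x‖) := by field_simp

lemma J_lower {ψ : X → ℝ} (hψ : Adm ψ) {L : ℝ} (hL : 0 < L) :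
    (1 / (4 * L)) * (mass ψ (4 * L) - mass ψ (2 * L)) ≤ U (sq (ou L ψ)) 0 := by
  have hB := hψ.BI
  have hms : MeasurableSet (Metric.ball (0:X) (4 * L) \ Metric.ball 0 (2 * L)) :=
    measurableSet_ball.diff measurableSet_ball
  have hI := integrable_div_norm (adm_ou hψ L).BI (0:X)
  rw [← mass_shell hψ (by linarith : 2 * L ≤ 4 * L), ← integral_const_mul]
  unfold U
  refine le_trans (b := ∫ x in Metric.ball (0:X) (4 * L) \ Metric.ball 0 (2 * L),
    sq (ou L ψ) x / ‖(0:X) - x‖) ?_ ?_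
  · apply setIntegral_mono_on (hB.int.const_mul _).integrableOn hI.integrableOn hms
    intro x hx
    have hx1 : ‖x‖ < 4 * L := mem_ball_zero_iff.1 hx.1
    have hx2 : 2 * L ≤ ‖x‖ := by
      have := hx.2
      rw [mem_ball_zero_iff, not_lt] at this
      exact this
    have hxp : 0 < ‖x‖ := by linarith
    rw [zero_sub, norm_neg, sq_ou]
    simp only
    rw [sin_th_outer hL hx2, one_pow, one_mul, div_eq_mul_one_div (sq ψ x), mul_comm]
    apply mul_le_mul_of_nonneg_left _ (sq_nonneg' ψ x)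
    apply div_le_div_of_nonneg_left (by norm_num) hxp hx1.le
  · apply setIntegral_le_integral hI
    exact Eventually.of_forall fun x => div_nonneg (sq_nonneg' _ x) (norm_nonneg _)

lemma D_ge {f g : X → ℝ} (hf : BI f) (hf0 : ∀ x, 0 ≤ f x) (hg : BI g) {ρ k : ℝ} (hρ : 0 < ρ)
    (hsupp : ∀ x, ‖x‖ ≤ ρ → f x = 0) (h : ∀ x : X, ρ < ‖x‖ → k / ‖x‖ ≤ U g x) :
    k * U f 0 ≤ D f g := by
  rw [D_eq_U]
  unfold U
  rw [← integral_const_mul]
  have hI := integrable_mul_U hf hg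
  unfold U at hI
  apply integral_mono ((integrable_div_norm hf 0).const_mul k) hI
  intro x
  simp only
  rcases le_or_gt ‖x‖ ρ with h1 | h1
  · rw [hsupp x h1]; simp
  · have h2 := mul_le_mul_of_nonneg_left (h x h1) (hf0 x)
    rw [zero_sub, norm_neg]
    calc k * (f x / ‖x‖) = f x * (k / ‖x‖) := by ring
      _ ≤ _ := h2

section
variable {Cθ : ℝ} {K : ℕ} {R : Fin K → X} {z : Fin K → ℝ} {cTF : ℝ} {ψ : X → ℝ} {L Z : ℝ}

lemma ou_supp (hL : 0 < L) (x : X) (hx : ‖x‖ ≤ L) : sq (ou L ψ) x = 0 := by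
  rw [sq_ou]
  simp only
  rw [sin_th_inner hL hx]
  simp

lemma nuc_sum_le (hψ : Adm ψ) (hz : ∀ j, 0 ≤ z j) (hL : 0 < L) (hZ : ∑ j, z j ≤ Z)
    (hR : ∀ j, 2 * ‖R j‖ ≤ L) :
    ∑ j, z j * U (sq (ou L ψ)) (R j) ≤ 2 * Z * U (sq (ou L ψ)) 0 := by
  have hJ : 0 ≤ U (sq (ou L ψ)) 0 := U_nonneg (sq_nonneg' _) 0
  calc ∑ j, z j * U (sq (ou L ψ)) (R j)
      ≤ ∑ j, z j * (2 * U (sq (ou L ψ)) 0) := by
        apply Finset.sum_le_sum
        intro j _
        apply mul_le_mul_of_nonneg_left _ (hz j)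
        exact nuc_le (adm_ou hψ L).BI (sq_nonneg' _) hL (hR j) (fun x hx => ou_supp hL x hx)
    _ = (∑ j, z j) * (2 * U (sq (ou L ψ)) 0) := by rw [Finset.sum_mul]
    _ ≤ Z * (2 * U (sq (ou L ψ)) 0) := mul_le_mul_of_nonneg_right hZ (by linarith)
    _ = _ := by ring

lemma caseA (hCθ : ∀ L : ℝ, 0 < L → ∀ x : X, ‖fderiv ℝ (th L) x‖ ^ 2 ≤ Cθ / L ^ 2)
    (hz : ∀ j, 0 ≤ z j) (hc : 0 ≤ cTF) (hψ : Adm ψ) (hL : 0 < L) (hZ : ∑ j, z j ≤ Z)
    (hZ0 : 0 < Z) (hR : ∀ j, 2 * ‖R j‖ ≤ L) (hθ : 8 * Cθ ≤ Z * L) (hm : 6 * Z ≤ mass ψ L)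
    (hdy : (1 / 2) * (mass ψ (2 * L) - mass ψ L) ≤ mass ψ (4 * L) - mass ψ (2 * L)) :
    En cTF R z (inn L ψ) ≤ En cTF R z ψ := by
  have h1 := ims_gen R z hc hψ L
  have h2 := grad_term hCθ hψ hL
  have h3 := nuc_sum_le hψ hz hL hZ hR
  have h4 := J_lower hψ hL
  have h5 := D_self_nonneg (adm_ou hψ L).BI
  have h6 : 3 * Z * U (sq (ou L ψ)) 0 ≤ D (sq (ou L ψ)) (sq (inn L ψ)) := by
    apply D_ge (adm_ou hψ L).BI (sq_nonneg' _) (adm_inn hψ L).BI hL
      (fun x hx => ou_supp hL x hx)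
    intro x hx
    have hxp : 0 < ‖x‖ := by linarith
    have h7 := U_inner_ge hψ hL (le_refl L) (norm_pos_iff.1 hxp)
    rw [← sq_inn] at h7
    refine le_trans ?_ h7
    rw [div_le_div_iff₀ hxp (by linarith)]
    nlinarith
  have hm21 : 0 ≤ mass ψ (2 * L) - mass ψ L := by
    have := mass_mono hψ (by linarith : L ≤ 2 * L)
    linarith
  have h8 : Cθ / L ^ 2 ≤ Z / (8 * L) := by
    rw [div_le_div_iff₀ (by positivity) (by positivity)]
    nlinarith
  have h9 : (Cθ / L ^ 2) * (mass ψ (2 * L) - mass ψ L) ≤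
      (Z / (8 * L)) * (mass ψ (2 * L) - mass ψ L) := mul_le_mul_of_nonneg_right h8 hm21
  have h10 : Z * ((1 / (4 * L)) * (mass ψ (4 * L) - mass ψ (2 * L))) ≤
      Z * U (sq (ou L ψ)) 0 := mul_le_mul_of_nonneg_left h4 hZ0.le
  have h11 : (Z / (4 * L)) * ((1 / 2) * (mass ψ (2 * L) - mass ψ L)) ≤
      (Z / (4 * L)) * (mass ψ (4 * L) - mass ψ (2 * L)) :=
    mul_le_mul_of_nonneg_left hdy (by positivity)
  have e1 : (Z / (4 * L)) * ((1 / 2) * (mass ψ (2 * L) - mass ψ L)) =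
      (Z / (8 * L)) * (mass ψ (2 * L) - mass ψ L) := by
    field_simp
    ring
  have e2 : Z * ((1 / (4 * L)) * (mass ψ (4 * L) - mass ψ (2 * L))) =
      (Z / (4 * L)) * (mass ψ (4 * L) - mass ψ (2 * L)) := by
    field_simp
  linarith

lemma caseB (hCθ : ∀ L : ℝ, 0 < L → ∀ x : X, ‖fderiv ℝ (th L) x‖ ^ 2 ≤ Cθ / L ^ 2)
    (hCθ0 : 0 < Cθ)
    (hz : ∀ j, 0 ≤ z j) (hc : 0 ≤ cTF) (hψ : Adm ψ) (hL : 0 < L) (hZ : ∑ j, z j ≤ Z)
    (hZ0 : 0 < Z) (hR : ∀ j, 2 * ‖R j‖ ≤ L) (hθ : Cθ ≤ Z * L) (hm : mass ψ (2 * L) ≤ 6 * Z)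
    (hM : 78 * Z ≤ mass ψ (8 * L)) :
    En cTF R z (inn L ψ) ≤ En cTF R z ψ := by
  have h1 := ims_gen R z hc hψ L
  have h2 := grad_term hCθ hψ hL
  have h3 := nuc_sum_le hψ hz hL hZ hR
  have hBo := (adm_ou hψ L).BI
  have h5 : 0 ≤ D (sq (ou L ψ)) (sq (inn L ψ)) := by
    rw [D_eq_U]
    exact integral_nonneg fun x => mul_nonneg (sq_nonneg' _ x) (U_nonneg (sq_nonneg' _) x)
  set μ : ℝ := ∫ x in Metric.ball (0:X) (8 * L), sq (ou L ψ) x with hμ
  have hμ1 : 72 * Z ≤ μ := by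
    have e1 : mass ψ (8 * L) - mass ψ (2 * L) ≤ μ := by
      rw [← mass_shell hψ (by linarith : 2 * L ≤ 8 * L)]
      have hms : MeasurableSet (Metric.ball (0:X) (8 * L) \ Metric.ball 0 (2 * L)) :=
        measurableSet_ball.diff measurableSet_ball
      have e2 : ∫ x in Metric.ball (0:X) (8 * L) \ Metric.ball 0 (2 * L), sq ψ x =
          ∫ x in Metric.ball (0:X) (8 * L) \ Metric.ball 0 (2 * L), sq (ou L ψ) x := by
        apply setIntegral_congr_fun hms
        intro x hx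
        have hx2 : 2 * L ≤ ‖x‖ := by
          have := hx.2
          rw [mem_ball_zero_iff, not_lt] at this
          exact this
        rw [sq_ou]
        simp only
        rw [sin_th_outer hL hx2]
        simp
      rw [e2, hμ]
      apply setIntegral_mono_set hBo.int.integrableOn
      · exact Eventually.of_forall fun x => sq_nonneg' _ x
      · exact Eventually.of_forall fun x hx => hx.1
    linarith
  have hμ0 : 0 < μ := by linarith
  have h6 : (μ / 9) * U (sq (ou L ψ)) 0 ≤ D (sq (ou L ψ)) (sq (ou L ψ)) := by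
    apply D_ge hBo (sq_nonneg' _) hBo hL (fun x hx => ou_supp hL x hx)
    intro x hx
    have hxp : 0 < ‖x‖ := by linarith
    refine le_trans ?_ (U_lower hBo (sq_nonneg' _) (by linarith : 0 < 8 * L) x)
    rw [← hμ, div_div]
    apply div_le_div_of_nonneg_left hμ0.le (by linarith) (by linarith)
  have h7 : μ / (8 * L) ≤ U (sq (ou L ψ)) 0 := by
    have := U_lower hBo (sq_nonneg' _) (by linarith : 0 < 8 * L) 0
    rwa [norm_zero, zero_add, ← hμ] at this
  have h8 : (μ / 36) * (μ / (8 * L)) ≤ (μ / 18 - 2 * Z) * U (sq (ou L ψ)) 0 := by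
    apply mul_le_mul _ h7 (by positivity) (by linarith)
    linarith
  have h9 : (Cθ / L ^ 2) * (mass ψ (2 * L) - mass ψ L) ≤ (Cθ / L ^ 2) * (6 * Z) := by
    apply mul_le_mul_of_nonneg_left _ (by positivity)
    have := mass_nonneg ψ L
    linarith
  have h10 : (Cθ / L ^ 2) * (6 * Z) ≤ (μ / 36) * (μ / (8 * L)) := by
    have e3 : (μ / 36) * (μ / (8 * L)) = μ ^ 2 / (288 * L) := by
      field_simp
      ring
    have e4 : (Cθ / L ^ 2) * (6 * Z) = 6 * Z * Cθ / L ^ 2 := by ring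
    rw [e3, e4, div_le_div_iff₀ (by positivity) (by positivity)]
    have e5 : (72 * Z) ^ 2 ≤ μ ^ 2 := pow_le_pow_left₀ (by linarith) hμ1 2
    have e6 : 6 * Z * Cθ ≤ 6 * Z * (Z * L) := mul_le_mul_of_nonneg_left hθ (by linarith)
    calc 6 * Z * Cθ * (288 * L) ≤ 6 * Z * (Z * L) * (288 * L) :=
          mul_le_mul_of_nonneg_right e6 (by positivity)
      _ ≤ (72 * Z) ^ 2 * L ^ 2 := by nlinarith [mul_pos hZ0 hL, sq_nonneg (Z * L)]
      _ ≤ μ ^ 2 * L ^ 2 := mul_le_mul_of_nonneg_right e5 (by positivity)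
  linarith

lemma mass_inn_le (hψ : Adm ψ) (hL : 0 < L) : ∫ x, sq (inn L ψ) x ≤ mass ψ (2 * L) := by
  have e1 : ∫ x, sq (inn L ψ) x = ∫ x in Metric.ball (0:X) (2 * L), sq (inn L ψ) x := by
    symm
    apply setIntegral_eq_integral_of_forall_compl_eq_zero
    intro x hx
    rw [mem_ball_zero_iff, not_lt] at hx
    rw [sq_inn]
    simp only [cos_th_outer hL hx]
    simp
  rw [e1]
  unfold mass
  apply setIntegral_mono_on (adm_inn hψ L).BI.int.integrableOn hψ.BI.int.integrableOn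
    measurableSet_ball
  intro x _
  rw [sq_inn]
  simp only
  have h2 := Real.sin_sq_add_cos_sq (th L x)
  have h3 : Real.cos (th L x) ^ 2 ≤ 1 := by nlinarith [sq_nonneg (Real.sin (th L x))]
  have := mul_le_mul_of_nonneg_right h3 (sq_nonneg' ψ x)
  linarith

lemma mass_sq_le (hψ : Adm ψ) {r : ℝ} (hr : 0 < r) :
    mass ψ r ^ 2 ≤ 2 * r * D (sq ψ) (sq ψ) := by
  have hB := hψ.BI
  have hI := integrable_mul_U hB hB
  have h1 : mass ψ r * (mass ψ r / (2 * r)) ≤ D (sq ψ) (sq ψ) := by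
    rw [D_eq_U]
    conv_lhs => rw [mass, ← integral_mul_const]
    refine le_trans (b := ∫ x in Metric.ball (0:X) r, sq ψ x * U (sq ψ) x) ?_ ?_
    · apply setIntegral_mono_on (hB.int.mul_const _).integrableOn hI.integrableOn
        measurableSet_ball
      intro x hx
      rw [mem_ball_zero_iff] at hx
      apply mul_le_mul_of_nonneg_left _ (sq_nonneg' ψ x)
      refine le_trans ?_ (U_lower hB (sq_nonneg' ψ) hr x)
      apply div_le_div_of_nonneg_left (mass_nonneg ψ r) (by positivity)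
      linarith
    · apply setIntegral_le_integral hI
      exact Eventually.of_forall fun x => mul_nonneg (sq_nonneg' _ x) (U_nonneg (sq_nonneg' _) x)
  have h2 : mass ψ r * (mass ψ r / (2 * r)) = mass ψ r ^ 2 / (2 * r) := by ring
  rw [h2, div_le_iff₀ (by positivity)] at h1
  linarith

end

lemma mass_total {ψ : X → ℝ} (hψ : Adm ψ) {L0 : ℝ} (hL0 : 0 < L0) :
    ∃ n : ℕ, ∫ x, sq ψ x = mass ψ (2 ^ n * L0) := by
  obtain ⟨B, hB⟩ := hψ.2.isCompact.isBounded.subset_ball (0:X)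
  obtain ⟨n, hn⟩ := pow_unbounded_of_one_lt (B / L0) (one_lt_two (α := ℝ))
  have hn' : B ≤ 2 ^ n * L0 := by
    rw [div_lt_iff₀ hL0] at hn
    exact hn.le
  refine ⟨n, ?_⟩
  symm
  unfold mass
  apply setIntegral_eq_integral_of_forall_compl_eq_zero
  intro x hx
  have hx' : x ∉ tsupport ψ := fun h => hx (Metric.ball_subset_ball hn' (hB h))
  unfold sq
  rw [image_eq_zero_of_notMem_tsupport hx']
  simp

lemma En_zero82 (cTF : ℝ) {K : ℕ} (R : Fin K → X) (z : Fin K → ℝ) :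
    En cTF R z (fun _ => 0) = 0 := by
  have h1 : (10:ℝ) / 3 ≠ 0 := by norm_num
  simp [En, Kin, U, D, sq, Real.zero_rpow h1]

/-- The energy can be approached with bounded mass. -/
theorem finite_mass {K : ℕ} (R : Fin K → X) (z : Fin K → ℝ) (hz : ∀ j, 0 ≤ z j) {cTF : ℝ}
    (hc : 0 ≤ cTF) {C2 : ℝ} (hC2 : ∀ ψ, Adm ψ → En cTF R z ψ ≤ 0 → D (sq ψ) (sq ψ) ≤ C2) :
    ∃ N : ℝ, 0 ≤ N ∧ ∀ ψ, Adm ψ → ∃ φ, Adm φ ∧ ∫ x, sq φ x ≤ N ∧
      En cTF R z φ ≤ En cTF R z ψ := by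
  classical
  obtain ⟨Cθ, hCθ0, hCθ⟩ := exists_bound_th
  set Z : ℝ := 1 + ∑ j, z j with hZdef
  have hsum0 : 0 ≤ ∑ j, z j := Finset.sum_nonneg fun j _ => hz j
  have hZ1 : 1 ≤ Z := by linarith
  have hZ0 : 0 < Z := by linarith
  have hZ : ∑ j, z j ≤ Z := by linarith
  set Rm : ℝ := ∑ j, ‖R j‖ with hRm
  have hRm0 : 0 ≤ Rm := Finset.sum_nonneg fun j _ => norm_nonneg _
  have hRj : ∀ j, ‖R j‖ ≤ Rm := fun j =>
    Finset.single_le_sum (f := fun j => ‖R j‖) (fun i _ => norm_nonneg _) (Finset.mem_univ j)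
  set L0 : ℝ := 8 * Cθ + 4 * Rm + 1 with hL0
  have hL0p : 0 < L0 := by positivity
  set C3 : ℝ := max C2 0 with hC3
  have hC30 : 0 ≤ C3 := le_max_right _ _
  have hC23 : C2 ≤ C3 := le_max_left _ _
  set N3 : ℝ := 4 * L0 * C3 + 1 with hN3
  have hN30 : 0 ≤ N3 := by positivity
  clear_value L0 C3 Z Rm
  refine ⟨2 * (78 * Z + N3), by positivity, ?_⟩
  intro ψ hψ
  by_cases h0 : En cTF R z ψ ≤ 0
  swap
  · refine ⟨fun _ => 0, adm_zero, ?_, ?_⟩
    · have : ∫ x, sq (fun _ : X => (0:ℝ)) x = 0 := by simp [sq]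
      rw [this]; positivity
    · rw [En_zero82]
      exact (not_le.1 h0).le
  have hD := (hC2 ψ hψ h0).trans hC23
  set S : ℕ → ℝ := fun i => mass ψ (2 ^ i * L0) with hS
  have hSmono : Monotone S := by
    intro a b hab
    apply mass_mono hψ
    apply mul_le_mul_of_nonneg_right _ hL0p.le
    exact pow_le_pow_right₀ (by norm_num) hab
  have hS0 : ∀ i, 0 ≤ S i := fun i => mass_nonneg _ _
  have hpow : ∀ i : ℕ, L0 ≤ 2 ^ i * L0 := by
    intro i
    have h2i : (1:ℝ) ≤ 2 ^ i := one_le_pow₀ (by norm_num)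
    have := mul_le_mul_of_nonneg_right h2i hL0p.le
    linarith
  by_cases hall : ∀ i, S i < 6 * Z
  · obtain ⟨n, hn⟩ := mass_total hψ hL0p
    refine ⟨ψ, hψ, ?_, le_refl _⟩
    rw [hn]
    have := hall n
    simp only [hS] at this
    linarith
  push Not at hall
  have hex : ∃ i, 6 * Z ≤ S i := hall
  set i0 := Nat.find hex with hi0
  have hi0' : 6 * Z ≤ S i0 := Nat.find_spec hex
  -- bound for the next ball, or an early exit
  have hbound : (∃ φ, Adm φ ∧ ∫ x, sq φ x ≤ 2 * (78 * Z + N3) ∧ En cTF R z φ ≤ En cTF R z ψ) ∨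
      S (i0 + 1) ≤ 78 * Z + N3 := by
    rcases Nat.eq_zero_or_pos i0 with h1 | h1
    · right
      rw [h1]
      have h2 := mass_sq_le hψ (by linarith : 0 < 2 * L0)
      have h3 : S (0 + 1) = mass ψ (2 * L0) := by
        simp only [hS]; congr 1; ring
      rw [h3]
      have h4 : 2 * (2 * L0) * D (sq ψ) (sq ψ) ≤ 4 * L0 * C3 := by
        have := mul_le_mul_of_nonneg_left hD (by linarith : 0 ≤ 4 * L0)
        linarith
      have h5 := mass_nonneg ψ (2 * L0)
      nlinarith [sq_nonneg (mass ψ (2 * L0) - 1)]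
    · obtain ⟨k, hk⟩ : ∃ k, i0 = k + 1 := ⟨i0 - 1, by omega⟩
      have hk1 : S k < 6 * Z := by
        have := Nat.find_min hex (m := k) (by omega)
        exact not_le.1 this
      by_cases hM : 78 * Z ≤ S (i0 + 1)
      · left
        set l : ℝ := 2 ^ k * L0 / 2 with hl
        have hl0 : 0 < l := by positivity
        have hlL : L0 / 2 ≤ l := by
          have := hpow k
          linarith
        have e2 : mass ψ (2 * l) = S k := by
          simp only [hS, hl]; congr 1; ring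
        have e8 : mass ψ (8 * l) = S (i0 + 1) := by
          rw [hk]
          simp only [hS, hl]; congr 1; ring
        refine ⟨inn l ψ, adm_inn hψ l, ?_, ?_⟩
        · have := mass_inn_le hψ hl0
          rw [e2] at this
          linarith
        · apply caseB hCθ hCθ0 hz hc hψ hl0 hZ hZ0
          · intro j
            have := hRj j
            linarith
          · nlinarith
          · rw [e2]; exact hk1.le
          · rw [e8]; exact hM
      · right
        push Not at hM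
        linarith
  rcases hbound with h | hbound
  · exact h
  have hev : ∃ n, ∀ k, n ≤ k → S (i0 + k) = S (i0 + n) := by
    obtain ⟨n, hn⟩ := mass_eventually hψ hL0p
    refine ⟨n, fun k hk => ?_⟩
    simp only [hS]
    rw [hn (i0 + k) (by omega), hn (i0 + n) (by omega)]
  obtain ⟨j, hj1, hj2⟩ := dyadic (S := fun j => S (i0 + j))
    (fun a b hab => hSmono (by omega)) hev
  set L : ℝ := 2 ^ (i0 + j) * L0 with hL
  have hLp : 0 < L := by positivity
  have hLL := hpow (i0 + j)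
  have e1 : S (i0 + j) = mass ψ L := rfl
  have e2 : S (i0 + (j + 1)) = mass ψ (2 * L) := by
    simp only [hS, hL]; congr 1; ring
  have e4 : S (i0 + (j + 2)) = mass ψ (4 * L) := by
    simp only [hS, hL]; congr 1; ring
  refine ⟨inn L ψ, adm_inn hψ L, ?_, ?_⟩
  · have h1 := mass_inn_le hψ hLp
    rw [← e2] at h1
    have h2 := hS0 (i0 + 0)
    linarith
  · apply caseA hCθ hz hc hψ hLp hZ hZ0
    · intro i
      have := hRj i
      linarith
    · nlinarith
    · rw [← e1]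
      exact hi0'.trans (hSmono (by omega))
    · rw [← e1, ← e2, ← e4]
      exact hj1

end Pool.Agent.Lib.TFW
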