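import Pool.Agent.Lib.MP_1526eb_mp.OneFinite
import Pool.Agent.Lib.MP_1526eb_mp.OneDefs

/-!
# Raising one charge can lower the excess charge, for all constants
-/

set_option autoImplicit false

open MeasureTheory

namespace Pool.Agent.Lib.TFW.One

/-- `N` electrons suffice, in terms of approximation -/
def Suff (A γ : ℝ) {K : ℕ} (R : Fin K → E3) (z : Fin K → ℝ) (N : ℝ) : Prop :=
  ∀ ψ, Trial ψ → ∀ ε : ℝ, 0 < ε → ∃ φ, Trial φ ∧ ∫ x, φ x ^ 2 ≤ N ∧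
    energy A γ R z φ < energy A γ R z ψ + ε

theorem suff_iff (A γ : ℝ) {K : ℕ} (R : Fin K → E3) (z : Fin K → ℝ) (N : ℝ) :
    groundEnergyLe A γ R z N = groundEnergy A γ R z ↔ Suff A γ R z N := by
  constructor
  · intro h ψ hψ ε hε
    have h1 : groundEnergyLe A γ R z N < ((energy A γ R z ψ + ε : ℝ) : EReal) := by
      rw [h]
      refine lt_of_le_of_lt (iInf_le _ (⟨ψ, hψ⟩ : {ψ : E3 → ℝ // Trial ψ})) ?_
      rw [EReal.coe_lt_coe_iff]
      linarith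
    obtain ⟨⟨φ, h2, h3⟩, h4⟩ := iInf_lt_iff.1 h1
    exact ⟨φ, h2, h3, EReal.coe_lt_coe_iff.1 h4⟩
  · intro h
    apply le_antisymm
    · refine le_iInf ?_
      rintro ⟨ψ, hψ⟩
      rw [← EReal.le_of_forall_lt_iff_le]
      intro y hy
      have hy' : energy A γ R z ψ < y := EReal.coe_lt_coe_iff.1 hy
      obtain ⟨φ, h2, h3, h4⟩ := h ψ hψ (y - energy A γ R z ψ) (by linarith)
      refine (iInf_le _ (⟨φ, h2, h3⟩ : {ψ : E3 → ℝ // Trial ψ ∧ ∫ x, ψ x ^ 2 ≤ N})).trans ?_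
      rw [EReal.coe_le_coe_iff]
      simp only
      linarith
    · refine le_iInf ?_
      rintro ⟨φ, h2, h3⟩
      exact iInf_le _ (⟨φ, h2⟩ : {ψ : E3 → ℝ // Trial ψ})

/-! ### Scaling -/

/-- the scaled function -/
def S (a b : ℝ) (φ : E3 → ℝ) : E3 → ℝ := fun x => a * φ (b • x)

theorem S_trial {a b : ℝ} (hb : b ≠ 0) {φ : E3 → ℝ} (h : Trial φ) : Trial (S a b φ) := by
  refine ⟨contDiff_const.mul (h.1.comp (contDiff_const_smul b)), ?_⟩
  exact (h.2.comp_smul hb).mul_left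

theorem S_inv {a b : ℝ} (ha : a ≠ 0) (hb : b ≠ 0) (ψ : E3 → ℝ) : S a b (S a⁻¹ b⁻¹ ψ) = ψ := by
  ext x
  unfold S
  rw [smul_smul, inv_mul_cancel₀ hb, one_smul]
  field_simp

theorem integral_scale {b : ℝ} (hb : 0 < b) (f : E3 → ℝ) :
    ∫ x, f (b • x) = (b ^ 3)⁻¹ * ∫ x, f x := by
  rw [Measure.integral_comp_smul]
  simp only [finrank_euclideanSpace, Fintype.card_fin, smul_eq_mul]
  rw [abs_of_pos (by positivity)]

theorem integral_scale_of {b : ℝ} (hb : 0 < b) (k : ℝ) (f g : E3 → ℝ)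
    (h : ∀ x, g x = k * f (b • x)) : ∫ x, g x = k * (b ^ 3)⁻¹ * ∫ x, f x := by
  have h1 : g = fun x => k * f (b • x) := funext h
  rw [h1, integral_const_mul, integral_scale hb]
  ring

theorem S_mass {a b : ℝ} (hb : 0 < b) (φ : E3 → ℝ) :
    ∫ x, S a b φ x ^ 2 = a ^ 2 * (b ^ 3)⁻¹ * ∫ x, φ x ^ 2 := by
  apply integral_scale_of hb (a ^ 2) (fun y => φ y ^ 2)
  intro x
  unfold S
  ring

theorem energy_S (A γ : ℝ) {K : ℕ} (R : Fin K → E3) (z : Fin K → ℝ) {α b : ℝ} (hα : 0 < α)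
    (hb : 0 < b) (φ : E3 → ℝ) :
    energy A γ (fun j => b⁻¹ • R j) (fun j => α ^ 6 / b ^ 3 * z j) (S (α ^ 3) b φ) =
      α ^ 12 / b ^ 5 * energy (A * (b ^ 4 / α ^ 6)) (γ * (b ^ 2 / α ^ 2)) R z φ := by
  have hK : ∫ x, ‖fderiv ℝ (S (α ^ 3) b φ) x‖ ^ 2 =
      (α ^ 6 * b ^ 2) * (b ^ 3)⁻¹ * ∫ x, ‖fderiv ℝ φ x‖ ^ 2 := by
    apply integral_scale_of hb (α ^ 6 * b ^ 2) (fun y => ‖fderiv ℝ φ y‖ ^ 2)
    intro x
    have h2 : fderiv ℝ (S (α ^ 3) b φ) x = (α ^ 3) • (b • fderiv ℝ φ (b • x)) := by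
      have h3 : S (α ^ 3) b φ = (α ^ 3) • (fun x => φ (b • x)) := by
        ext x; unfold S; simp
      rw [h3, fderiv_const_smul_field, Pi.smul_apply, fderiv_comp_smul]
    rw [h2, norm_smul, norm_smul, Real.norm_eq_abs, Real.norm_eq_abs,
      abs_of_pos (by positivity : 0 < α ^ 3), abs_of_pos hb]
    ring
  have hT : ∫ x, |S (α ^ 3) b φ x| ^ ((10 : ℝ) / 3) =
      α ^ 10 * (b ^ 3)⁻¹ * ∫ x, |φ x| ^ ((10 : ℝ) / 3) := by
    apply integral_scale_of hb (α ^ 10) (fun y => |φ y| ^ ((10 : ℝ) / 3))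
    intro x
    unfold S
    rw [abs_mul, abs_of_pos (by positivity : 0 < α ^ 3),
      Real.mul_rpow (by positivity) (abs_nonneg _)]
    congr 1
    rw [← Real.rpow_natCast, ← Real.rpow_mul hα.le, ← Real.rpow_natCast]
    norm_num
  have hN : ∫ x, (∑ j, (α ^ 6 / b ^ 3 * z j) / ‖x - b⁻¹ • R j‖) * S (α ^ 3) b φ x ^ 2 =
      (α ^ 12 / b ^ 2) * (b ^ 3)⁻¹ * ∫ x, (∑ j, z j / ‖x - R j‖) * φ x ^ 2 := by
    apply integral_scale_of hb (α ^ 12 / b ^ 2) (fun y => (∑ j, z j / ‖y - R j‖) * φ y ^ 2)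
    intro x
    have h2 : ∀ j, (α ^ 6 / b ^ 3 * z j) / ‖x - b⁻¹ • R j‖ =
        (α ^ 6 / b ^ 2) * (z j / ‖b • x - R j‖) := by
      intro j
      have h3 : x - b⁻¹ • R j = b⁻¹ • (b • x - R j) := by
        rw [smul_sub, smul_smul, inv_mul_cancel₀ hb.ne', one_smul]
      rw [h3, norm_smul, Real.norm_eq_abs, abs_of_pos (inv_pos.2 hb)]
      rcases eq_or_ne (‖b • x - R j‖) 0 with h4 | h4
      · rw [h4]; simp
      · field_simp
    simp_rw [h2, ← Finset.mul_sum]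
    unfold S
    field_simp
  have hD : ∫ x, ∫ y, S (α ^ 3) b φ x ^ 2 * S (α ^ 3) b φ y ^ 2 / ‖x - y‖ =
      (α ^ 12 / b ^ 2) * (b ^ 3)⁻¹ * ∫ x, ∫ y, φ x ^ 2 * φ y ^ 2 / ‖x - y‖ := by
    apply integral_scale_of hb (α ^ 12 / b ^ 2) (fun u => ∫ v, φ u ^ 2 * φ v ^ 2 / ‖u - v‖)
    intro x
    have h2 : ∫ y, S (α ^ 3) b φ x ^ 2 * S (α ^ 3) b φ y ^ 2 / ‖x - y‖ =
        (α ^ 12 * b) * (b ^ 3)⁻¹ * ∫ v, φ (b • x) ^ 2 * φ v ^ 2 / ‖b • x - v‖ := by
      apply integral_scale_of hb (α ^ 12 * b) (fun v => φ (b • x) ^ 2 * φ v ^ 2 / ‖b • x - v‖)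
      intro y
      have h3 : ‖b • x - b • y‖ = b * ‖x - y‖ := by
        rw [← smul_sub, norm_smul, Real.norm_eq_abs, abs_of_pos hb]
      rw [h3]
      unfold S
      rcases eq_or_ne (‖x - y‖) 0 with h4 | h4
      · rw [h4]; simp
      · field_simp
    rw [h2]
    field_simp
  unfold energy
  rw [hK, hT, hN, hD]
  field_simp

/-! ### The chain -/

theorem chain {K : ℕ} {β : Type} [LinearOrder β] (F : (Fin K → ℝ) → β) {z z' : Fin K → ℝ}
    (hz : z ≤ z') (h : F z' < F z) :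
    ∃ (w : Fin K → ℝ) (j : Fin K) (t : ℝ), (∀ i, z i ≤ w i) ∧ (∀ i, w i ≤ z' i) ∧ t ≤ z' j ∧
      w j < t ∧ F (Function.update w j t) < F w := by
  classical
  by_contra hcon
  push Not at hcon
  have key : ∀ T : Finset (Fin K), F z ≤ F (fun i => if i ∈ T then z' i else z i) := by
    intro T
    induction T using Finset.induction_on with
    | empty => simp
    | insert j T hj ih =>
      refine ih.trans ?_
      set w : Fin K → ℝ := fun i => if i ∈ T then z' i else z i with hw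
      have hwj : w j = z j := by simp [hw, hj]
      have hup : (fun i => if i ∈ insert j T then z' i else z i) = Function.update w j (z' j) := by
        ext i
        by_cases hi : i = j
        · subst hi; simp
        · rw [Function.update_of_ne hi]
          simp [hw, Finset.mem_insert, hi]
      rw [hup]
      rcases (hz j).lt_or_eq with h1 | h1
      · apply hcon w j (z' j)
        · intro i
          simp only [hw]
          split_ifs
          · exact hz i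
          · exact le_refl _
        · intro i
          simp only [hw]
          split_ifs
          · exact le_refl _
          · exact hz i
        · exact le_refl _
        · rw [hwj]; exact h1
      · have : Function.update w j (z' j) = w := by
          rw [← h1, ← hwj, Function.update_eq_self]
        rw [this]
  have h2 := key Finset.univ
  simp only [Finset.mem_univ, if_true] at h2
  exact absurd h (not_lt.2 h2)

/-! ### The base case -/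

theorem near_min {P : (E3 → ℝ) → ℝ} {B : ℝ} (hB : ∀ ψ, Trial ψ → B ≤ P ψ) {δ : ℝ} (hδ : 0 < δ) :
    ∃ ψ, Trial ψ ∧ ∀ χ, Trial χ → P ψ ≤ P χ + δ := by
  have hne : (P '' {ψ | Trial ψ}).Nonempty :=
    ⟨_, fun _ => 0, ⟨contDiff_const, HasCompactSupport.zero⟩, rfl⟩
  have hbd : BddBelow (P '' {ψ | Trial ψ}) := ⟨B, by
    rintro _ ⟨ψ, hψ, rfl⟩
    exact hB ψ hψ⟩
  obtain ⟨_, ⟨ψ, hψ, rfl⟩, h1⟩ := exists_lt_of_csInf_lt hne
    (lt_add_of_pos_right (sInf (P '' {ψ | Trial ψ})) hδ)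
  refine ⟨ψ, hψ, fun χ hχ => ?_⟩
  have := csInf_le hbd ⟨χ, hχ, rfl⟩
  linarith

theorem base : ∃ (γ : ℝ) (K : ℕ) (R : Fin K → E3) (z z' : Fin K → ℝ) (N0 : ℝ), 0 < γ ∧
    Function.Injective R ∧ (∀ j, 0 < z j) ∧ z ≤ z' ∧ 0 ≤ N0 ∧
    (∀ N, Suff 1 γ R z N → N0 - 1 / 10 ≤ N) ∧ Suff 1 γ R z' (N0 + 1 / 10) ∧
    ∑ j, z j + 2 / 5 ≤ ∑ j, z' j ∧
    ∀ w : Fin K → ℝ, (∀ j, 0 ≤ w j) → w ≤ z' → (∃ N, 0 ≤ N ∧ Suff 1 γ R w N) ∧
      ∃ B : ℝ, ∀ ψ, Trial ψ → B ≤ energy 1 γ R w ψ := by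
  obtain ⟨δ', hδ', htr⟩ := Pool.Agent.Lib.TFW.truncation
  obtain ⟨m, hm, cTF, hcTF, δ1, hδ1, Λ, h, hh, hhZ, hgg, hnear⟩ :=
    Pool.Agent.Lib.TFW.near_min_close hδ'
  obtain ⟨K, R, C, P⟩ := Pool.Agent.Lib.TFW.exists_part Λ hh
  have hm0 : 0 < m := by linarith
  have hN0 : 0 ≤ ∫ x, Pool.Agent.Lib.TFW.rho0 x :=
    MeasureTheory.integral_nonneg fun x => (Pool.Agent.Lib.TFW.rho0_pos x).le
  have hEn : ∀ (w : Fin K → ℝ) (ψ : E3 → ℝ), Trial ψ →
      energy 1 (5 / 3 * cTF) R w ψ = Pool.Agent.Lib.TFW.En cTF R w ψ := by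
    intro w ψ hψ
    rw [← Pool.Agent.Lib.TFW.energy_eq cTF R w hψ]
    unfold energy
    ring
  have hB : ∀ s : ℝ, 0 ≤ s → s ≤ 1 / 2 → ∀ ψ, Trial ψ →
      -(2 * Pool.Agent.Lib.TFW.D Pool.Agent.Lib.TFW.mu0 Pool.Agent.Lib.TFW.mu0 + 1) ≤
        energy 1 (5 / 3 * cTF) R (Pool.Agent.Lib.TFW.chg C (Pool.Agent.Lib.TFW.mus s m)) ψ := by
    intro s hs hs1 ψ hψ
    rw [hEn _ _ hψ]
    have h1 := Pool.Agent.Lib.TFW.apriori P hh hhZ hs hs1 hm hcTF.le hψ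
    have h2 := Pool.Agent.Lib.TFW.Kin_nonneg ψ
    have h3 := Pool.Agent.Lib.TFW.D_self_nonneg (Pool.Agent.Lib.TFW.Adm.BI hψ)
    linarith
  refine ⟨5 / 3 * cTF, K, R, Pool.Agent.Lib.TFW.chg C (Pool.Agent.Lib.TFW.mus 0 m),
    Pool.Agent.Lib.TFW.chg C (Pool.Agent.Lib.TFW.mus (1/2) m),
    ∫ x, Pool.Agent.Lib.TFW.rho0 x, by positivity, P.inj,
    P.chg_pos (Pool.Agent.Lib.TFW.BI_mus 0 hm0) (Pool.Agent.Lib.TFW.mus_pos le_rfl hm0),
    Pool.Agent.Lib.TFW.chg_mono hm0, hN0, ?_, ?_, ?_, ?_⟩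
  · intro N hN
    obtain ⟨ψ0, hψ0, h0⟩ := near_min (hB 0 le_rfl (by norm_num)) (half_pos hδ1)
    obtain ⟨φ, hφ, hφN, hφE⟩ := hN ψ0 hψ0 (δ1 / 2) (half_pos hδ1)
    have hmin : ∀ χ, Pool.Agent.Lib.TFW.Adm χ →
        Pool.Agent.Lib.TFW.En cTF R (Pool.Agent.Lib.TFW.chg C (Pool.Agent.Lib.TFW.mus 0 m)) φ
        ≤ Pool.Agent.Lib.TFW.En cTF R
          (Pool.Agent.Lib.TFW.chg C (Pool.Agent.Lib.TFW.mus 0 m)) χ + δ1 := by
      intro χ hχ
      rw [← hEn _ _ hφ, ← hEn _ _ hχ]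
      have := h0 χ hχ
      linarith
    have h1 := (htr Λ h K R C P hh hhZ 0 m le_rfl (by norm_num) hm0 cTF hcTF.le φ hφ
      (hnear K R C P 0 le_rfl (by norm_num) φ hφ hmin)).1
    exact h1.trans hφN
  · intro ψ hψ ε hε
    have hδ : 0 < min (ε / 2) δ1 := lt_min (half_pos hε) hδ1
    obtain ⟨ψ0, hψ0, h0⟩ := near_min (hB (1/2) (by norm_num) le_rfl) hδ
    have hmin : ∀ χ, Pool.Agent.Lib.TFW.Adm χ →
        Pool.Agent.Lib.TFW.En cTF R (Pool.Agent.Lib.TFW.chg C (Pool.Agent.Lib.TFW.mus (1/2) m)) ψ0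
        ≤ Pool.Agent.Lib.TFW.En cTF R
          (Pool.Agent.Lib.TFW.chg C (Pool.Agent.Lib.TFW.mus (1/2) m)) χ + δ1 := by
      intro χ hχ
      rw [← hEn _ _ hψ0, ← hEn _ _ hχ]
      have := h0 χ hχ
      have := min_le_right (ε / 2) δ1
      linarith
    obtain ⟨φ, hφ, h1, h2⟩ := (htr Λ h K R C P hh hhZ (1/2) m (by norm_num) le_rfl hm0 cTF
      hcTF.le ψ0 hψ0 (hnear K R C P (1/2) (by norm_num) le_rfl ψ0 hψ0 hmin)).2
    refine ⟨φ, hφ, h1, ?_⟩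
    rw [← hEn _ _ hφ, ← hEn _ _ hψ0] at h2
    have h3 := h0 ψ hψ
    have h4 := min_le_left (ε / 2) δ1
    linarith
  · rw [Pool.Agent.Lib.TFW.chg_sum hm0 P]
    linarith
  · intro w hw0 hw1
    have hmono : ∀ ψ, Trial ψ →
        Pool.Agent.Lib.TFW.En cTF R (Pool.Agent.Lib.TFW.chg C (Pool.Agent.Lib.TFW.mus (1/2) m)) ψ ≤
        Pool.Agent.Lib.TFW.En cTF R w ψ := by
      intro ψ _
      unfold Pool.Agent.Lib.TFW.En
      have h1 : ∑ j, w j * Pool.Agent.Lib.TFW.U (Pool.Agent.Lib.TFW.sq ψ) (R j) ≤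
          ∑ j, Pool.Agent.Lib.TFW.chg C (Pool.Agent.Lib.TFW.mus (1/2) m) j *
            Pool.Agent.Lib.TFW.U (Pool.Agent.Lib.TFW.sq ψ) (R j) := by
        apply Finset.sum_le_sum
        intro j _
        exact mul_le_mul_of_nonneg_right (hw1 j)
          (Pool.Agent.Lib.TFW.U_nonneg (Pool.Agent.Lib.TFW.sq_nonneg' ψ) _)
      linarith
    constructor
    · obtain ⟨N, hN, hfin⟩ := Pool.Agent.Lib.TFW.finite_mass R w hw0 hcTF.le
        (C2 := 4 * (2 * Pool.Agent.Lib.TFW.D Pool.Agent.Lib.TFW.mu0 Pool.Agent.Lib.TFW.mu0 + 1))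
        (by
          intro ψ hψ h0
          have h1 := Pool.Agent.Lib.TFW.apriori P hh hhZ (by norm_num : (0:ℝ) ≤ 1/2) le_rfl hm
            hcTF.le hψ
          have h2 := Pool.Agent.Lib.TFW.Kin_nonneg ψ
          have h3 := hmono ψ hψ
          linarith)
      refine ⟨N, hN, ?_⟩
      intro ψ hψ ε hε
      obtain ⟨φ, hφ, h1, h2⟩ := hfin ψ hψ
      refine ⟨φ, hφ, h1, ?_⟩
      rw [hEn _ _ hφ, hEn _ _ hψ]
      linarith
    · refine ⟨-(2 * Pool.Agent.Lib.TFW.D Pool.Agent.Lib.TFW.mu0 Pool.Agent.Lib.TFW.mu0 + 1), ?_⟩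
      intro ψ hψ
      have h1 := hB (1/2) (by norm_num) le_rfl ψ hψ
      rw [hEn _ _ hψ] at h1 ⊢
      exact h1.trans (hmono ψ hψ)

/-! ### The result -/

theorem suff_down (A γ : ℝ) {K : ℕ} (R : Fin K → E3) (z : Fin K → ℝ) {α b : ℝ} (hα : 0 < α)
    (hb : 0 < b) {N : ℝ}
    (h : Suff A γ (fun j => b⁻¹ • R j) (fun j => α ^ 6 / b ^ 3 * z j) N) :
    Suff (A * (b ^ 4 / α ^ 6)) (γ * (b ^ 2 / α ^ 2)) R z (N / (α ^ 6 / b ^ 3)) := by
  intro φ hφ ε hε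
  have hc : 0 < α ^ 12 / b ^ 5 := by positivity
  have hk : 0 < α ^ 6 / b ^ 3 := by positivity
  obtain ⟨ψ, hψ, h1, h2⟩ := h _ (S_trial (a := α ^ 3) hb.ne' hφ) (α ^ 12 / b ^ 5 * ε) (by positivity)
  have hψ' : Trial (S (α ^ 3)⁻¹ b⁻¹ ψ) := S_trial (inv_ne_zero hb.ne') hψ
  have he : S (α ^ 3) b (S (α ^ 3)⁻¹ b⁻¹ ψ) = ψ := S_inv (by positivity) hb.ne' ψ
  refine ⟨S (α ^ 3)⁻¹ b⁻¹ ψ, hψ', ?_, ?_⟩
  · have h3 := S_mass (a := α ^ 3) hb (S (α ^ 3)⁻¹ b⁻¹ ψ)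
    rw [he] at h3
    rw [le_div_iff₀ hk]
    calc _ = (α ^ 3) ^ 2 * (b ^ 3)⁻¹ * ∫ x, S (α ^ 3)⁻¹ b⁻¹ ψ x ^ 2 := by
          field_simp
      _ = ∫ x, ψ x ^ 2 := h3.symm
      _ ≤ N := h1
  · have h3 := energy_S A γ R z hα hb (S (α ^ 3)⁻¹ b⁻¹ ψ)
    have h4 := energy_S A γ R z hα hb φ
    rw [he] at h3
    rw [h3, h4, ← mul_add] at h2
    exact lt_of_mul_lt_mul_left h2 hc.le

theorem suff_up (A γ : ℝ) {K : ℕ} (R : Fin K → E3) (z : Fin K → ℝ) {α b : ℝ} (hα : 0 < α)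
    (hb : 0 < b) {N : ℝ} (h : Suff (A * (b ^ 4 / α ^ 6)) (γ * (b ^ 2 / α ^ 2)) R z N) :
    Suff A γ (fun j => b⁻¹ • R j) (fun j => α ^ 6 / b ^ 3 * z j) (α ^ 6 / b ^ 3 * N) := by
  intro ψ hψ ε hε
  have hc : 0 < α ^ 12 / b ^ 5 := by positivity
  have hψ' : Trial (S (α ^ 3)⁻¹ b⁻¹ ψ) := S_trial (inv_ne_zero hb.ne') hψ
  have he : S (α ^ 3) b (S (α ^ 3)⁻¹ b⁻¹ ψ) = ψ := S_inv (by positivity) hb.ne' ψ
  obtain ⟨φ, hφ, h1, h2⟩ := h _ hψ' (ε / (α ^ 12 / b ^ 5)) (by positivity)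
  refine ⟨S (α ^ 3) b φ, S_trial hb.ne' hφ, ?_, ?_⟩
  · rw [S_mass hb]
    calc _ = α ^ 6 / b ^ 3 * ∫ x, φ x ^ 2 := by field_simp
      _ ≤ α ^ 6 / b ^ 3 * N := mul_le_mul_of_nonneg_left h1 (by positivity)
  · have h3 := energy_S A γ R z hα hb (S (α ^ 3)⁻¹ b⁻¹ ψ)
    rw [he] at h3
    rw [h3, energy_S A γ R z hα hb φ]
    have h4 := mul_lt_mul_of_pos_left h2 hc
    calc _ < _ := h4
      _ = _ := by
        rw [mul_add]
        congr 1
        field_simp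

/-- For all constants: raising a single charge can lower the excess charge. -/
theorem single_charge (A γ : ℝ) (hA : 0 < A) (hγ : 0 < γ) :
    ∃ (K : ℕ) (R : Fin K → E3) (z : Fin K → ℝ) (j : Fin K) (t : ℝ), Function.Injective R ∧
      (∀ i, 0 < z i) ∧ z j < t ∧
      ⊥ < groundEnergy A γ R z ∧ criticalNumber A γ R z < ⊤ ∧
      ⊥ < groundEnergy A γ R (Function.update z j t) ∧
      criticalNumber A γ R (Function.update z j t) < ⊤ ∧
      excessCharge A γ R (Function.update z j t) < excessCharge A γ R z := by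
  obtain ⟨γ0, K, R0, z0, z1, N0, hγ0, hinj, hpos, hle, hN0, hlow, hup, hsum, hfin⟩ := base
  -- the scaling parameters
  obtain ⟨α, b, hα, hb, e1, e2⟩ : ∃ α b : ℝ, 0 < α ∧ 0 < b ∧ A * (b ^ 4 / α ^ 6) = 1 ∧
      γ * (b ^ 2 / α ^ 2) = γ0 := by
    have hq : 0 < γ0 / γ := by positivity
    have hs2 : Real.sqrt A ^ 2 = A := Real.sq_sqrt hA.le
    have hs : 0 < Real.sqrt A := Real.sqrt_pos.2 hA
    have hr2 : Real.sqrt (γ0 / γ) ^ 2 = γ0 / γ := Real.sq_sqrt hq.le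
    have hr : 0 < Real.sqrt (γ0 / γ) := Real.sqrt_pos.2 hq
    refine ⟨Real.sqrt A * (γ0 / γ), Real.sqrt A * (γ0 / γ) * Real.sqrt (γ0 / γ), by positivity,
      by positivity, ?_, ?_⟩
    · have h1 : A * ((Real.sqrt A * (γ0 / γ) * Real.sqrt (γ0 / γ)) ^ 4 /
          (Real.sqrt A * (γ0 / γ)) ^ 6) =
          A * (Real.sqrt (γ0 / γ) ^ 2) ^ 2 / (Real.sqrt A ^ 2 * (γ0 / γ) ^ 2) := by
        field_simp
      rw [h1, hs2, hr2]
      field_simp
    · have h1 : γ * ((Real.sqrt A * (γ0 / γ) * Real.sqrt (γ0 / γ)) ^ 2 /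
          (Real.sqrt A * (γ0 / γ)) ^ 2) = γ * (Real.sqrt (γ0 / γ) ^ 2) := by
        field_simp
      rw [h1, hr2]
      field_simp
  set k : ℝ := α ^ 6 / b ^ 3 with hk
  have hk0 : 0 < k := by positivity
  set R : Fin K → E3 := fun j => b⁻¹ • R0 j with hR
  set w0 : Fin K → ℝ := fun j => k * z0 j with hw0
  set w1 : Fin K → ℝ := fun j => k * z1 j with hw1
  have hRinj : Function.Injective R := by
    intro i j h
    apply hinj
    simp only [hR] at h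
    exact smul_right_injective E3 (inv_ne_zero hb.ne') h
  have hw0pos : ∀ j, 0 < w0 j := fun j => mul_pos hk0 (hpos j)
  have hw : w0 ≤ w1 := fun j => mul_le_mul_of_nonneg_left (hle j) hk0.le
  have hs : ∑ j, w0 j + k * (2 / 5) ≤ ∑ j, w1 j := by
    simp only [hw0, hw1, ← Finset.mul_sum, ← mul_add]
    exact mul_le_mul_of_nonneg_left hsum hk0.le
  have hlo : ((k * (N0 - 1 / 10) : ℝ) : EReal) ≤ criticalNumber A γ R w0 := by
    unfold criticalNumber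
    refine le_iInf ?_
    rintro ⟨N, _, hN⟩
    rw [suff_iff] at hN
    have h1 := suff_down A γ R0 z0 hα hb hN
    rw [e1, e2] at h1
    have h2 := hlow _ h1
    rw [le_div_iff₀ (by positivity)] at h2
    rw [EReal.coe_le_coe_iff]
    simp only
    linarith
  have hhi : criticalNumber A γ R w1 ≤ ((k * (N0 + 1 / 10) : ℝ) : EReal) := by
    unfold criticalNumber
    have h1 : Suff A γ R w1 (k * (N0 + 1 / 10)) := by
      apply suff_up A γ R0 z1 hα hb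
      rw [e1, e2]
      exact hup
    exact iInf_le (fun N : {N : ℝ // 0 ≤ N ∧ groundEnergyLe A γ R w1 N = groundEnergy A γ R w1} =>
      ((N.1 : ℝ) : EReal)) ⟨k * (N0 + 1 / 10), by positivity, (suff_iff A γ R w1 _).2 h1⟩
  have hlt : excessCharge A γ R w1 < excessCharge A γ R w0 := by
    unfold excessCharge
    calc criticalNumber A γ R w1 - ((∑ j, w1 j : ℝ) : EReal)
        ≤ ((k * (N0 + 1 / 10) : ℝ) : EReal) - ((∑ j, w1 j : ℝ) : EReal) :=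
          EReal.sub_le_sub hhi le_rfl
      _ = ((k * (N0 + 1 / 10) - ∑ j, w1 j : ℝ) : EReal) := by rw [EReal.coe_sub]
      _ < ((k * (N0 - 1 / 10) - ∑ j, w0 j : ℝ) : EReal) := by
          rw [EReal.coe_lt_coe_iff]
          nlinarith
      _ = ((k * (N0 - 1 / 10) : ℝ) : EReal) - ((∑ j, w0 j : ℝ) : EReal) := by rw [EReal.coe_sub]
      _ ≤ criticalNumber A γ R w0 - ((∑ j, w0 j : ℝ) : EReal) := EReal.sub_le_sub hlo le_rfl
  -- finiteness for all charges below `w1`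
  have hfinite : ∀ w : Fin K → ℝ, (∀ j, 0 ≤ w j) → w ≤ w1 →
      ⊥ < groundEnergy A γ R w ∧ criticalNumber A γ R w < ⊤ := by
    intro w hwp hwle
    set v : Fin K → ℝ := fun j => w j / k with hv
    have hwv : w = fun j => α ^ 6 / b ^ 3 * v j := by
      ext j
      simp only [hv]
      rw [← hk]
      field_simp
    have hv0 : ∀ j, 0 ≤ v j := fun j => div_nonneg (hwp j) hk0.le
    have hv1 : v ≤ z1 := by
      intro j
      simp only [hv]
      rw [div_le_iff₀ hk0, mul_comm]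
      exact hwle j
    obtain ⟨⟨N, hN, hNs⟩, B, hB⟩ := hfin v hv0 hv1
    constructor
    · have hlb : ((α ^ 12 / b ^ 5 * B : ℝ) : EReal) ≤ groundEnergy A γ R w := by
        unfold groundEnergy
        refine le_iInf ?_
        rintro ⟨ψ, hψ⟩
        rw [EReal.coe_le_coe_iff]
        have hψ' : Trial (S (α ^ 3)⁻¹ b⁻¹ ψ) := S_trial (inv_ne_zero hb.ne') hψ
        have he : S (α ^ 3) b (S (α ^ 3)⁻¹ b⁻¹ ψ) = ψ := S_inv (by positivity) hb.ne' ψ
        have h3 := energy_S A γ R0 v hα hb (S (α ^ 3)⁻¹ b⁻¹ ψ)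
        rw [he, e1, e2, ← hwv] at h3
        simp only
        rw [h3]
        exact mul_le_mul_of_nonneg_left (hB _ hψ') (by positivity)
      exact (EReal.bot_lt_coe _).trans_le hlb
    · have h1 : Suff A γ R w (k * N) := by
        rw [hwv]
        apply suff_up A γ R0 v hα hb
        rw [e1, e2]
        exact hNs
      have h2 : criticalNumber A γ R w ≤ ((k * N : ℝ) : EReal) :=
        iInf_le (fun N : {N : ℝ // 0 ≤ N ∧ groundEnergyLe A γ R w N = groundEnergy A γ R w} =>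
          ((N.1 : ℝ) : EReal)) ⟨k * N, by positivity, (suff_iff A γ R w _).2 h1⟩
      exact h2.trans_lt (EReal.coe_lt_top _)
  obtain ⟨w, j, t, h1, h1', h2', h2, h3⟩ := chain (excessCharge A γ R) hw hlt
  have hwpos : ∀ i, 0 < w i := fun i => (hw0pos i).trans_le (h1 i)
  obtain ⟨f1, f2⟩ := hfinite w (fun i => (hwpos i).le) h1'
  obtain ⟨f3, f4⟩ := hfinite (Function.update w j t)
    (by
      intro i
      by_cases hi : i = j
      · subst hi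
        rw [Function.update_self]
        exact ((hwpos i).trans h2).le
      · rw [Function.update_of_ne hi]
        exact (hwpos i).le)
    (by
      intro i
      by_cases hi : i = j
      · subst hi
        rw [Function.update_self]
        exact h2'
      · rw [Function.update_of_ne hi]
        exact h1' i)
  exact ⟨K, R, w, j, t, hRinj, hwpos, h2, f1, f2, f3, f4, h3⟩

end Pool.Agent.Lib.TFW.One
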