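import Pool.Agent.Lib.MP_1526eb_mp.Explicit

set_option autoImplicit false

open MeasureTheory Set Filter Topology

namespace Pool.Agent.Lib.TFW

lemma kk_le_kk1 {e s : ℝ} (he : 0 < e) (hs : 0 ≤ s) :
    kk e s ≤ Real.sqrt (1 + 1 / e) * kk 1 s := by
  have h1 := kk_sq one_pos hs
  have h2 := kk_sq he hs
  have p1 := kk_pos one_pos hs
  have p2 := kk_pos he hs
  have h3 : 1 + s ≤ (1 + 1 / e) * (e + s) := by
    have : (1 + 1 / e) * (e + s) = (1 + s) + e + s / e := by field_simp; ring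
    rw [this]
    have : 0 ≤ s / e := by positivity
    linarith
  have h5 : kk e s ^ 2 ≤ (1 + 1 / e) * kk 1 s ^ 2 := by
    calc kk e s ^ 2 = kk e s ^ 2 * ((1 + s) * kk 1 s ^ 2) := by rw [h1, mul_one]
      _ ≤ kk e s ^ 2 * (((1 + 1 / e) * (e + s)) * kk 1 s ^ 2) := by gcongr
      _ = ((e + s) * kk e s ^ 2) * ((1 + 1 / e) * kk 1 s ^ 2) := by ring
      _ = _ := by rw [h2, one_mul]
  rw [← Real.sqrt_sq p2.le]
  calc Real.sqrt (kk e s ^ 2) ≤ Real.sqrt ((1 + 1 / e) * kk 1 s ^ 2) := Real.sqrt_le_sqrt h5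
    _ = _ := by rw [Real.sqrt_mul (by positivity), Real.sqrt_sq p1.le]

lemma rad_kk {e : ℝ} (he : 0 < e) :
    Rad (kk e) (fun s => -(1/2) * kk e s ^ 3) (fun s => (3/4) * kk e s ^ 5) := by
  have hB : 0 < (Real.sqrt e)⁻¹ := by positivity
  refine ⟨fun s hs => hasDerivAt_kk he hs, fun s hs => ?_, ?_,
    ⟨Real.sqrt (1 + 1 / e), fun s hs => ?_⟩,
    ⟨(Real.sqrt e)⁻¹ * Real.sqrt (1 + 1 / e) ^ 2, fun s hs => ?_⟩,
    ⟨(Real.sqrt e)⁻¹ * Real.sqrt (1 + 1 / e) ^ 2, fun s hs => ?_⟩⟩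
  · refine (((hasDerivAt_kk he hs).pow 3).const_mul (-(1/2))).congr_deriv ?_
    simp only [Nat.cast_ofNat]
    ring
  · exact continuousOn_const.mul
      ((continuousOn_of_deriv fun s hs => hasDerivAt_kk he hs).pow 5)
  · rw [abs_of_pos (kk_pos he hs)]
    exact kk_le_kk1 he hs
  · have p := kk_pos he hs
    have h1 := kk_le_kk1 he hs
    have h2 := kk_le he hs
    rw [abs_mul, abs_of_nonneg (pow_nonneg p.le 3)]
    have h3 := pow_le_pow_left₀ p.le h1 2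
    have h4 : kk e s ^ 3 ≤ (Real.sqrt e)⁻¹ * kk e s ^ 2 := by
      calc kk e s ^ 3 = kk e s * kk e s ^ 2 := by ring
        _ ≤ _ := mul_le_mul_of_nonneg_right h2 (by positivity)
    have h5 : |-(1/2 : ℝ)| ≤ 1 := by norm_num [abs_of_nonneg]
    have h6 := mul_le_mul_of_nonneg_right h5 (pow_nonneg p.le 3)
    have h7 := mul_le_mul_of_nonneg_left h3 hB.le
    rw [mul_pow] at h7
    linarith
  · have p := kk_pos he hs
    have h1 := kk_le_kk1 he hs
    have h2 := kk_le he hs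
    have hk := kk_sq he hs
    rw [abs_of_nonneg (by positivity)]
    have h3 := pow_le_pow_left₀ p.le h1 2
    have h4 : kk e s ^ 3 ≤ (Real.sqrt e)⁻¹ * kk e s ^ 2 := by
      calc kk e s ^ 3 = kk e s * kk e s ^ 2 := by ring
        _ ≤ _ := mul_le_mul_of_nonneg_right h2 (by positivity)
    have h5 : kk e s ^ 5 * s ≤ kk e s ^ 3 := by
      have : kk e s ^ 5 * s ≤ kk e s ^ 3 * ((e + s) * kk e s ^ 2) := by
        have := pow_pos p 5
        nlinarith
      rwa [hk, mul_one] at this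
    have h7 := mul_le_mul_of_nonneg_left h3 hB.le
    rw [mul_pow] at h7
    have h8 : 0 ≤ kk e s ^ 5 * s := by positivity
    linarith

/-- Plummer density with potential `kk e (|x|²)`. -/
noncomputable def gg (e : ℝ) (y : X) : ℝ := (3 * e / om) * kk e (‖y‖ ^ 2) ^ 5

lemma gg_pos {e : ℝ} (he : 0 < e) (y : X) : 0 < gg e y := by
  have := om_pos
  have := kk_pos he (sq_nonneg ‖y‖)
  unfold gg
  positivity

lemma lap_kk {e : ℝ} (he : 0 < e) (x : X) :
    lap (fun s => -(1/2) * kk e s ^ 3) (fun s => (3/4) * kk e s ^ 5) x = -(om * gg e x) := by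
  have ho := om_pos
  have h := kk_sq he (sq_nonneg ‖x‖)
  unfold lap gg
  have h2 : om * ((3 * e / om) * kk e (‖x‖ ^ 2) ^ 5) = 3 * e * kk e (‖x‖ ^ 2) ^ 5 := by
    field_simp
  rw [h2]
  have : kk e (‖x‖ ^ 2) ^ 3 = kk e (‖x‖ ^ 2) ^ 3 * ((e + ‖x‖ ^ 2) * kk e (‖x‖ ^ 2) ^ 2) := by
    rw [h, mul_one]
  linear_combination -3 * this

lemma BI_gg {e : ℝ} (he : 0 < e) : BI (gg e) := by
  have ho := om_pos
  have hc := continuous_kk he (0 : X)
  simp only [sub_zero] at hc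
  have hi := integrable_kk4 he (0 : X)
  simp only [sub_zero] at hi
  have h4 : BI (fun x : X => kk e (‖x‖ ^ 2) ^ 4) := by
    refine ⟨hc.pow 4, hi, (Real.sqrt e)⁻¹ ^ 4, fun x => ?_⟩
    have p := kk_pos he (sq_nonneg ‖x‖)
    rw [abs_of_nonneg (by positivity)]
    exact pow_le_pow_left₀ p.le (kk_le he (sq_nonneg _)) 4
  refine (h4.const_mul ((3 * e / om) * (Real.sqrt e)⁻¹)).mono ?_ fun x => ?_
  · exact continuous_const.mul (hc.pow 5)
  · rw [abs_of_pos (gg_pos he x)]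
    unfold gg
    have p := kk_pos he (sq_nonneg ‖x‖)
    have h2 := kk_le he (sq_nonneg ‖x‖)
    have h3 : kk e (‖x‖ ^ 2) ^ 5 ≤ (Real.sqrt e)⁻¹ * kk e (‖x‖ ^ 2) ^ 4 := by
      calc kk e (‖x‖ ^ 2) ^ 5 = kk e (‖x‖ ^ 2) * kk e (‖x‖ ^ 2) ^ 4 := by ring
        _ ≤ _ := mul_le_mul_of_nonneg_right h2 (by positivity)
    calc (3 * e / om) * kk e (‖x‖ ^ 2) ^ 5 ≤ (3 * e / om) * ((Real.sqrt e)⁻¹ *
          kk e (‖x‖ ^ 2) ^ 4) := mul_le_mul_of_nonneg_left h3 (by positivity)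
      _ = _ := by ring

lemma U_gg {e : ℝ} (he : 0 < e) (x : X) : U (gg e) x = kk e (‖x‖ ^ 2) := by
  have ho := om_pos
  have hl : lap (fun s => -(1/2) * kk e s ^ 3) (fun s => (3/4) * kk e s ^ 5)
      = fun x => -(om * gg e x) := by
    ext x; exact lap_kk he x
  have hb : BI (lap (fun s => -(1/2) * kk e s ^ 3) (fun s => (3/4) * kk e s ^ 5)) := by
    rw [hl]
    exact ((BI_gg he).const_mul om).neg
  have h := poisson (rad_kk he) hb x
  have h2 : (fun y => -lap (fun s => -(1/2) * kk e s ^ 3) (fun s => (3/4) * kk e s ^ 5) y)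
      = fun y => om * gg e y := by
    ext y; rw [lap_kk he]; ring
  rw [h2, U_const_mul] at h
  exact mul_left_cancel₀ ho.ne' h

lemma integral_gg {t : ℝ} (ht : 0 < t) : ∫ y, gg (t ^ 2) y = 1 := by
  have ho := om_pos
  have h := SS_eq (fun _ => 1) (0 : X) ht
  simp only [sub_zero, one_mul] at h
  unfold SS at h
  simp only [one_mul] at h
  have h2 : ∫ z : X, 3 * kk 1 (‖z‖ ^ 2) ^ 5 = om := rfl
  rw [h2] at h
  have h3 : ∀ y, gg (t ^ 2) y = om⁻¹ * (3 * t ^ 2 * kk (t ^ 2) (‖y‖ ^ 2) ^ 5) := by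
    intro y
    unfold gg
    ring
  simp only [h3]
  rw [integral_const_mul, h]
  exact inv_mul_cancel₀ ho.ne'

lemma D_gg_right {e : ℝ} (he : 0 < e) {f : X → ℝ} :
    D f (gg e) = ∫ x, f x * kk e (‖x‖ ^ 2) := by
  rw [D_eq_U]
  congr 1
  ext x
  rw [U_gg he]

lemma D_gg_self {t : ℝ} (ht : 0 < t) : D (gg (t ^ 2)) (gg (t ^ 2)) ≤ t⁻¹ := by
  have he : 0 < t ^ 2 := by positivity
  rw [D_gg_right he]
  have hb := BI_gg he
  calc ∫ x, gg (t ^ 2) x * kk (t ^ 2) (‖x‖ ^ 2) ≤ ∫ x, gg (t ^ 2) x * t⁻¹ := by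
        have hi : Integrable (fun x => gg (t ^ 2) x * kk (t ^ 2) (‖x‖ ^ 2)) := by
          have := integrable_mul_U hb hb
          simpa only [U_gg he] using this
        apply integral_mono hi (hb.int.mul_const _)
        intro x
        simp only
        apply mul_le_mul_of_nonneg_left _ (gg_pos he x).le
        have := kk_le he (sq_nonneg ‖x‖)
        rwa [Real.sqrt_sq ht.le] at this
    _ = t⁻¹ := by rw [integral_mul_const, integral_gg ht, one_mul]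

/-- Testing against a Plummer potential `t/√(t²+|x|²)`. -/
lemma plummer_test {t : ℝ} (ht : 0 < t) {f : X → ℝ} (hf : BI f) :
    |∫ x, f x * (t * kk (t ^ 2) (‖x‖ ^ 2))| ≤ Real.sqrt (t * D f f) := by
  have he : 0 < t ^ 2 := by positivity
  have h1 : ∫ x, f x * (t * kk (t ^ 2) (‖x‖ ^ 2)) = t * D f (gg (t ^ 2)) := by
    rw [D_gg_right he, ← integral_const_mul]
    congr 1
    ext x
    ring
  rw [h1]
  apply Real.abs_le_sqrt
  have h2 := D_sq_le hf (BI_gg he)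
  have h3 := D_gg_self ht
  have h4 := D_self_nonneg hf
  have h5 := mul_le_mul_of_nonneg_left h3 h4
  have h6 : D f (gg (t ^ 2)) ^ 2 ≤ D f f * t⁻¹ := h2.trans h5
  calc (t * D f (gg (t ^ 2))) ^ 2 = t ^ 2 * D f (gg (t ^ 2)) ^ 2 := by ring
    _ ≤ t ^ 2 * (D f f * t⁻¹) := mul_le_mul_of_nonneg_left h6 (by positivity)
    _ = t * D f f := by field_simp

/-- Basic bounds for the Plummer profile. -/
lemma plummer_le_one {t : ℝ} (ht : 0 < t) {s : ℝ} (hs : 0 ≤ s) : t * kk (t ^ 2) s ≤ 1 := by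
  have := kk_le (by positivity : 0 < t ^ 2) hs
  rw [Real.sqrt_sq ht.le] at this
  calc t * kk (t ^ 2) s ≤ t * t⁻¹ := mul_le_mul_of_nonneg_left this ht.le
    _ = 1 := mul_inv_cancel₀ ht.ne'

lemma kk_le_inv_norm {e : ℝ} (he : 0 < e) {x : X} (hx : x ≠ 0) : kk e (‖x‖ ^ 2) ≤ ‖x‖⁻¹ := by
  have := norm_mul_kk he x
  have hp : 0 < ‖x‖ := norm_pos_iff.2 hx
  rw [inv_eq_one_div, le_div_iff₀ hp]
  linarith

end Pool.Agent.Lib.TFW
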