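import Pool.Agent.Lib.MP_1526eb_mp.Positivity
import Pool.Agent.Lib.MP_1526eb_mp.IBP

set_option autoImplicit false

open MeasureTheory Set Filter Topology

namespace Pool.Agent.Lib.TFW

/-- Regularised kernel `(e+s)^(-1/2)`. -/
noncomputable def kk (e s : ℝ) : ℝ := (Real.sqrt (e + s))⁻¹

lemma kk_pos {e s : ℝ} (he : 0 < e) (hs : 0 ≤ s) : 0 < kk e s := by
  unfold kk; positivity

lemma kk_sq {e s : ℝ} (he : 0 < e) (hs : 0 ≤ s) : (e + s) * kk e s ^ 2 = 1 := by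
  unfold kk
  rw [inv_pow, Real.sq_sqrt (by positivity)]
  exact mul_inv_cancel₀ (by positivity)

lemma kk_anti {e E s : ℝ} (he : 0 < e) (hE : e ≤ E) (hs : 0 ≤ s) : kk E s ≤ kk e s := by
  unfold kk
  apply inv_anti₀ (by positivity)
  exact Real.sqrt_le_sqrt (by linarith)

lemma hasDerivAt_kk {e s : ℝ} (he : 0 < e) (hs : 0 ≤ s) :
    HasDerivAt (kk e) (-(1/2) * kk e s ^ 3) s := by
  have h1 : HasDerivAt (fun s : ℝ => e + s) 1 s := by
    simpa using (hasDerivAt_id s).const_add e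
  have h2 := (h1.sqrt (by positivity)).inv (by positivity : Real.sqrt (e + s) ≠ 0)
  refine h2.congr_deriv ?_
  unfold kk
  have h3 : Real.sqrt (e + s) ≠ 0 := by positivity
  field_simp

lemma kk_diff1 {e E s : ℝ} (he : 0 < e) (hE : e ≤ E) (hs : 0 ≤ s) :
    kk e s - kk E s ≤ E * kk e s ^ 3 := by
  have hk := kk_pos he hs
  have hl := kk_pos (he.trans_le hE) hs
  have hlk := kk_anti he hE hs
  have h1 := kk_sq he hs
  have h2 := kk_sq (he.trans_le hE) hs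
  set k := kk e s
  set l := kk E s
  have h3 : (k - l) * (k + l) = (E - e) * (k ^ 2 * l ^ 2) := by
    have : (k - l) * (k + l) = k ^ 2 * ((E + s) * l ^ 2) - l ^ 2 * ((e + s) * k ^ 2) := by
      rw [h1, h2]; ring
    rw [this]; ring
  have h4 : (k - l) * k ≤ (k - l) * (k + l) :=
    mul_le_mul_of_nonneg_left (by linarith) (by linarith)
  have h5 : (E - e) * (k ^ 2 * l ^ 2) ≤ E * (k ^ 2 * k ^ 2) := by
    apply mul_le_mul (by linarith) _ (by positivity) (by linarith)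
    apply mul_le_mul_of_nonneg_left _ (by positivity)
    exact pow_le_pow_left₀ hl.le hlk 2
  have h6 : (k - l) * k ≤ (E * k ^ 3) * k := by nlinarith
  exact le_of_mul_le_mul_right h6 hk

lemma kk_diff3 {e E s : ℝ} (he : 0 < e) (hE : e ≤ E) (hs : 0 ≤ s) :
    kk e s ^ 3 - kk E s ^ 3 ≤ 3 * E * kk e s ^ 5 := by
  have hk := kk_pos he hs
  have hl := kk_pos (he.trans_le hE) hs
  have hlk := kk_anti he hE hs
  have h1 := kk_diff1 he hE hs
  set k := kk e s
  set l := kk E s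
  have h2 : k ^ 3 - l ^ 3 = (k - l) * (k ^ 2 + k * l + l ^ 2) := by ring
  have h3 : k ^ 2 + k * l + l ^ 2 ≤ 3 * k ^ 2 := by nlinarith
  rw [h2]
  calc (k - l) * (k ^ 2 + k * l + l ^ 2) ≤ (E * k ^ 3) * (3 * k ^ 2) := by
        apply mul_le_mul h1 h3 (by positivity)
        have : 0 < E := he.trans_le hE
        positivity
    _ = 3 * E * k ^ 5 := by ring

lemma kk_diff5 {e E s : ℝ} (he : 0 < e) (hE : e ≤ E) (hs : 0 ≤ s) :
    kk e s ^ 5 - kk E s ^ 5 ≤ 5 * E * kk e s ^ 7 := by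
  have hk := kk_pos he hs
  have hl := kk_pos (he.trans_le hE) hs
  have hlk := kk_anti he hE hs
  have h1 := kk_diff1 he hE hs
  set k := kk e s
  set l := kk E s
  have h2 : k ^ 5 - l ^ 5 = (k - l) * (k ^ 4 + k ^ 3 * l + k ^ 2 * l ^ 2 + k * l ^ 3 + l ^ 4) := by
    ring
  have h3 : k ^ 4 + k ^ 3 * l + k ^ 2 * l ^ 2 + k * l ^ 3 + l ^ 4 ≤ 5 * k ^ 4 := by
    have a1 : k ^ 3 * l ≤ k ^ 3 * k := mul_le_mul_of_nonneg_left hlk (by positivity)
    have a2 : k ^ 2 * l ^ 2 ≤ k ^ 2 * k ^ 2 :=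
      mul_le_mul_of_nonneg_left (pow_le_pow_left₀ hl.le hlk 2) (by positivity)
    have a3 : k * l ^ 3 ≤ k * k ^ 3 :=
      mul_le_mul_of_nonneg_left (pow_le_pow_left₀ hl.le hlk 3) (by positivity)
    have a4 : l ^ 4 ≤ k ^ 4 := pow_le_pow_left₀ hl.le hlk 4
    nlinarith
  rw [h2]
  calc (k - l) * (k ^ 4 + k ^ 3 * l + k ^ 2 * l ^ 2 + k * l ^ 3 + l ^ 4)
      ≤ (E * k ^ 3) * (5 * k ^ 4) := by
        apply mul_le_mul h1 h3 (by positivity)
        have : 0 < E := he.trans_le hE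
        positivity
    _ = 5 * E * k ^ 7 := by ring

lemma integrable_kk4 {e : ℝ} (he : 0 < e) (x : X) :
    Integrable (fun y : X => kk e (‖y - x‖ ^ 2) ^ 4) := by
  have h := (integrable_japanese4.comp_sub_right x).const_mul ((1 + 1 / e) ^ 2)
  refine h.mono' ?_ (Eventually.of_forall fun y => ?_)
  · apply Continuous.aestronglyMeasurable
    unfold kk
    apply Continuous.pow
    apply Continuous.inv₀ (by fun_prop)
    intro y
    positivity
  · have h1 : kk e (‖y - x‖ ^ 2) ^ 4 = ((e + ‖y - x‖ ^ 2) ^ 2)⁻¹ := by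
      unfold kk
      rw [inv_pow]
      congr 1
      rw [show (4:ℕ) = 2 * 2 by norm_num, pow_mul, Real.sq_sqrt (by positivity)]
    rw [Real.norm_eq_abs, abs_of_nonneg (by rw [h1]; positivity), h1]
    rw [← div_eq_mul_inv, inv_eq_one_div, div_le_div_iff₀ (by positivity) (by positivity), one_mul,
      ← mul_pow]
    apply pow_le_pow_left₀ (by positivity)
    have h2 : (1 + 1 / e) * (e + ‖y - x‖ ^ 2) = (1 + ‖y - x‖ ^ 2) + e + ‖y - x‖ ^ 2 / e := by
      field_simp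
      ring
    rw [h2]
    have h3 : 0 ≤ ‖y - x‖ ^ 2 / e := by positivity
    linarith

lemma continuous_kk {e : ℝ} (he : 0 < e) (x : X) :
    Continuous (fun y : X => kk e (‖y - x‖ ^ 2)) := by
  unfold kk
  apply Continuous.inv₀ (by fun_prop)
  intro y
  positivity

lemma kk_le {e s : ℝ} (he : 0 < e) (hs : 0 ≤ s) : kk e s ≤ (Real.sqrt e)⁻¹ := by
  unfold kk
  apply inv_anti₀ (by positivity)
  exact Real.sqrt_le_sqrt (by linarith)

lemma norm_mul_kk {e : ℝ} (he : 0 < e) (v : X) : ‖v‖ * kk e (‖v‖ ^ 2) ≤ 1 := by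
  have h1 := kk_sq he (sq_nonneg ‖v‖)
  have h2 := kk_pos he (sq_nonneg ‖v‖)
  have h3 : (‖v‖ * kk e (‖v‖ ^ 2)) ^ 2 ≤ 1 := by
    rw [mul_pow]
    nlinarith [sq_nonneg (kk e (‖v‖ ^ 2))]
  exact (sq_le_one_iff₀ (by positivity)).1 h3

/-- Data of a radial function `F(|x|²)` with decaying derivatives. -/
structure Rad (F F1 F2 : ℝ → ℝ) : Prop where
  d1 : ∀ s, 0 ≤ s → HasDerivAt F (F1 s) s
  d2 : ∀ s, 0 ≤ s → HasDerivAt F1 (F2 s) s
  c2 : ContinuousOn F2 (Ici 0)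
  b0 : ∃ C, ∀ s, 0 ≤ s → |F s| ≤ C * kk 1 s
  b1 : ∃ C, ∀ s, 0 ≤ s → |F1 s| ≤ C * kk 1 s ^ 2
  b2 : ∃ C, ∀ s, 0 ≤ s → |F2 s| * s ≤ C * kk 1 s ^ 2

/-- The Laplacian of `F(|x|²)`. -/
noncomputable def lap (F1 F2 : ℝ → ℝ) (x : X) : ℝ := 6 * F1 (‖x‖ ^ 2) + 4 * F2 (‖x‖ ^ 2) * ‖x‖ ^ 2

/-- The normalising constant (equal to `4π`). -/
noncomputable def om : ℝ := ∫ z : X, 3 * kk 1 (‖z‖ ^ 2) ^ 5

lemma integrable_kk5 : Integrable (fun z : X => 3 * kk 1 (‖z‖ ^ 2) ^ 5) := by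
  have h := (integrable_kk4 one_pos (0 : X)).const_mul 3
  simp only [sub_zero] at h
  refine h.mono' ?_ (Eventually.of_forall fun z => ?_)
  · have := continuous_kk one_pos (0 : X)
    simp only [sub_zero] at this
    exact (continuous_const.mul (this.pow 5)).aestronglyMeasurable
  · have h1 := kk_pos one_pos (sq_nonneg ‖z‖)
    have h2 := kk_le one_pos (sq_nonneg ‖z‖)
    simp only [Real.sqrt_one, inv_one] at h2
    rw [Real.norm_eq_abs, abs_of_nonneg (by positivity)]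
    have : kk 1 (‖z‖ ^ 2) ^ 5 ≤ kk 1 (‖z‖ ^ 2) ^ 4 :=
      pow_le_pow_of_le_one h1.le h2 (by norm_num)
    linarith

lemma om_pos : 0 < om := by
  unfold om
  rw [integral_pos_iff_support_of_nonneg _ integrable_kk5]
  · have : (Function.support fun z : X => 3 * kk 1 (‖z‖ ^ 2) ^ 5) = univ := by
      ext z
      have := kk_pos one_pos (sq_nonneg ‖z‖)
      simp [this.ne']
    rw [this]
    simp
  · intro z
    have := kk_pos one_pos (sq_nonneg ‖z‖)
    simp only [Pi.zero_apply]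
    positivity

section
variable {F F1 F2 : ℝ → ℝ}

lemma Rad.contDiff (h : Rad F F1 F2) : ContDiff ℝ 1 (fun y : X => F (‖y‖ ^ 2)) := by
  have hd := fun y => hasFDerivAt_radial h.d1 (0 : X) y
  simp only [sub_zero] at hd
  rw [contDiff_one_iff_fderiv]
  refine ⟨fun y => (hd y).differentiableAt, ?_⟩
  have : (fderiv ℝ fun y : X => F (‖y‖ ^ 2)) = fun y => (2 * F1 (‖y‖ ^ 2)) • (innerSL ℝ y) := by
    ext1 y
    exact (hd y).fderiv
  rw [this]
  have hc := continuous_radial (continuousOn_of_deriv h.d2) (0 : X)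
  simp only [sub_zero] at hc
  exact (continuous_const.mul hc).smul (innerSL ℝ).continuous

lemma Rad.fderiv (h : Rad F F1 F2) (y v : X) :
    fderiv ℝ (fun y : X => F (‖y‖ ^ 2)) y v = 2 * F1 (‖y‖ ^ 2) * inner ℝ y v := by
  have hd := hasFDerivAt_radial h.d1 (0 : X) y
  simp only [sub_zero] at hd
  rw [hd.fderiv]
  simp

lemma Rad.continuous_lap (h : Rad F F1 F2) : Continuous (lap F1 F2) := by
  have hc := continuous_radial (continuousOn_of_deriv h.d2) (0 : X)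
  have hc2 := continuous_radial h.c2 (0 : X)
  simp only [sub_zero] at hc hc2
  unfold lap
  exact (continuous_const.mul hc).add ((continuous_const.mul hc2).mul (continuous_norm.pow 2))

/-- The kernel difference as a `C¹` function. -/
lemma contDiff_kdiff {e E : ℝ} (he : 0 < e) (hE : 0 < E) (x : X) :
    ContDiff ℝ 1 (fun y : X => kk e (‖y - x‖ ^ 2) - kk E (‖y - x‖ ^ 2)) := by
  have hone : ∀ e : ℝ, 0 < e → ContDiff ℝ 1 (fun y : X => kk e (‖y - x‖ ^ 2)) := by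
    intro e he
    have hd := fun y => hasFDerivAt_radial (fun s hs => hasDerivAt_kk he hs) x y
    rw [contDiff_one_iff_fderiv]
    refine ⟨fun y => (hd y).differentiableAt, ?_⟩
    have : (fderiv ℝ fun y : X => kk e (‖y - x‖ ^ 2))
        = fun y => (2 * (-(1/2) * kk e (‖y - x‖ ^ 2) ^ 3)) • (innerSL ℝ (y - x)) := by
      ext1 y
      exact (hd y).fderiv
    rw [this]
    have hc := continuous_kk he x
    exact (continuous_const.mul (continuous_const.mul (hc.pow 3))).smul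
      ((innerSL ℝ).continuous.comp (continuous_id.sub continuous_const))
  exact (hone e he).sub (hone E hE)

lemma fderiv_kdiff {e E : ℝ} (he : 0 < e) (hE : 0 < E) (x y : X) :
    fderiv ℝ (fun y : X => kk e (‖y - x‖ ^ 2) - kk E (‖y - x‖ ^ 2)) y
      = (-(kk e (‖y - x‖ ^ 2) ^ 3 - kk E (‖y - x‖ ^ 2) ^ 3)) • (innerSL ℝ (y - x)) := by
  have h1 := hasFDerivAt_radial (fun s hs => hasDerivAt_kk he hs) x y
  have h2 := hasFDerivAt_radial (fun s hs => hasDerivAt_kk hE hs) x y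
  have h3 : HasFDerivAt (fun y : X => kk e (‖y - x‖ ^ 2) - kk E (‖y - x‖ ^ 2)) _ y := h1.sub h2
  rw [h3.fderiv, ← sub_smul]
  congr 1
  ring

lemma kk_compare {e : ℝ} (he : 0 < e) (x y : X) :
    kk 1 (‖y‖ ^ 2) ≤ Real.sqrt (e + 2 * ‖x‖ ^ 2 + 2) * kk e (‖y - x‖ ^ 2) := by
  have h1 := kk_sq one_pos (sq_nonneg ‖y‖)
  have h2 := kk_sq he (sq_nonneg ‖y - x‖)
  have p1 := kk_pos one_pos (sq_nonneg ‖y‖)
  have p2 := kk_pos he (sq_nonneg ‖y - x‖)
  set m := kk 1 (‖y‖ ^ 2)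
  set k := kk e (‖y - x‖ ^ 2)
  have h3 : ‖y - x‖ ^ 2 ≤ 2 * ‖y‖ ^ 2 + 2 * ‖x‖ ^ 2 := by
    have := norm_sub_le y x
    have h5 : ‖y - x‖ ^ 2 ≤ (‖y‖ + ‖x‖) ^ 2 := pow_le_pow_left₀ (norm_nonneg _) this 2
    nlinarith [sq_nonneg (‖y‖ - ‖x‖)]
  have h4 : e + ‖y - x‖ ^ 2 ≤ (e + 2 * ‖x‖ ^ 2 + 2) * (1 + ‖y‖ ^ 2) := by
    nlinarith [sq_nonneg ‖y‖, sq_nonneg ‖x‖, mul_nonneg he.le (sq_nonneg ‖y‖),
      mul_nonneg (sq_nonneg ‖x‖) (sq_nonneg ‖y‖)]
  have h5 : m ^ 2 ≤ (e + 2 * ‖x‖ ^ 2 + 2) * k ^ 2 := by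
    calc m ^ 2 = m ^ 2 * ((e + ‖y - x‖ ^ 2) * k ^ 2) := by rw [h2, mul_one]
      _ ≤ m ^ 2 * (((e + 2 * ‖x‖ ^ 2 + 2) * (1 + ‖y‖ ^ 2)) * k ^ 2) := by gcongr
      _ = ((1 + ‖y‖ ^ 2) * m ^ 2) * ((e + 2 * ‖x‖ ^ 2 + 2) * k ^ 2) := by ring
      _ = (e + 2 * ‖x‖ ^ 2 + 2) * k ^ 2 := by rw [h1, one_mul]
  have h6 : m = Real.sqrt (m ^ 2) := (Real.sqrt_sq p1.le).symm
  rw [h6]
  calc Real.sqrt (m ^ 2) ≤ Real.sqrt ((e + 2 * ‖x‖ ^ 2 + 2) * k ^ 2) := Real.sqrt_le_sqrt h5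
    _ = Real.sqrt (e + 2 * ‖x‖ ^ 2 + 2) * k := by
        rw [Real.sqrt_mul (by positivity), Real.sqrt_sq p2.le]

/-- Green's identity against a kernel difference. -/
lemma green (h : Rad F F1 F2) (x : X) {e E : ℝ} (he : 0 < e) (hE : e ≤ E) :
    ∫ y, (kk e (‖y - x‖ ^ 2) - kk E (‖y - x‖ ^ 2)) * lap F1 F2 y
      = ∫ y, F (‖y‖ ^ 2) * (-(3 * e * kk e (‖y - x‖ ^ 2) ^ 5)
          + 3 * E * kk E (‖y - x‖ ^ 2) ^ 5) := by
  have hE0 : 0 < E := he.trans_le hE
  obtain ⟨C0, hC0⟩ := h.b0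
  obtain ⟨C1, hC1⟩ := h.b1
  obtain ⟨C2, hC2⟩ := h.b2
  have n0 : 0 ≤ C0 := by
    have := (abs_nonneg _).trans (hC0 0 le_rfl)
    exact nonneg_of_mul_nonneg_left this (kk_pos one_pos le_rfl)
  have n1 : 0 ≤ C1 := by
    have := (abs_nonneg _).trans (hC1 0 le_rfl)
    exact nonneg_of_mul_nonneg_left this (pow_pos (kk_pos one_pos le_rfl) 2)
  have n2 : 0 ≤ C2 := by
    have : 0 ≤ C2 * kk 1 0 ^ 2 := by simpa using hC2 0 le_rfl
    exact nonneg_of_mul_nonneg_left this (pow_pos (kk_pos one_pos le_rfl) 2)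
  set c := Real.sqrt (e + 2 * ‖x‖ ^ 2 + 2) with hc
  have hc0 : 0 ≤ c := Real.sqrt_nonneg _
  set B := (Real.sqrt e)⁻¹ with hB
  have hB0 : 0 ≤ B := by positivity
  -- continuity facts
  have ke := continuous_kk he x
  have kE := continuous_kk hE0 x
  have cF := continuous_radial (continuousOn_of_deriv h.d1) (0 : X)
  have cF1 := continuous_radial (continuousOn_of_deriv h.d2) (0 : X)
  have cF2 := continuous_radial h.c2 (0 : X)
  simp only [sub_zero] at cF cF1 cF2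
  have cn : Continuous (fun y : X => ‖y‖) := continuous_norm
  have cnx : Continuous (fun y : X => ‖y - x‖) := by fun_prop
  have hK := contDiff_kdiff he hE0 x
  have hfK := fderiv_kdiff he hE0 x
  have dom := integrable_kk4 he x
  -- pointwise data
  have kp : ∀ y : X, 0 < kk e (‖y - x‖ ^ 2) := fun y => kk_pos he (sq_nonneg _)
  have lp : ∀ y : X, 0 < kk E (‖y - x‖ ^ 2) := fun y => kk_pos hE0 (sq_nonneg _)
  have lk : ∀ y : X, kk E (‖y - x‖ ^ 2) ≤ kk e (‖y - x‖ ^ 2) :=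
    fun y => kk_anti he hE (sq_nonneg _)
  have kB : ∀ y : X, kk e (‖y - x‖ ^ 2) ≤ B := fun y => kk_le he (sq_nonneg _)
  have mk : ∀ y : X, kk 1 (‖y‖ ^ 2) ≤ c * kk e (‖y - x‖ ^ 2) := fun y => kk_compare he x y
  have mp : ∀ y : X, 0 < kk 1 (‖y‖ ^ 2) := fun y => kk_pos one_pos (sq_nonneg _)
  have ny : ∀ y : X, ‖y‖ * kk 1 (‖y‖ ^ 2) ≤ 1 := fun y => norm_mul_kk one_pos y
  have nx : ∀ y : X, ‖y - x‖ * kk e (‖y - x‖ ^ 2) ≤ 1 := fun y => norm_mul_kk he (y - x)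
  have d1 : ∀ y : X, |kk e (‖y - x‖ ^ 2) - kk E (‖y - x‖ ^ 2)| ≤ E * kk e (‖y - x‖ ^ 2) ^ 3 := by
    intro y
    rw [abs_of_nonneg (by linarith [lk y])]
    exact kk_diff1 he hE (sq_nonneg _)
  have d3 : ∀ y : X, |kk e (‖y - x‖ ^ 2) ^ 3 - kk E (‖y - x‖ ^ 2) ^ 3|
      ≤ 3 * E * kk e (‖y - x‖ ^ 2) ^ 5 := by
    intro y
    rw [abs_of_nonneg (by linarith [pow_le_pow_left₀ (lp y).le (lk y) 3])]
    exact kk_diff3 he hE (sq_nonneg _)
  have d5 : ∀ y : X, |kk e (‖y - x‖ ^ 2) ^ 5 - kk E (‖y - x‖ ^ 2) ^ 5|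
      ≤ 5 * E * kk e (‖y - x‖ ^ 2) ^ 7 := by
    intro y
    rw [abs_of_nonneg (by linarith [pow_le_pow_left₀ (lp y).le (lk y) 5])]
    exact kk_diff5 he hE (sq_nonneg _)
  have f1 : ∀ y : X, |F1 (‖y‖ ^ 2)| ≤ C1 * c ^ 2 * kk e (‖y - x‖ ^ 2) ^ 2 := by
    intro y
    refine (hC1 _ (sq_nonneg _)).trans ?_
    have := pow_le_pow_left₀ (mp y).le (mk y) 2
    rw [mul_pow] at this
    nlinarith
  have f1n : ∀ y : X, |F1 (‖y‖ ^ 2)| * ‖y‖ ≤ C1 * c * kk e (‖y - x‖ ^ 2) := by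
    intro y
    have a1 := mul_le_mul_of_nonneg_right (hC1 _ (sq_nonneg ‖y‖)) (norm_nonneg y)
    have a2 : C1 * kk 1 (‖y‖ ^ 2) ^ 2 * ‖y‖ = C1 * kk 1 (‖y‖ ^ 2) * (‖y‖ * kk 1 (‖y‖ ^ 2)) := by
      ring
    have a3 : C1 * kk 1 (‖y‖ ^ 2) * (‖y‖ * kk 1 (‖y‖ ^ 2)) ≤ C1 * kk 1 (‖y‖ ^ 2) * 1 :=
      mul_le_mul_of_nonneg_left (ny y) (mul_nonneg n1 (mp y).le)
    have a4 := mul_le_mul_of_nonneg_left (mk y) n1
    linarith
  have f2 : ∀ y : X, |F2 (‖y‖ ^ 2)| * ‖y‖ ^ 2 ≤ C2 * c ^ 2 * kk e (‖y - x‖ ^ 2) ^ 2 := by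
    intro y
    refine (hC2 _ (sq_nonneg _)).trans ?_
    have := pow_le_pow_left₀ (mp y).le (mk y) 2
    rw [mul_pow] at this
    nlinarith
  have f0 : ∀ y : X, |F (‖y‖ ^ 2)| ≤ C0 := by
    intro y
    refine (hC0 _ (sq_nonneg _)).trans ?_
    have := kk_le one_pos (sq_nonneg ‖y‖)
    simp only [Real.sqrt_one, inv_one] at this
    nlinarith
  have f1b : ∀ y : X, |F1 (‖y‖ ^ 2)| * ‖y‖ ≤ C1 := by
    intro y
    have a1 := mul_le_mul_of_nonneg_right (hC1 _ (sq_nonneg ‖y‖)) (norm_nonneg y)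
    have a2 : C1 * kk 1 (‖y‖ ^ 2) ^ 2 * ‖y‖ = C1 * kk 1 (‖y‖ ^ 2) * (‖y‖ * kk 1 (‖y‖ ^ 2)) := by
      ring
    have a3 : C1 * kk 1 (‖y‖ ^ 2) * (‖y‖ * kk 1 (‖y‖ ^ 2)) ≤ C1 * kk 1 (‖y‖ ^ 2) * 1 :=
      mul_le_mul_of_nonneg_left (ny y) (mul_nonneg n1 (mp y).le)
    have a4 := kk_le one_pos (sq_nonneg ‖y‖)
    simp only [Real.sqrt_one, inv_one] at a4
    nlinarith
  -- step I
  have I := ibp_radial (f := fun s => 2 * F1 s) (f' := fun s => 2 * F2 s)
    (fun s hs => (h.d2 s hs).const_mul 2) (continuousOn_const.mul h.c2) (0 : X) hK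
    (by
      simp only [sub_zero]
      refine (dom.const_mul (2 * E * C1 * c ^ 2 * B)).mono' ?_ (Eventually.of_forall fun y => ?_)
      · exact (hK.continuous.mul (continuous_const.mul cF1)).aestronglyMeasurable
      · rw [norm_mul, Real.norm_eq_abs, Real.norm_eq_abs, abs_mul 2, abs_two]
        have := mul_le_mul (d1 y) (f1 y) (abs_nonneg _) (by have := kp y; positivity)
        have k5 : kk e (‖y - x‖ ^ 2) ^ 5 ≤ B * kk e (‖y - x‖ ^ 2) ^ 4 := by
          have := mul_le_mul_of_nonneg_right (kB y) (pow_nonneg (kp y).le 4)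
          nlinarith
        have k6 := mul_le_mul_of_nonneg_left k5 (by positivity : 0 ≤ 2 * E * C1 * c ^ 2)
        nlinarith)
    (by
      simp only [sub_zero]
      refine (dom.const_mul (2 * E * C2 * c ^ 2 * B)).mono' ?_ (Eventually.of_forall fun y => ?_)
      · exact ((hK.continuous.mul (continuous_const.mul cF2)).mul (cn.pow 2)).aestronglyMeasurable
      · rw [norm_mul, norm_mul, Real.norm_eq_abs, Real.norm_eq_abs, Real.norm_eq_abs, abs_mul 2,
          abs_two, abs_of_nonneg (sq_nonneg ‖y‖)]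
        have := mul_le_mul (d1 y) (f2 y) (by positivity) (by have := kp y; positivity)
        have k5 : kk e (‖y - x‖ ^ 2) ^ 5 ≤ B * kk e (‖y - x‖ ^ 2) ^ 4 := by
          have := mul_le_mul_of_nonneg_right (kB y) (pow_nonneg (kp y).le 4)
          nlinarith
        have k6 := mul_le_mul_of_nonneg_left k5 (by positivity : 0 ≤ 2 * E * C2 * c ^ 2)
        nlinarith)
    (by
      simp only [sub_zero]
      refine (dom.const_mul (2 * (3 * E) * C1)).mono' ?_ (Eventually.of_forall fun y => ?_)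
      · exact (((hK.continuous_fderiv one_ne_zero).norm.mul
          (continuous_const.mul cF1).abs).mul cn).aestronglyMeasurable
      · rw [norm_mul, norm_mul, norm_norm, norm_norm, norm_abs_eq_norm, Real.norm_eq_abs,
          abs_mul 2, abs_two, hfK, norm_smul, norm_neg, Real.norm_eq_abs, innerSL_apply_norm]
        have a1 : |kk e (‖y - x‖ ^ 2) ^ 3 - kk E (‖y - x‖ ^ 2) ^ 3| * ‖y - x‖
            ≤ 3 * E * kk e (‖y - x‖ ^ 2) ^ 4 := by
          have b1 := mul_le_mul_of_nonneg_right (d3 y) (norm_nonneg (y - x))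
          have b2 : 3 * E * kk e (‖y - x‖ ^ 2) ^ 5 * ‖y - x‖
            = 3 * E * kk e (‖y - x‖ ^ 2) ^ 4 * (‖y - x‖ * kk e (‖y - x‖ ^ 2)) := by ring
          have b3 := mul_le_mul_of_nonneg_left (nx y)
            (by have := kp y; positivity : 0 ≤ 3 * E * kk e (‖y - x‖ ^ 2) ^ 4)
          linarith
        have := mul_le_mul a1 (f1b y) (by positivity) (by have := kp y; positivity)
        nlinarith)
    (by
      simp only [sub_zero]
      refine (dom.const_mul (2 * E * C1 * c)).mono' ?_ (Eventually.of_forall fun y => ?_)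
      · exact ((hK.continuous.mul (continuous_const.mul cF1)).mul cn).aestronglyMeasurable
      · rw [norm_mul, norm_mul, Real.norm_eq_abs, Real.norm_eq_abs, norm_norm, abs_mul 2, abs_two]
        have := mul_le_mul (d1 y) (f1n y) (by positivity) (by have := kp y; positivity)
        nlinarith)
  -- step II
  have hf2 : ∀ s, 0 ≤ s → HasDerivAt (fun s => -(kk e s ^ 3 - kk E s ^ 3))
      ((3 / 2) * (kk e s ^ 5 - kk E s ^ 5)) s := by
    intro s hs
    have a1 := (hasDerivAt_kk he hs).pow 3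
    have a2 := (hasDerivAt_kk hE0 hs).pow 3
    refine (a1.sub a2).neg.congr_deriv ?_
    simp only [Nat.cast_ofNat]
    ring
  have hf2c : ContinuousOn (fun s => (3 / 2) * (kk e s ^ 5 - kk E s ^ 5)) (Ici 0) := by
    have a1 : ContinuousOn (kk e) (Ici 0) := continuousOn_of_deriv fun s hs => hasDerivAt_kk he hs
    have a2 : ContinuousOn (kk E) (Ici 0) := continuousOn_of_deriv fun s hs => hasDerivAt_kk hE0 hs
    exact continuousOn_const.mul ((a1.pow 5).sub (a2.pow 5))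
  have II := ibp_radial hf2 hf2c x h.contDiff
    (by
      refine (dom.const_mul (C0 * (3 * E) * B)).mono' ?_ (Eventually.of_forall fun y => ?_)
      · exact (cF.mul ((ke.pow 3).sub (kE.pow 3)).neg).aestronglyMeasurable
      · rw [norm_mul, norm_neg, Real.norm_eq_abs, Real.norm_eq_abs]
        have := mul_le_mul (f0 y) (d3 y) (abs_nonneg _) n0
        have k5 : kk e (‖y - x‖ ^ 2) ^ 5 ≤ B * kk e (‖y - x‖ ^ 2) ^ 4 := by
          have := mul_le_mul_of_nonneg_right (kB y) (pow_nonneg (kp y).le 4)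
          nlinarith
        have k6 := mul_le_mul_of_nonneg_left k5 (by positivity : 0 ≤ C0 * (3 * E))
        nlinarith)
    (by
      refine (dom.const_mul (C0 * ((3 / 2) * (5 * E)) * B)).mono' ?_
        (Eventually.of_forall fun y => ?_)
      · exact ((cF.mul (continuous_const.mul ((ke.pow 5).sub (kE.pow 5)))).mul
          (cnx.pow 2)).aestronglyMeasurable
      · rw [norm_mul, norm_mul, norm_mul, Real.norm_eq_abs, Real.norm_eq_abs, Real.norm_eq_abs,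
          Real.norm_eq_abs, abs_of_nonneg (sq_nonneg ‖y - x‖),
          abs_of_nonneg (by norm_num : (0:ℝ) ≤ 3 / 2)]
        have b1 : |kk e (‖y - x‖ ^ 2) ^ 5 - kk E (‖y - x‖ ^ 2) ^ 5| * ‖y - x‖ ^ 2
            ≤ 5 * E * kk e (‖y - x‖ ^ 2) ^ 5 := by
          have b1 := mul_le_mul_of_nonneg_right (d5 y) (sq_nonneg ‖y - x‖)
          have b2 : 5 * E * kk e (‖y - x‖ ^ 2) ^ 7 * ‖y - x‖ ^ 2
            = 5 * E * kk e (‖y - x‖ ^ 2) ^ 5 * (‖y - x‖ * kk e (‖y - x‖ ^ 2)) ^ 2 := by ring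
          have b4 : (‖y - x‖ * kk e (‖y - x‖ ^ 2)) ^ 2 ≤ 1 :=
            pow_le_one₀ (by have := kp y; positivity) (nx y)
          have b3 := mul_le_mul_of_nonneg_left b4
            (by have := kp y; positivity : 0 ≤ 5 * E * kk e (‖y - x‖ ^ 2) ^ 5)
          linarith
        have := mul_le_mul (f0 y) b1 (by positivity) n0
        have k5 : kk e (‖y - x‖ ^ 2) ^ 5 ≤ B * kk e (‖y - x‖ ^ 2) ^ 4 := by
          have := mul_le_mul_of_nonneg_right (kB y) (pow_nonneg (kp y).le 4)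
          nlinarith
        have k6 := mul_le_mul_of_nonneg_left k5 (by positivity : 0 ≤ C0 * ((3 / 2) * (5 * E)))
        nlinarith)
    (by
      refine (dom.const_mul (2 * C1 * (3 * E))).mono' ?_ (Eventually.of_forall fun y => ?_)
      · exact (((h.contDiff.continuous_fderiv one_ne_zero).norm.mul
          ((ke.pow 3).sub (kE.pow 3)).neg.abs).mul cnx).aestronglyMeasurable
      · rw [norm_mul, norm_mul, norm_norm, norm_norm, norm_abs_eq_norm, norm_neg, Real.norm_eq_abs]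
        have e1 : ‖fderiv ℝ (fun y : X => F (‖y‖ ^ 2)) y‖ = 2 * (|F1 (‖y‖ ^ 2)| * ‖y‖) := by
          have hd := hasFDerivAt_radial h.d1 (0 : X) y
          simp only [sub_zero] at hd
          rw [hd.fderiv, norm_smul, innerSL_apply_norm, Real.norm_eq_abs, abs_mul, abs_two]
          ring
        have a1 : |kk e (‖y - x‖ ^ 2) ^ 3 - kk E (‖y - x‖ ^ 2) ^ 3| * ‖y - x‖
            ≤ 3 * E * kk e (‖y - x‖ ^ 2) ^ 4 := by
          have b1 := mul_le_mul_of_nonneg_right (d3 y) (norm_nonneg (y - x))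
          have b2 : 3 * E * kk e (‖y - x‖ ^ 2) ^ 5 * ‖y - x‖
            = 3 * E * kk e (‖y - x‖ ^ 2) ^ 4 * (‖y - x‖ * kk e (‖y - x‖ ^ 2)) := by ring
          have b3 := mul_le_mul_of_nonneg_left (nx y)
            (by have := kp y; positivity : 0 ≤ 3 * E * kk e (‖y - x‖ ^ 2) ^ 4)
          linarith
        rw [e1]
        have := mul_le_mul (f1b y) a1 (by positivity) n1
        nlinarith)
    (by
      refine (dom.const_mul (C0 * (3 * E))).mono' ?_ (Eventually.of_forall fun y => ?_)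
      · exact ((cF.mul ((ke.pow 3).sub (kE.pow 3)).neg).mul cnx).aestronglyMeasurable
      · rw [norm_mul, norm_mul, norm_neg, norm_norm, Real.norm_eq_abs, Real.norm_eq_abs]
        have a1 : |kk e (‖y - x‖ ^ 2) ^ 3 - kk E (‖y - x‖ ^ 2) ^ 3| * ‖y - x‖
            ≤ 3 * E * kk e (‖y - x‖ ^ 2) ^ 4 := by
          have b1 := mul_le_mul_of_nonneg_right (d3 y) (norm_nonneg (y - x))
          have b2 : 3 * E * kk e (‖y - x‖ ^ 2) ^ 5 * ‖y - x‖
            = 3 * E * kk e (‖y - x‖ ^ 2) ^ 4 * (‖y - x‖ * kk e (‖y - x‖ ^ 2)) := by ring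
          have b3 := mul_le_mul_of_nonneg_left (nx y)
            (by have := kp y; positivity : 0 ≤ 3 * E * kk e (‖y - x‖ ^ 2) ^ 4)
          linarith
        have := mul_le_mul (f0 y) a1 (by positivity) n0
        nlinarith)
  simp only [sub_zero] at I
  have eL : ∫ y, (kk e (‖y - x‖ ^ 2) - kk E (‖y - x‖ ^ 2)) * lap F1 F2 y
      = ∫ y, (kk e (‖y - x‖ ^ 2) - kk E (‖y - x‖ ^ 2)) *
        (3 * (2 * F1 (‖y‖ ^ 2)) + 2 * (2 * F2 (‖y‖ ^ 2)) * ‖y‖ ^ 2) := by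
    congr 1
    ext y
    unfold lap
    ring
  have eR : ∫ y, F (‖y‖ ^ 2) * (-(3 * e * kk e (‖y - x‖ ^ 2) ^ 5)
          + 3 * E * kk E (‖y - x‖ ^ 2) ^ 5)
      = ∫ y, F (‖y‖ ^ 2) * (3 * -(kk e (‖y - x‖ ^ 2) ^ 3 - kk E (‖y - x‖ ^ 2) ^ 3)
        + 2 * ((3 / 2) * (kk e (‖y - x‖ ^ 2) ^ 5 - kk E (‖y - x‖ ^ 2) ^ 5)) * ‖y - x‖ ^ 2) := by
    congr 1
    ext y
    have s1 := kk_sq he (sq_nonneg ‖y - x‖)
    have s2 := kk_sq hE0 (sq_nonneg ‖y - x‖)
    have t1 : kk e (‖y - x‖ ^ 2) ^ 5 * ‖y - x‖ ^ 2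
        = kk e (‖y - x‖ ^ 2) ^ 3 - e * kk e (‖y - x‖ ^ 2) ^ 5 := by
      have : kk e (‖y - x‖ ^ 2) ^ 3 = kk e (‖y - x‖ ^ 2) ^ 3 * ((e + ‖y - x‖ ^ 2)
        * kk e (‖y - x‖ ^ 2) ^ 2) := by rw [s1, mul_one]
      linear_combination -this
    have t2 : kk E (‖y - x‖ ^ 2) ^ 5 * ‖y - x‖ ^ 2
        = kk E (‖y - x‖ ^ 2) ^ 3 - E * kk E (‖y - x‖ ^ 2) ^ 5 := by
      have : kk E (‖y - x‖ ^ 2) ^ 3 = kk E (‖y - x‖ ^ 2) ^ 3 * ((E + ‖y - x‖ ^ 2)
        * kk E (‖y - x‖ ^ 2) ^ 2) := by rw [s2, mul_one]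
      linear_combination -this
    linear_combination (-3 * F (‖y‖ ^ 2)) * t1 + (3 * F (‖y‖ ^ 2)) * t2
  rw [eL, I, eR, II]
  congr 2
  ext y
  rw [hfK, h.fderiv]
  simp only [FunLike.coe_smul, Pi.smul_apply, innerSL_apply_apply, smul_eq_mul]
  rw [real_inner_comm y (y - x)]
  ring

/-- Averages of `Φ(x+tz)`. -/
noncomputable def SS (F : ℝ → ℝ) (x : X) (t : ℝ) : ℝ :=
  ∫ z : X, F (‖x + t • z‖ ^ 2) * (3 * kk 1 (‖z‖ ^ 2) ^ 5)

lemma kk_scale {t s : ℝ} (ht : 0 < t) (_hs : 0 ≤ s) : kk (t ^ 2) (t ^ 2 * s) = t⁻¹ * kk 1 s := by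
  unfold kk
  rw [show t ^ 2 + t ^ 2 * s = t ^ 2 * (1 + s) by ring, Real.sqrt_mul (by positivity),
    Real.sqrt_sq ht.le, mul_inv]

lemma SS_eq (F : ℝ → ℝ) (x : X) {t : ℝ} (ht : 0 < t) :
    ∫ y : X, F (‖y‖ ^ 2) * (3 * t ^ 2 * kk (t ^ 2) (‖y - x‖ ^ 2) ^ 5) = SS F x t := by
  have h1 := Measure.integral_comp_smul (μ := (volume : Measure X))
    (fun w : X => F (‖x + w‖ ^ 2) * (3 * t ^ 2 * kk (t ^ 2) (‖x + w - x‖ ^ 2) ^ 5)) t
  rw [finrank_X, integral_add_left_eq_self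
    (fun y : X => F (‖y‖ ^ 2) * (3 * t ^ 2 * kk (t ^ 2) (‖y - x‖ ^ 2) ^ 5)) x] at h1
  have h2 : ∀ z : X, F (‖x + t • z‖ ^ 2) * (3 * t ^ 2 * kk (t ^ 2) (‖x + t • z - x‖ ^ 2) ^ 5)
      = (t ^ 3)⁻¹ * (F (‖x + t • z‖ ^ 2) * (3 * kk 1 (‖z‖ ^ 2) ^ 5)) := by
    intro z
    rw [add_sub_cancel_left, norm_smul, mul_pow, Real.norm_eq_abs, sq_abs,
      kk_scale ht (sq_nonneg _)]
    field_simp
  simp only [h2] at h1
  rw [integral_const_mul, smul_eq_mul, abs_of_pos (by positivity)] at h1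
  unfold SS
  have h3 : (t ^ 3)⁻¹ ≠ 0 := by positivity
  exact (mul_left_cancel₀ h3 h1).symm

lemma Rad.bdd (h : Rad F F1 F2) : ∃ C, ∀ s, 0 ≤ s → |F s| ≤ C := by
  obtain ⟨C0, hC0⟩ := h.b0
  have n0 : 0 ≤ C0 := by
    have := (abs_nonneg _).trans (hC0 0 le_rfl)
    exact nonneg_of_mul_nonneg_left this (kk_pos one_pos le_rfl)
  refine ⟨C0, fun s hs => (hC0 s hs).trans ?_⟩
  have := kk_le one_pos hs
  simp only [Real.sqrt_one, inv_one] at this
  nlinarith

lemma SS_tendsto_zero (h : Rad F F1 F2) (x : X) {t : ℕ → ℝ} (ht : Tendsto t atTop (𝓝 0)) :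
    Tendsto (fun n => SS F x (t n)) atTop (𝓝 (om * F (‖x‖ ^ 2))) := by
  obtain ⟨C, hC⟩ := h.bdd
  have hF := continuous_radial (continuousOn_of_deriv h.d1) (0 : X)
  simp only [sub_zero] at hF
  have hk := continuous_kk one_pos (0 : X)
  simp only [sub_zero] at hk
  have : om * F (‖x‖ ^ 2) = ∫ z : X, F (‖x‖ ^ 2) * (3 * kk 1 (‖z‖ ^ 2) ^ 5) := by
    rw [integral_const_mul]; unfold om; ring
  rw [this]
  unfold SS
  apply tendsto_integral_of_dominated_convergence (fun z : X => C * (3 * kk 1 (‖z‖ ^ 2) ^ 5))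
  · intro n
    apply Continuous.aestronglyMeasurable
    have c1 : Continuous (fun z : X => F (‖x + t n • z‖ ^ 2)) :=
      hF.comp (by fun_prop : Continuous (fun z : X => x + t n • z))
    exact c1.mul (continuous_const.mul (hk.pow 5))
  · exact integrable_kk5.const_mul C
  · intro n
    refine Eventually.of_forall fun z => ?_
    have p := kk_pos one_pos (sq_nonneg ‖z‖)
    rw [norm_mul, Real.norm_eq_abs, Real.norm_eq_abs, abs_of_nonneg (by positivity :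
      0 ≤ 3 * kk 1 (‖z‖ ^ 2) ^ 5)]
    exact mul_le_mul_of_nonneg_right (hC _ (sq_nonneg _)) (by positivity)
  · refine Eventually.of_forall fun z => ?_
    apply Tendsto.mul_const
    have c1 : Continuous (fun r : ℝ => F (‖x + r • z‖ ^ 2)) :=
      hF.comp (by fun_prop : Continuous (fun r : ℝ => x + r • z))
    have h5 := (c1.tendsto 0).comp ht
    rw [zero_smul, add_zero] at h5
    exact h5

lemma SS_tendsto_infty (h : Rad F F1 F2) (x : X) {t : ℕ → ℝ} (ht : Tendsto t atTop atTop) :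
    Tendsto (fun n => SS F x (t n)) atTop (𝓝 0) := by
  obtain ⟨C, hC⟩ := h.bdd
  obtain ⟨C0, hC0⟩ := h.b0
  have hF := continuous_radial (continuousOn_of_deriv h.d1) (0 : X)
  simp only [sub_zero] at hF
  have hk := continuous_kk one_pos (0 : X)
  simp only [sub_zero] at hk
  have : (0 : ℝ) = ∫ z : X, (0 : ℝ) := by simp
  rw [this]
  unfold SS
  apply tendsto_integral_of_dominated_convergence (fun z : X => C * (3 * kk 1 (‖z‖ ^ 2) ^ 5))
  · intro n
    apply Continuous.aestronglyMeasurable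
    have c1 : Continuous (fun z : X => F (‖x + t n • z‖ ^ 2)) :=
      hF.comp (by fun_prop : Continuous (fun z : X => x + t n • z))
    exact c1.mul (continuous_const.mul (hk.pow 5))
  · exact integrable_kk5.const_mul C
  · intro n
    refine Eventually.of_forall fun z => ?_
    have p := kk_pos one_pos (sq_nonneg ‖z‖)
    rw [norm_mul, Real.norm_eq_abs, Real.norm_eq_abs, abs_of_nonneg (by positivity :
      0 ≤ 3 * kk 1 (‖z‖ ^ 2) ^ 5)]
    exact mul_le_mul_of_nonneg_right (hC _ (sq_nonneg _)) (by positivity)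
  · have hne : ∀ᵐ z : X, z ≠ 0 := by simp [ae_iff]
    filter_upwards [hne] with z hz
    rw [← zero_mul (3 * kk 1 (‖z‖ ^ 2) ^ 5)]
    apply Tendsto.mul_const
    -- norms go to infinity
    have hz0 : 0 < ‖z‖ := norm_pos_iff.2 hz
    have h1 : Tendsto (fun n => t n * ‖z‖ - ‖x‖) atTop atTop :=
      tendsto_atTop_add_const_right _ _ (ht.atTop_mul_const hz0)
    have h2 : Tendsto (fun n => ‖x + t n • z‖) atTop atTop := by
      refine tendsto_atTop_mono' _ ?_ h1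
      filter_upwards [ht.eventually_ge_atTop 0] with n hn
      have a1 : ‖t n • z‖ = t n * ‖z‖ := by rw [norm_smul, Real.norm_eq_abs, abs_of_nonneg hn]
      have a2 : ‖t n • z‖ ≤ ‖x + t n • z‖ + ‖x‖ := by
        have := norm_sub_le (x + t n • z) x
        simpa using this
      linarith
    have h3 : Tendsto (fun n => kk 1 (‖x + t n • z‖ ^ 2)) atTop (𝓝 0) := by
      refine squeeze_zero' (g := fun n => (‖x + t n • z‖)⁻¹)
        (Eventually.of_forall fun n => (kk_pos one_pos (sq_nonneg _)).le) ?_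
        (tendsto_inv_atTop_zero.comp h2)
      filter_upwards [h2.eventually_gt_atTop 0] with n hn
      unfold kk
      apply inv_anti₀ hn
      apply Real.le_sqrt_of_sq_le
      linarith
    have h4 : Tendsto (fun n => C0 * kk 1 (‖x + t n • z‖ ^ 2)) atTop (𝓝 0) := by
      simpa using h3.const_mul C0
    exact squeeze_zero_norm (fun n => hC0 _ (sq_nonneg _)) h4

/-- Poisson's formula: the Newtonian potential of `-ΔΦ` is `ω Φ`. -/
theorem poisson (h : Rad F F1 F2) (hL : BI (lap F1 F2)) (x : X) :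
    U (fun y => -lap F1 F2 y) x = om * F (‖x‖ ^ 2) := by
  -- sequences
  set t : ℕ → ℝ := fun n => 1 / ((n : ℝ) + 1) with ht
  set T : ℕ → ℝ := fun n => (n : ℝ) + 1 with hT
  have tpos : ∀ n, 0 < t n := fun n => by simp only [ht]; positivity
  have Tpos : ∀ n, 0 < T n := fun n => by simp only [hT]; positivity
  have ht0 : Tendsto t atTop (𝓝 0) := tendsto_one_div_add_atTop_nhds_zero_nat
  have hT0 : Tendsto T atTop atTop :=
    tendsto_atTop_add_const_right _ _ tendsto_natCast_atTop_atTop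
  have htT : ∀ n, t n ^ 2 ≤ T n ^ 2 := by
    intro n
    apply pow_le_pow_left₀ (tpos n).le
    simp only [ht, hT]
    rw [div_le_iff₀ (by positivity)]
    have : (0:ℝ) ≤ n := Nat.cast_nonneg n
    nlinarith
  have key : ∀ n, ∫ y, (kk (t n ^ 2) (‖y - x‖ ^ 2) - kk (T n ^ 2) (‖y - x‖ ^ 2)) * lap F1 F2 y
      = -SS F x (t n) + SS F x (T n) := by
    intro n
    obtain ⟨C, hC⟩ := h.bdd
    have hF := continuous_radial (continuousOn_of_deriv h.d1) (0 : X)
    simp only [sub_zero] at hF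
    have hi : ∀ r : ℝ, 0 < r →
        Integrable (fun y : X => F (‖y‖ ^ 2) * (3 * r ^ 2 * kk (r ^ 2) (‖y - x‖ ^ 2) ^ 5)) := by
      intro r hr
      refine ((integrable_kk4 (by positivity : 0 < r ^ 2) x).const_mul
        (C * (3 * r ^ 2 * (Real.sqrt (r ^ 2))⁻¹))).mono' ?_ (Eventually.of_forall fun y => ?_)
      · exact (hF.mul (continuous_const.mul
          ((continuous_kk (by positivity : 0 < r ^ 2) x).pow 5))).aestronglyMeasurable
      · have p := kk_pos (by positivity : 0 < r ^ 2) (sq_nonneg ‖y - x‖)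
        have p2 := kk_le (by positivity : 0 < r ^ 2) (sq_nonneg ‖y - x‖)
        rw [norm_mul, Real.norm_eq_abs, Real.norm_eq_abs, abs_of_nonneg (by positivity :
          0 ≤ 3 * r ^ 2 * kk (r ^ 2) (‖y - x‖ ^ 2) ^ 5)]
        have c0 := (abs_nonneg _).trans (hC _ (sq_nonneg ‖y‖))
        have c1 := mul_le_mul_of_nonneg_right (hC _ (sq_nonneg ‖y‖))
          (by positivity : 0 ≤ 3 * r ^ 2 * kk (r ^ 2) (‖y - x‖ ^ 2) ^ 5)
        have c2 : kk (r ^ 2) (‖y - x‖ ^ 2) ^ 5 ≤ (Real.sqrt (r ^ 2))⁻¹ *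
            kk (r ^ 2) (‖y - x‖ ^ 2) ^ 4 := by
          have := mul_le_mul_of_nonneg_right p2 (pow_nonneg p.le 4)
          calc kk (r ^ 2) (‖y - x‖ ^ 2) ^ 5 = kk (r ^ 2) (‖y - x‖ ^ 2) *
              kk (r ^ 2) (‖y - x‖ ^ 2) ^ 4 := by ring
            _ ≤ _ := this
        have c3 := mul_le_mul_of_nonneg_left c2 (by positivity : 0 ≤ C * (3 * r ^ 2))
        calc |F (‖y‖ ^ 2)| * (3 * r ^ 2 * kk (r ^ 2) (‖y - x‖ ^ 2) ^ 5)
            ≤ C * (3 * r ^ 2 * kk (r ^ 2) (‖y - x‖ ^ 2) ^ 5) := c1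
          _ = C * (3 * r ^ 2) * kk (r ^ 2) (‖y - x‖ ^ 2) ^ 5 := by ring
          _ ≤ C * (3 * r ^ 2) * ((Real.sqrt (r ^ 2))⁻¹ * kk (r ^ 2) (‖y - x‖ ^ 2) ^ 4) := c3
          _ = _ := by ring
    have hi1 : Integrable (fun y : X =>
        -(F (‖y‖ ^ 2) * (3 * t n ^ 2 * kk (t n ^ 2) (‖y - x‖ ^ 2) ^ 5))) := (hi _ (tpos n)).neg
    rw [green h x (by have := tpos n; positivity) (htT n), ← SS_eq F x (tpos n),
      ← SS_eq F x (Tpos n), ← integral_neg, ← integral_add hi1 (hi _ (Tpos n))]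
    congr 1
    ext y
    ring
  have lim1 : Tendsto (fun n => -SS F x (t n) + SS F x (T n)) atTop
      (𝓝 (-(om * F (‖x‖ ^ 2)) + 0)) :=
    (SS_tendsto_zero h x ht0).neg.add (SS_tendsto_infty h x hT0)
  have lim2 : Tendsto (fun n => ∫ y, (kk (t n ^ 2) (‖y - x‖ ^ 2)
      - kk (T n ^ 2) (‖y - x‖ ^ 2)) * lap F1 F2 y) atTop
      (𝓝 (∫ y, lap F1 F2 y / ‖x - y‖)) := by
    apply tendsto_integral_of_dominated_convergence (fun y : X => |lap F1 F2 y| / ‖x - y‖)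
    · intro n
      exact (((continuous_kk (by have := tpos n; positivity) x).sub
        (continuous_kk (by have := Tpos n; positivity) x)).mul hL.cont).aestronglyMeasurable
    · exact integrable_div_norm hL.abs x
    · intro n
      have hne : ∀ᵐ y : X, y ≠ x := by simp [ae_iff]
      filter_upwards [hne] with y hy
      have h0 : 0 < ‖y - x‖ := norm_pos_iff.2 (sub_ne_zero.2 hy)
      have t2 : 0 < t n ^ 2 := by have := tpos n; positivity
      have T2 : 0 < T n ^ 2 := by have := Tpos n; positivity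
      have p1 := kk_pos t2 (sq_nonneg ‖y - x‖)
      have p2 := kk_pos T2 (sq_nonneg ‖y - x‖)
      have p3 := kk_anti t2 (htT n) (sq_nonneg ‖y - x‖)
      have p4 : kk (t n ^ 2) (‖y - x‖ ^ 2) ≤ ‖y - x‖⁻¹ := by
        unfold kk
        apply inv_anti₀ h0
        apply Real.le_sqrt_of_sq_le
        linarith
      rw [norm_mul, Real.norm_eq_abs, Real.norm_eq_abs, abs_of_nonneg (by linarith),
        norm_sub_rev x y, div_eq_inv_mul]
      exact mul_le_mul_of_nonneg_right (by linarith) (abs_nonneg _)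
    · have hne : ∀ᵐ y : X, y ≠ x := by simp [ae_iff]
      filter_upwards [hne] with y hy
      have h0 : 0 < ‖y - x‖ := norm_pos_iff.2 (sub_ne_zero.2 hy)
      have l1 : Tendsto (fun n => kk (t n ^ 2) (‖y - x‖ ^ 2)) atTop (𝓝 (‖y - x‖⁻¹)) := by
        unfold kk
        apply Tendsto.inv₀ _ h0.ne'
        have : Tendsto (fun n => t n ^ 2 + ‖y - x‖ ^ 2) atTop (𝓝 (0 ^ 2 + ‖y - x‖ ^ 2)) :=
          (ht0.pow 2).add_const _
        have h5 := (Real.continuous_sqrt.tendsto _).comp this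
        have h6 : Real.sqrt (0 ^ 2 + ‖y - x‖ ^ 2) = ‖y - x‖ := by
          rw [zero_pow two_ne_zero, zero_add, Real.sqrt_sq (norm_nonneg _)]
        rw [h6] at h5
        exact h5
      have l2 : Tendsto (fun n => kk (T n ^ 2) (‖y - x‖ ^ 2)) atTop (𝓝 0) := by
        refine squeeze_zero (fun n => (kk_pos (by have := Tpos n; positivity)
          (sq_nonneg _)).le) (fun n => ?_) (tendsto_inv_atTop_zero.comp hT0)
        unfold kk
        apply inv_anti₀ (Tpos n)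
        apply Real.le_sqrt_of_sq_le
        have := sq_nonneg ‖y - x‖
        linarith
      have l3 := (l1.sub l2).mul_const (lap F1 F2 y)
      have : (‖y - x‖⁻¹ - 0) * lap F1 F2 y = lap F1 F2 y / ‖x - y‖ := by
        rw [norm_sub_rev x y]; ring
      rw [this] at l3
      exact l3
  have lim3 : Tendsto (fun n => ∫ y, (kk (t n ^ 2) (‖y - x‖ ^ 2)
      - kk (T n ^ 2) (‖y - x‖ ^ 2)) * lap F1 F2 y) atTop (𝓝 (-(om * F (‖x‖ ^ 2)) + 0)) := by
    simp only [key]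
    exact lim1
  have := tendsto_nhds_unique lim2 lim3
  unfold U
  have h7 : ∀ y : X, -lap F1 F2 y / ‖x - y‖ = -(lap F1 F2 y / ‖x - y‖) := fun y => by ring
  simp only [h7]
  rw [integral_neg, this]
  ring

end

end Pool.Agent.Lib.TFW
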