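import Pool.Agent.Lib.MP_1526eb_mp.Basic

set_option autoImplicit false

open MeasureTheory Set Filter Topology

namespace Pool.Agent.Lib.TFW

/-- Inverse square kernel. -/
noncomputable def q (z : X) : ℝ := (‖z‖ ^ 2)⁻¹

lemma q_nonneg (z : X) : 0 ≤ q z := by unfold q; positivity

lemma measurable_q : Measurable q := by unfold q; fun_prop

lemma integrable_q_ball (r : ℝ) :
    Integrable (fun z : X => (Metric.ball (0:X) r).indicator q z) :=
  (integrable_indicator_iff measurableSet_ball).2 (integrableOn_inv_norm_sq r)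

lemma integrable_japanese4 : Integrable (fun z : X => ((1 + ‖z‖ ^ 2) ^ 2)⁻¹) := by
  have h := integrable_rpow_neg_one_add_norm_sq (E := X) (μ := volume) (r := 4)
    (by rw [finrank_X]; norm_num)
  refine h.congr (Eventually.of_forall fun z => ?_)
  simp only
  rw [show (-4 / 2 : ℝ) = -(2 : ℕ) by norm_num, Real.rpow_neg (by positivity),
    Real.rpow_natCast]

lemma intq_bound {v : X} (hv : v ≠ 0) (z : X) :
    q z * q (z - v) ≤ 4 / ‖v‖ ^ 2 * (Metric.ball (0:X) (2 * ‖v‖)).indicator q z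
      + 4 / ‖v‖ ^ 2 * (Metric.ball (0:X) (2 * ‖v‖)).indicator q (z - v)
      + 4 * (1 + 1 / (4 * ‖v‖ ^ 2)) ^ 2 * ((1 + ‖z‖ ^ 2) ^ 2)⁻¹ := by
  have hr : 0 < ‖v‖ := norm_pos_iff.2 hv
  have n1 : 0 ≤ (Metric.ball (0:X) (2 * ‖v‖)).indicator q z :=
    indicator_nonneg (fun _ _ => q_nonneg _) _
  have n2 : 0 ≤ (Metric.ball (0:X) (2 * ‖v‖)).indicator q (z - v) :=
    indicator_nonneg (fun _ _ => q_nonneg _) _
  have n3 : 0 ≤ 4 * (1 + 1 / (4 * ‖v‖ ^ 2)) ^ 2 * ((1 + ‖z‖ ^ 2) ^ 2)⁻¹ := by positivity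
  have n4 : 0 ≤ 4 / ‖v‖ ^ 2 := by positivity
  have m1 := mul_nonneg n4 n1
  have m2 := mul_nonneg n4 n2
  have htri : ‖v‖ ≤ ‖z‖ + ‖z - v‖ := by
    have := norm_sub_le z (z - v)
    simpa using this
  by_cases hz : ‖z‖ < 2 * ‖v‖
  · by_cases hzz : ‖z‖ ≤ ‖z - v‖
    · have h1 : ‖v‖ / 2 ≤ ‖z - v‖ := by linarith
      have h1' : 0 < ‖z - v‖ := by linarith
      have h2 : q (z - v) ≤ 4 / ‖v‖ ^ 2 := by
        unfold q
        rw [inv_eq_one_div, div_le_div_iff₀ (by positivity) (by positivity)]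
        nlinarith
      have h3 : (Metric.ball (0:X) (2 * ‖v‖)).indicator q z = q z :=
        indicator_of_mem (by simpa using hz) _
      rw [h3]
      have := mul_le_mul_of_nonneg_left h2 (q_nonneg z)
      linarith
    · push Not at hzz
      have h1 : ‖v‖ / 2 ≤ ‖z‖ := by linarith
      have h1' : 0 < ‖z‖ := by linarith
      have h2 : q z ≤ 4 / ‖v‖ ^ 2 := by
        unfold q
        rw [inv_eq_one_div, div_le_div_iff₀ (by positivity) (by positivity)]
        nlinarith
      have h3 : (Metric.ball (0:X) (2 * ‖v‖)).indicator q (z - v) = q (z - v) :=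
        indicator_of_mem (by rw [mem_ball_zero_iff]; linarith) _
      rw [h3]
      have := mul_le_mul_of_nonneg_right h2 (q_nonneg (z - v))
      linarith
  · push Not at hz
    have h1 : ‖z‖ / 2 ≤ ‖z - v‖ := by
      have := norm_sub_norm_le z v
      linarith
    have hz0 : 0 < ‖z‖ := by linarith
    have hz1 : 0 < ‖z - v‖ := by linarith
    have h2 : q z * q (z - v) ≤ 4 / ‖z‖ ^ 4 := by
      unfold q
      rw [← mul_inv, inv_eq_one_div, div_le_div_iff₀ (by positivity) (by positivity)]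
      have : ‖z‖ ^ 2 ≤ 4 * ‖z - v‖ ^ 2 := by nlinarith
      have := mul_le_mul_of_nonneg_left this (sq_nonneg ‖z‖)
      nlinarith
    have h3 : 1 + ‖z‖ ^ 2 ≤ (1 + 1 / (4 * ‖v‖ ^ 2)) * ‖z‖ ^ 2 := by
      have : 1 ≤ 1 / (4 * ‖v‖ ^ 2) * ‖z‖ ^ 2 := by
        rw [one_div, ← div_eq_inv_mul, le_div_iff₀ (by positivity)]
        nlinarith
      linarith
    have h4 : 4 / ‖z‖ ^ 4 ≤ 4 * (1 + 1 / (4 * ‖v‖ ^ 2)) ^ 2 * ((1 + ‖z‖ ^ 2) ^ 2)⁻¹ := by
      rw [← div_eq_mul_inv, div_le_div_iff₀ (by positivity) (by positivity)]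
      have : (1 + ‖z‖ ^ 2) ^ 2 ≤ ((1 + 1 / (4 * ‖v‖ ^ 2)) * ‖z‖ ^ 2) ^ 2 :=
        pow_le_pow_left₀ (by positivity) h3 2
      nlinarith
    linarith

lemma intq {v : X} (hv : v ≠ 0) : Integrable (fun z : X => q z * q (z - v)) := by
  refine Integrable.mono' ((((integrable_q_ball (2 * ‖v‖)).const_mul (4 / ‖v‖ ^ 2)).add
    (((integrable_q_ball (2 * ‖v‖)).comp_sub_right v).const_mul (4 / ‖v‖ ^ 2))).add
    (integrable_japanese4.const_mul (4 * (1 + 1 / (4 * ‖v‖ ^ 2)) ^ 2))) ?_ ?_
  · exact (measurable_q.mul (measurable_q.comp (measurable_id.sub_const v))).aestronglyMeasurable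
  · refine Eventually.of_forall fun z => ?_
    rw [Real.norm_eq_abs, abs_of_nonneg (mul_nonneg (q_nonneg _) (q_nonneg _))]
    exact intq_bound hv z

/-- Overlap integral. -/
noncomputable def Jr (v : X) : ℝ := ∫ z, q z * q (z - v)

/-- A unit vector. -/
noncomputable def e0 : X := EuclideanSpace.single 0 1

lemma norm_e0 : ‖e0‖ = 1 := by simp [e0]

lemma Jr_isometry (L : X ≃ₗᵢ[ℝ] X) (v : X) : Jr (L v) = Jr v := by
  unfold Jr
  rw [← L.measurePreserving.integral_comp' (f := L.toHomeomorph.toMeasurableEquiv)]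
  congr 1
  ext z
  have h1 : (L.toHomeomorph.toMeasurableEquiv z) = L z := rfl
  rw [h1]
  unfold q
  rw [← map_sub, L.norm_map, L.norm_map]

lemma Jr_smul {t : ℝ} (ht : 0 < t) (v : X) : Jr (t • v) = Jr v / t := by
  have h := Measure.integral_comp_smul (μ := (volume : Measure X))
    (fun z : X => q z * q (z - t • v)) t
  rw [finrank_X] at h
  have h2 : ∀ z : X, q (t • z) * q (t • z - t • v) = (t ^ 4)⁻¹ * (q z * q (z - v)) := by
    intro z
    unfold q
    rw [← smul_sub, norm_smul, norm_smul, Real.norm_eq_abs, abs_of_pos ht]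
    rw [mul_pow, mul_pow, mul_inv, mul_inv]
    rw [show (t ^ 4)⁻¹ = (t ^ 2)⁻¹ * (t ^ 2)⁻¹ by rw [← mul_inv]; ring_nf]
    ring
  simp only [h2] at h
  rw [integral_const_mul] at h
  unfold Jr
  rw [smul_eq_mul, abs_of_pos (by positivity)] at h
  field_simp at h ⊢
  linarith

lemma Jr_eq {v : X} (hv : v ≠ 0) : Jr v = Jr e0 / ‖v‖ := by
  have hr : 0 < ‖v‖ := norm_pos_iff.2 hv
  have h1 : ‖‖v‖ • e0‖ = ‖v‖ := by rw [norm_smul, norm_e0]; simp
  have h2 := Submodule.reflection_sub h1
  rw [← Jr_smul hr, ← Jr_isometry (Submodule.reflection (ℝ ∙ (‖v‖ • e0 - v))ᗮ) (‖v‖ • e0), h2]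

lemma Jr_pos : 0 < Jr e0 := by
  have he : e0 ≠ 0 := by
    rw [← norm_pos_iff, norm_e0]; norm_num
  unfold Jr
  rw [integral_pos_iff_support_of_nonneg
    (fun z => mul_nonneg (q_nonneg _) (q_nonneg _)) (intq he)]
  have hsub : ({0, e0} : Set X)ᶜ ⊆ Function.support (fun z : X => q z * q (z - e0)) := by
    intro z hz
    simp only [mem_compl_iff, mem_insert_iff, mem_singleton_iff, not_or] at hz
    have h1 : 0 < ‖z‖ := norm_pos_iff.2 hz.1
    have h2 : 0 < ‖z - e0‖ := norm_pos_iff.2 (sub_ne_zero.2 hz.2)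
    simp only [Function.mem_support]
    unfold q
    positivity
  have hopen : IsOpen (({0, e0} : Set X)ᶜ) := (Set.toFinite _).isClosed.isOpen_compl
  have hne : (({0, e0} : Set X)ᶜ).Nonempty := by
    refine ⟨(2 : ℝ) • e0, ?_⟩
    simp only [mem_compl_iff, mem_insert_iff, mem_singleton_iff, not_or]
    constructor
    · simpa using he
    · intro h
      have := congrArg norm h
      rw [norm_smul, norm_e0] at this
      norm_num at this
  exact lt_of_lt_of_le (hopen.measure_pos volume hne) (measure_mono hsub)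

lemma integrable_qq {x y : X} (h : x ≠ y) : Integrable (fun z : X => q (x - z) * q (y - z)) := by
  have := (intq (v := x - y) (sub_ne_zero.2 h)).comp_sub_left x
  refine this.congr (Eventually.of_forall fun z => ?_)
  simp only
  congr 2
  abel

lemma integral_qq {x y : X} (h : x ≠ y) :
    ∫ z, q (x - z) * q (y - z) = Jr e0 / ‖x - y‖ := by
  rw [← Jr_eq (sub_ne_zero.2 h)]
  unfold Jr
  rw [← integral_sub_left_eq_self (fun z => q z * q (z - (x - y))) volume x]
  congr 1
  ext z
  congr 2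
  abel

lemma ae_ne_diag : ∀ᵐ p : X × X ∂(volume.prod volume), p.1 ≠ p.2 := by
  have hm : MeasurableSet {p : X × X | p.1 = p.2} :=
    measurableSet_eq_fun measurable_fst measurable_snd
  have : (volume.prod volume : Measure (X × X)) {p : X × X | p.1 = p.2} = 0 := by
    rw [Measure.measure_prod_null hm]
    refine Eventually.of_forall fun x => ?_
    have : Prod.mk x ⁻¹' {p : X × X | p.1 = p.2} = {x} := by
      ext y; simp [eq_comm]
    show volume (Prod.mk x ⁻¹' {p : X × X | p.1 = p.2}) = 0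
    rw [this]
    simp
  rw [ae_iff]
  simpa using this

lemma D_self_nonneg {f : X → ℝ} (hf : BI f) : 0 ≤ D f f := by
  have hc := Jr_pos
  have hfm := hf.cont.measurable
  -- the triple function
  have hm : Measurable (fun r : (X × X) × X =>
      (f r.1.1 * f r.1.2) * (q (r.1.1 - r.2) * q (r.1.2 - r.2))) := by
    have := measurable_q
    fun_prop
  have hint : Integrable (fun r : (X × X) × X =>
      (f r.1.1 * f r.1.2) * (q (r.1.1 - r.2) * q (r.1.2 - r.2)))
      ((volume.prod volume).prod volume) := by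
    rw [integrable_prod_iff hm.aestronglyMeasurable]
    constructor
    · filter_upwards [ae_ne_diag] with p hp
      exact (integrable_qq hp).const_mul _
    · have h0 := (integrable_coul hf hf).norm.const_mul (Jr e0)
      refine h0.congr ?_
      filter_upwards [ae_ne_diag] with p hp
      have : ∀ z, ‖(f p.1 * f p.2) * (q (p.1 - z) * q (p.2 - z))‖
          = |f p.1 * f p.2| * (q (p.1 - z) * q (p.2 - z)) := by
        intro z
        rw [norm_mul, Real.norm_eq_abs, Real.norm_eq_abs,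
          abs_of_nonneg (mul_nonneg (q_nonneg _) (q_nonneg _))]
      simp only [this]
      rw [integral_const_mul, integral_qq hp, Real.norm_eq_abs, abs_div, abs_norm]
      ring
  have h1 : Jr e0 * D f f = ∫ p : X × X, ∫ z,
      (f p.1 * f p.2) * (q (p.1 - z) * q (p.2 - z)) ∂volume ∂(volume.prod volume) := by
    rw [D_eq_prod hf hf, ← integral_const_mul]
    apply integral_congr_ae
    filter_upwards [ae_ne_diag] with p hp
    rw [integral_const_mul, integral_qq hp]
    ring
  have h2 : 0 ≤ Jr e0 * D f f := by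
    rw [h1, integral_integral_swap (f := fun (p : X × X) (z : X) =>
      (f p.1 * f p.2) * (q (p.1 - z) * q (p.2 - z))) hint]
    apply integral_nonneg
    intro z
    simp only [Pi.zero_apply]
    have : (fun p : X × X => (f p.1 * f p.2) * (q (p.1 - z) * q (p.2 - z)))
        = fun p : X × X => (f p.1 * q (p.1 - z)) * (f p.2 * q (p.2 - z)) := by
      ext p; ring
    rw [this]
    rw [integral_prod_mul (fun x => f x * q (x - z)) (fun x => f x * q (x - z))]
    exact mul_self_nonneg _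
  exact nonneg_of_mul_nonneg_right h2 hc

/-- Expansion of the form on differences. -/
lemma D_sub_self {f g : X → ℝ} (hf : BI f) (hg : BI g) :
    D (fun x => f x - g x) (fun x => f x - g x) = D f f - 2 * D f g + D g g := by
  rw [D_sub_left hf hg (hf.sub hg), D_sub_right hf hg hf, D_sub_right hf hg hg, D_symm hg hf]
  ring

lemma D_le_add {f g : X → ℝ} (hf : BI f) (hg : BI g) {t : ℝ} (ht : 0 < t) :
    2 * D f g ≤ t * D f f + t⁻¹ * D g g := by
  have h := D_self_nonneg ((hf.const_mul t).sub hg)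
  rw [D_sub_self (hf.const_mul t) hg, D_const_mul_left, D_const_mul_right hf hf,
    D_const_mul_left] at h
  have h2 : 0 ≤ t⁻¹ * (t * (t * D f f) - 2 * (t * D f g) + D g g) :=
    mul_nonneg (inv_nonneg.2 ht.le) h
  have h3 : t⁻¹ * (t * (t * D f f) - 2 * (t * D f g) + D g g)
      = t * D f f - 2 * D f g + t⁻¹ * D g g := by
    field_simp
  linarith

lemma D_sq_le {f g : X → ℝ} (hf : BI f) (hg : BI g) : D f g ^ 2 ≤ D f f * D g g := by
  have h0 := D_self_nonneg hf
  have h1 := D_self_nonneg hg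
  -- discriminant
  have key : ∀ t : ℝ, 0 ≤ D f f * (t * t) + (-2 * D f g) * t + D g g := by
    intro t
    have h := D_self_nonneg ((hf.const_mul t).sub hg)
    rw [D_sub_self (hf.const_mul t) hg, D_const_mul_left, D_const_mul_right hf hf,
      D_const_mul_left] at h
    linarith
  have := discrim_le_zero key
  unfold discrim at this
  nlinarith

lemma abs_D_le {f g : X → ℝ} (hf : BI f) (hg : BI g) :
    |D f g| ≤ Real.sqrt (D f f) * Real.sqrt (D g g) := by
  rw [← Real.sqrt_mul (D_self_nonneg hf)]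
  exact Real.abs_le_sqrt (D_sq_le hf hg)

end Pool.Agent.Lib.TFW
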