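import Pool.Agent.Lib.MP_1526eb_mp.Energy

set_option autoImplicit false

open MeasureTheory Set Filter Topology

namespace Pool.Agent.Lib.TFW

lemma contDiff_cos_th (L : ℝ) : ContDiff ℝ 1 (fun x : X => Real.cos (th L x)) :=
  Real.contDiff_cos.comp (contDiff_th L)

lemma contDiff_sin_th (L : ℝ) : ContDiff ℝ 1 (fun x : X => Real.sin (th L x)) :=
  Real.contDiff_sin.comp (contDiff_th L)

lemma cos_th_outer {L : ℝ} (hL : 0 < L) {x : X} (hx : 2 * L ≤ ‖x‖) : Real.cos (th L x) = 0 := by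
  rw [th_top hL hx, Real.cos_pi_div_two]

lemma sin_th_inner {L : ℝ} (hL : 0 < L) {x : X} (hx : ‖x‖ ≤ L) : Real.sin (th L x) = 0 := by
  rw [th_zero hL hx, Real.sin_zero]

lemma cos_th_inner {L : ℝ} (hL : 0 < L) {x : X} (hx : ‖x‖ ≤ L) : Real.cos (th L x) = 1 := by
  rw [th_zero hL hx, Real.cos_zero]

lemma sin_th_outer {L : ℝ} (hL : 0 < L) {x : X} (hx : 2 * L ≤ ‖x‖) : Real.sin (th L x) = 1 := by
  rw [th_top hL hx, Real.sin_pi_div_two]

lemma cos_th_nonneg (L : ℝ) (x : X) : 0 ≤ Real.cos (th L x) := by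
  apply Real.cos_nonneg_of_mem_Icc
  constructor
  · have := th_nonneg L x
    have := Real.pi_pos
    linarith
  · exact th_le L x

lemma hcs_cos_th {L : ℝ} (hL : 0 < L) : HasCompactSupport (fun x : X => Real.cos (th L x)) := by
  apply HasCompactSupport.intro (isCompact_closedBall (0:X) (2 * L))
  intro x hx
  rw [mem_closedBall_zero_iff, not_le] at hx
  exact cos_th_outer hL hx.le

lemma norm_fderiv_cos_th (L : ℝ) (x : X) :
    ‖fderiv ℝ (fun x : X => Real.cos (th L x)) x‖ ^ 2 ≤ ‖fderiv ℝ (th L) x‖ ^ 2 := by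
  have h1 := (((contDiff_th L).differentiable (by norm_num) x).hasFDerivAt).cos
  rw [h1.fderiv, norm_smul, mul_pow]
  have h2 : ‖-Real.sin (th L x)‖ ^ 2 ≤ 1 := by
    rw [norm_neg, Real.norm_eq_abs, sq_abs]
    have := Real.sin_sq_add_cos_sq (th L x)
    nlinarith [sq_nonneg (Real.cos (th L x))]
  have := mul_le_mul_of_nonneg_right h2 (sq_nonneg ‖fderiv ℝ (th L) x‖)
  linarith

/-- The truncated trial function. -/
noncomputable def tr (L : ℝ) (x : X) : ℝ := Real.cos (th L x) * psi0 x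

lemma adm_tr {L : ℝ} (hL : 0 < L) : Adm (tr L) :=
  ⟨(contDiff_cos_th L).mul contDiff_psi0, (hcs_cos_th hL).mul_right⟩

lemma D_self_le_of_le {f : X → ℝ} (hf : BI f) (hf0 : ∀ x, 0 ≤ f x) (hle : ∀ x, f x ≤ rho0 x)
    {C : ℝ} (hC : ∀ x, |U rho0 x| ≤ C) : D f f ≤ C * ∫ x, f x := by
  rw [D_eq_U, ← integral_const_mul]
  apply integral_mono (integrable_mul_U hf hf) (hf.int.const_mul C)
  intro x
  simp only
  have h1 : U f x ≤ U rho0 x := U_mono hf BI_rho0 hle x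
  have h2 : U rho0 x ≤ C := (le_abs_self _).trans (hC x)
  have := mul_le_mul_of_nonneg_left (h1.trans h2) (hf0 x)
  linarith

lemma tendsto_tail_rho0 :
    Tendsto (fun n : ℕ => ∫ x, Real.sin (th ((n:ℝ) + 1) x) ^ 2 * rho0 x) atTop (𝓝 0) := by
  have : (0 : ℝ) = ∫ x : X, (0:ℝ) := by simp
  rw [this]
  apply tendsto_integral_of_dominated_convergence rho0
  · intro n
    exact (((contDiff_sin_th _).continuous.pow 2).mul continuous_rho0).aestronglyMeasurable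
  · exact BI_rho0.int
  · intro n
    refine Eventually.of_forall fun x => ?_
    rw [Real.norm_eq_abs, abs_of_nonneg (mul_nonneg (sq_nonneg _) (rho0_pos x).le)]
    have h1 := Real.sin_sq_add_cos_sq (th ((n:ℝ) + 1) x)
    have h2 : Real.sin (th ((n:ℝ) + 1) x) ^ 2 ≤ 1 := by
      nlinarith [sq_nonneg (Real.cos (th ((n:ℝ) + 1) x))]
    have := mul_le_mul_of_nonneg_right h2 (rho0_pos x).le
    linarith
  · refine Eventually.of_forall fun x => ?_
    apply tendsto_const_nhds.congr'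
    filter_upwards [eventually_ge_atTop ⌈‖x‖⌉₊] with n hn
    have h1 : ‖x‖ ≤ (n:ℝ) + 1 := by
      have := (Nat.le_ceil ‖x‖).trans (Nat.cast_le.2 hn)
      linarith
    rw [sin_th_inner (by positivity) h1]
    simp

/-- Existence of a trial function with nearly optimal energy. -/
lemma exists_trial {ε : ℝ} (hε : 0 < ε) : ∃ φ : X → ℝ, Adm φ ∧
    Kin φ - D mu0 (sq φ) + (1/2) * D (sq φ) (sq φ) ≤ -((1/2) * D rho0 rho0) + ε := by
  obtain ⟨Cθ, hCθ0, hCθ⟩ := exists_bound_th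
  obtain ⟨CU, hCU⟩ := U_bound BI_rho0
  have hCU0 : 0 ≤ CU := (abs_nonneg _).trans (hCU 0)
  set N0 := ∫ x, rho0 x with hN0
  have hN0pos : 0 ≤ N0 := integral_nonneg fun x => (rho0_pos x).le
  have l1 : Tendsto (fun n : ℕ => Cθ * N0 * (1 / ((n:ℝ) + 1)) ^ 2
      + (1/2) * (CU * ∫ x, Real.sin (th ((n:ℝ) + 1) x) ^ 2 * rho0 x)) atTop
      (𝓝 (Cθ * N0 * 0 ^ 2 + (1/2) * (CU * 0))) :=
    ((tendsto_one_div_add_atTop_nhds_zero_nat.pow 2).const_mul _).add
      ((tendsto_tail_rho0.const_mul CU).const_mul (1/2))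
  have l2 : Cθ * N0 * 0 ^ 2 + (1/2) * (CU * 0) < ε := by simpa using hε
  obtain ⟨n, hn⟩ := (l1.eventually_lt_const l2).exists
  set L : ℝ := (n:ℝ) + 1 with hLdef
  have hL : 0 < L := by positivity
  refine ⟨tr L, adm_tr hL, ?_⟩
  rw [E0_eq (adm_tr hL)]
  have hk : Kin (tr L) = (∫ x, F0 (‖x‖ ^ 2) * (tr L x) ^ 2)
      + ∫ x, rho0 x * ‖fderiv ℝ (fun x : X => Real.cos (th L x)) x‖ ^ 2 :=
    kin_trial (contDiff_cos_th L) (hcs_cos_th hL)
  have hk2 : ∫ x, rho0 x * ‖fderiv ℝ (fun x : X => Real.cos (th L x)) x‖ ^ 2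
      ≤ Cθ * N0 * (1 / L) ^ 2 := by
    have e1 : Cθ * N0 * (1 / L) ^ 2 = ∫ x, rho0 x * (Cθ / L ^ 2) := by
      rw [integral_mul_const, ← hN0]; field_simp
    rw [e1]
    apply integral_mono_of_nonneg
    · exact Eventually.of_forall fun x => mul_nonneg (rho0_pos x).le (sq_nonneg _)
    · exact BI_rho0.int.mul_const _
    · refine Eventually.of_forall fun x => ?_
      exact mul_le_mul_of_nonneg_left ((norm_fderiv_cos_th L x).trans (hCθ L hL x))
        (rho0_pos x).le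
  -- the density difference
  have hsin : ∀ x, Real.sin (th L x) ^ 2 = 1 - Real.cos (th L x) ^ 2 := fun x => by
    have := Real.sin_sq_add_cos_sq (th L x); linarith
  have hf : BI (fun x => Real.sin (th L x) ^ 2 * rho0 x) := by
    apply BI_rho0.bdd_mul (f := fun x => Real.sin (th L x) ^ 2)
      ((contDiff_sin_th L).continuous.pow 2) (C := 1)
    intro x
    rw [abs_of_nonneg (sq_nonneg _), hsin]
    have := sq_nonneg (Real.cos (th L x))
    linarith
  have e2 : (fun x => sq (tr L) x - rho0 x) = fun x => (-1) * (Real.sin (th L x) ^ 2 * rho0 x) := by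
    ext x
    unfold sq tr
    rw [mul_pow, psi0_sq, hsin]
    ring
  have e3 : D (fun x => sq (tr L) x - rho0 x) (fun x => sq (tr L) x - rho0 x)
      = D (fun x => Real.sin (th L x) ^ 2 * rho0 x) (fun x => Real.sin (th L x) ^ 2 * rho0 x) := by
    rw [e2, D_const_mul_left, D_const_mul_right hf hf]
    ring
  have h4 := D_self_le_of_le hf (fun x => mul_nonneg (sq_nonneg _) (rho0_pos x).le)
    (fun x => by
      have h5 : Real.sin (th L x) ^ 2 ≤ 1 := by
        rw [hsin]; have := sq_nonneg (Real.cos (th L x)); linarith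
      have := mul_le_mul_of_nonneg_right h5 (rho0_pos x).le
      linarith) hCU
  rw [e3, hk]
  linarith

lemma tendsto_setInt {f : X → ℝ} (hf : Integrable f) :
    Tendsto (fun n : ℕ => ∫ y in Metric.closedBall (0:X) n, f y) atTop (𝓝 (∫ y, f y)) := by
  have h := tendsto_setIntegral_of_monotone (μ := (volume : Measure X)) (f := f)
    (s := fun n : ℕ => Metric.closedBall (0:X) n) (fun n => measurableSet_closedBall)
    (fun a b hab => Metric.closedBall_subset_closedBall (Nat.cast_le.2 hab))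
    (by
      have : (⋃ n : ℕ, Metric.closedBall (0:X) n) = univ := Metric.iUnion_closedBall_nat 0
      rw [this]
      exact hf.integrableOn)
  have : (⋃ n : ℕ, Metric.closedBall (0:X) n) = univ := Metric.iUnion_closedBall_nat 0
  rw [this, setIntegral_univ] at h
  exact h

lemma En_zero (cTF : ℝ) {K : ℕ} (R : Fin K → X) (z : Fin K → ℝ) :
    En cTF R z (fun _ => 0) = 0 := by
  unfold En Kin sq U D
  have : ∀ x : X, fderiv ℝ (fun _ : X => (0:ℝ)) x = 0 := fun x => by simp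
  simp [this]

lemma adm_zero : Adm (fun _ : X => (0:ℝ)) :=
  ⟨contDiff_const, HasCompactSupport.zero⟩

/-- Near minimisers have density close to `ρ₀` in Coulomb norm. -/
theorem near_min_close {δ' : ℝ} (hδ : 0 < δ') :
    ∃ m : ℝ, 1 ≤ m ∧ ∃ cTF : ℝ, 0 < cTF ∧ ∃ δ1 : ℝ, 0 < δ1 ∧ ∃ Λ h : ℝ, 0 < h ∧
      4 * h * ((∫ x, mu0 x) + 1/2) ≤ 1/2 ∧
      4/5 ≤ ∫ y in Metric.closedBall (0:X) Λ, gg ((m ^ 2) ^ 2) y ∧
      ∀ (K : ℕ) (R : Fin K → X) (C : Fin K → Set X), Part Λ h K R C →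
      ∀ s : ℝ, 0 ≤ s → s ≤ 1/2 → ∀ ψ : X → ℝ, Adm ψ →
      (∀ φ : X → ℝ, Adm φ → En cTF R (chg C (mus s m)) ψ ≤ En cTF R (chg C (mus s m)) φ + δ1) →
      D (fun x => sq ψ x - rho0 x) (fun x => sq ψ x - rho0 x) ≤ δ' := by
  set ε : ℝ := δ' / 12 with hε
  have hε0 : 0 < ε := by positivity
  obtain ⟨φ, hφ, hφE⟩ := exists_trial hε0
  have hD0 := D_self_nonneg BI_mu0
  set M1 : ℝ := 2 * (1 + (2 * D mu0 mu0 + 1)) with hM1
  set M2 : ℝ := 4 * (1 + (2 * D mu0 mu0 + 1)) with hM2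
  have hM10 : 0 < M1 := by positivity
  have hM20 : 0 < M2 := by positivity
  -- m
  obtain ⟨m, hm1, hm⟩ : ∃ m : ℝ, 1 ≤ m ∧ m⁻¹ * (M2 + 1) ≤ ε := by
    refine ⟨max 1 ((M2 + 1) / ε), le_max_left _ _, ?_⟩
    have h1 : (M2 + 1) / ε ≤ max 1 ((M2 + 1) / ε) := le_max_right _ _
    have h2 : 0 < max 1 ((M2 + 1) / ε) := lt_max_of_lt_left one_pos
    rw [inv_mul_le_iff₀ h2]
    rw [div_le_iff₀ hε0] at h1
    linarith
  have hm0 : 0 < m := by linarith
  have he : 0 < (m ^ 2) ^ 2 := by positivity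
  -- cTF
  set I : ℝ := ∫ x, |φ x| ^ ((10 : ℝ) / 3) with hI
  have hI0 : 0 ≤ I := integral_nonneg fun x => by positivity
  obtain ⟨cTF, hc0, hc⟩ : ∃ c : ℝ, 0 < c ∧ c * I ≤ ε := by
    refine ⟨ε / (I + 1), by positivity, ?_⟩
    rw [div_mul_eq_mul_div, div_le_iff₀ (by positivity)]
    nlinarith
  -- Λ
  have t1 := tendsto_setInt (BI_gg he).int
  rw [integral_gg (by positivity : 0 < m ^ 2)] at t1
  have t2 := tendsto_setInt (integrable_mul_U BI_mu0 hφ.BI)
  have ev1 := t1.eventually_const_le (by norm_num : (4/5 : ℝ) < 1)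
  have ev2 := t2.eventually_const_le (by linarith :
    (∫ y, mu0 y * U (sq φ) y) - ε < ∫ y, mu0 y * U (sq φ) y)
  obtain ⟨n, hn1, hn2⟩ := (ev1.and ev2).exists
  -- h
  have hZ : 0 < (∫ x, mu0 x) + 1/2 := by
    have : 0 ≤ ∫ x, mu0 x := integral_nonneg fun x => (mu0_pos x).le
    linarith
  set Z1 := (∫ x, mu0 x) + 1/2 with hZ1
  have hKφ := Kin_nonneg φ
  obtain ⟨κ, hκ0, hκ1, hκ2⟩ : ∃ κ : ℝ, 0 < κ ∧ κ ≤ 1/2 ∧ κ * (Kin φ + M1) ≤ ε := by
    refine ⟨min (1/2) (ε / (Kin φ + M1)), lt_min (by norm_num) (by positivity),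
      min_le_left _ _, ?_⟩
    have h1 : min (1/2) (ε / (Kin φ + M1)) ≤ ε / (Kin φ + M1) := min_le_right _ _
    have h2 : 0 < Kin φ + M1 := by positivity
    rw [le_div_iff₀ h2] at h1
    exact h1
  set h : ℝ := κ / (4 * Z1) with hh
  have hh0 : 0 < h := by positivity
  have hhκ : 4 * h * Z1 = κ := by rw [hh]; field_simp
  refine ⟨m, hm1, cTF, hc0, min ε 1, lt_min hε0 one_pos, (n:ℝ), h, hh0, by rw [hhκ]; exact hκ1,
    hn1, ?_⟩
  intro K R C P s hs0 hs1 ψ hψ hmin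
  have hB := hψ.BI
  -- energy upper bound at φ
  have f1 := form_lower P hh0 hs0 hs1 hm0 hφ
  rw [← hZ1, hhκ] at f1
  have f2 : En cTF R (chg C (mus s m)) φ ≤ -((1/2) * D rho0 rho0) + ε + ε + ε + κ * Kin φ := by
    have e1 : D mu0 (sq φ) = ∫ y, mu0 y * U (sq φ) y := D_eq_U _ _
    unfold En
    rw [e1] at hφE
    linarith
  have f3 := hmin φ hφ
  have f4 := hmin _ adm_zero
  rw [En_zero] at f4
  have f5 : min ε 1 ≤ ε := min_le_left _ _
  have f6 : min ε 1 ≤ 1 := min_le_right _ _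
  have f7 := apriori P hh0 (by rw [← hZ1, hhκ]; exact hκ1) hs0 hs1 hm1 hc0.le hψ
  have hKψ := Kin_nonneg ψ
  have hDψ := D_self_nonneg hB
  have f8 : Kin ψ ≤ M1 := by rw [hM1]; linarith
  have f9 : D (sq ψ) (sq ψ) ≤ M2 := by rw [hM2]; linarith
  have f10 := closeness P hh0 hs0 hs1 hm1 hc0.le hψ
  rw [← hZ1, hhκ] at f10
  have f11 : κ * Kin ψ ≤ κ * M1 := mul_le_mul_of_nonneg_left f8 hκ0.le
  have f12 : m⁻¹ * (D (sq ψ) (sq ψ) + 1) ≤ m⁻¹ * (M2 + 1) :=
    mul_le_mul_of_nonneg_left (by linarith) (by positivity)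
  have f13 : δ' = 12 * ε := by rw [hε]; ring
  linarith

end Pool.Agent.Lib.TFW
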