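import Pool.Agent.Lib.MP_1526eb_mp.Trial

set_option autoImplicit false

open MeasureTheory Set Filter Topology

namespace Pool.Agent.Lib.TFW

lemma Adm.mul {χ ψ : X → ℝ} (hχ : ContDiff ℝ 1 χ) (hψ : Adm ψ) : Adm (fun x => χ x * ψ x) :=
  ⟨hχ.mul hψ.1, hψ.2.mul_left⟩

lemma integrable_TF {ψ : X → ℝ} (hψ : Adm ψ) : Integrable (fun x => |ψ x| ^ ((10:ℝ)/3)) := by
  have hc : Continuous (fun x => |ψ x| ^ ((10:ℝ)/3)) :=
    hψ.1.continuous.abs.rpow_const (fun x => Or.inr (by norm_num))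
  apply hc.integrable_of_hasCompactSupport
  apply HasCompactSupport.intro hψ.2.isCompact
  intro x hx
  rw [image_eq_zero_of_notMem_tsupport hx]
  simp

section
variable {Λ h : ℝ} {K : ℕ} {R : Fin K → X} {C : Fin K → Set X} {s m : ℝ}

/-- Localisation of the energy. -/
lemma ims_energy (P : Part Λ h K R C) (hh : 0 < h) (hhZ : 4 * h * ((∫ x, mu0 x) + 1/2) ≤ 1/2)
    (hs : 0 ≤ s) (hs1 : s ≤ 1/2) (hm : 0 < m) {cTF : ℝ} (hc : 0 ≤ cTF) {ψ : X → ℝ}
    (hψ : Adm ψ) (L : ℝ) :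
    (∫ x, (Real.sin (th L x) ^ 2 * sq ψ x) * (U (fun y => Real.cos (th L y) ^ 2 * sq ψ y) x
        - U (mus s m) x)) - ∫ x, sq ψ x * ‖fderiv ℝ (th L) x‖ ^ 2
      ≤ En cTF R (chg C (mus s m)) ψ
        - En cTF R (chg C (mus s m)) (fun x => Real.cos (th L x) * ψ x) := by
  set χψ : X → ℝ := fun x => Real.cos (th L x) * ψ x with hχψ
  set bψ : X → ℝ := fun x => Real.sin (th L x) * ψ x with hbψ
  have hA : Adm χψ := Adm.mul (contDiff_cos_th L) hψ
  have hAb : Adm bψ := Adm.mul (contDiff_sin_th L) hψ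
  have hf : sq χψ = fun y => Real.cos (th L y) ^ 2 * sq ψ y := by
    ext x; simp only [sq, hχψ, mul_pow]
  have hg : sq bψ = fun y => Real.sin (th L y) ^ 2 * sq ψ y := by
    ext x; simp only [sq, hbψ, mul_pow]
  have hBf := hA.BI
  have hBg := hAb.BI
  have hB := hψ.BI
  have hBm := BI_mus s hm
  have hsum : sq ψ = fun y => sq χψ y + sq bψ y := by
    ext x
    rw [hf, hg]
    have := Real.sin_sq_add_cos_sq (th L x)
    linear_combination (-(sq ψ x)) * this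
  -- kinetic part
  have hth : Continuous (fun x : X => fderiv ℝ (th L) x) :=
    (contDiff_th L).continuous_fderiv one_ne_zero
  have kin : Kin χψ + Kin bψ = Kin ψ + ∫ x, sq ψ x * ‖fderiv ℝ (th L) x‖ ^ 2 := by
    unfold Kin
    have i1 : ∀ φ : X → ℝ, Adm φ → Integrable (fun x => ‖fderiv ℝ φ x‖ ^ 2) := by
      intro φ hφ
      exact ((hφ.1.continuous_fderiv one_ne_zero).norm.pow 2).integrable_of_hasCompactSupport
        (hcs_sq (hφ.2.fderiv (𝕜 := ℝ)).norm)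
    have i2 : Integrable (fun x => sq ψ x * ‖fderiv ℝ (th L) x‖ ^ 2) :=
      (hB.cont.mul (hth.norm.pow 2)).integrable_of_hasCompactSupport (hcs_sq hψ.2).mul_right
    rw [← integral_add (i1 _ hA) (i1 _ hAb), ← integral_add (i1 _ hψ) i2]
    congr 1
    ext x
    exact ims_pointwise hψ.1 (contDiff_th L) x
  -- TF part
  have tf : (∫ x, |χψ x| ^ ((10:ℝ)/3)) ≤ ∫ x, |ψ x| ^ ((10:ℝ)/3) := by
    apply integral_mono (integrable_TF hA) (integrable_TF hψ)
    intro x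
    apply Real.rpow_le_rpow (abs_nonneg _) _ (by norm_num)
    simp only [hχψ]
    rw [abs_mul]
    have := mul_le_mul_of_nonneg_right (Real.abs_cos_le_one (th L x)) (abs_nonneg (ψ x))
    linarith
  -- nuclear part
  have nuc : ∑ j, chg C (mus s m) j * U (sq ψ) (R j)
      - ∑ j, chg C (mus s m) j * U (sq χψ) (R j) = ∑ j, chg C (mus s m) j * U (sq bψ) (R j) := by
    rw [← Finset.sum_sub_distrib]
    apply Finset.sum_congr rfl
    intro j _
    have : U (sq ψ) (R j) = U (sq χψ) (R j) + U (sq bψ) (R j) := by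
      conv_lhs => rw [hsum]
      exact U_add hBf hBg (R j)
    rw [this]
    ring
  have fb := form_upper P hh hs hs1 hm hAb
  -- Coulomb part
  have coul : D (sq ψ) (sq ψ) = D (sq χψ) (sq χψ) + 2 * D (sq bψ) (sq χψ) + D (sq bψ) (sq bψ) := by
    have e1 : D (sq ψ) (sq ψ) = D (fun y => sq χψ y + sq bψ y) (fun y => sq χψ y + sq bψ y) := by
      rw [← hsum]
    rw [e1, D_add_left hBf hBg (hBf.add hBg), D_add_right hBf hBg hBf, D_add_right hBf hBg hBg,
      D_symm hBf hBg]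
    ring
  have hpos := D_self_nonneg hBg
  have e2 : (∫ x, (Real.sin (th L x) ^ 2 * sq ψ x) * (U (fun y => Real.cos (th L y) ^ 2 * sq ψ y) x
        - U (mus s m) x)) = D (sq bψ) (sq χψ) - D (mus s m) (sq bψ) := by
    rw [D_symm hBm hBg, D_eq_U, D_eq_U, ← integral_sub (integrable_mul_U hBg hBf)
      (integrable_mul_U hBg hBm), hf, hg]
    congr 1
    ext x
    ring
  have h8 := mul_le_mul_of_nonneg_right hhZ (Kin_nonneg bψ)
  have h9 := Kin_nonneg bψ
  have h10 := mul_le_mul_of_nonneg_left tf hc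
  rw [e2]
  unfold En
  linarith

end

/-- First-moment bound for potentials. -/
lemma norm_mul_U_le {f : X → ℝ} (hf : BI f) (hf0 : ∀ x, 0 ≤ f x)
    (hf1 : BI (fun x => ‖x‖ * f x)) (y : X) :
    ‖y‖ * U f y ≤ (∫ x, f x) + U (fun x => ‖x‖ * f x) y := by
  unfold U
  rw [← integral_const_mul, ← integral_add hf.int (integrable_div_norm hf1 y)]
  apply integral_mono ((integrable_div_norm hf y).const_mul _)
    (hf.int.add (integrable_div_norm hf1 y))
  intro x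
  simp only [Pi.add_apply]
  by_cases hxy : y = x
  · subst hxy
    simp [hf0]
  · have hp : 0 < ‖y - x‖ := norm_pos_iff.2 (sub_ne_zero.2 hxy)
    rw [← mul_div_assoc, div_le_iff₀ hp, add_mul, div_mul_cancel₀ _ hp.ne']
    have h1 : ‖y‖ ≤ ‖y - x‖ + ‖x‖ := by
      have := norm_add_le (y - x) x
      simpa using this
    have := mul_le_mul_of_nonneg_right h1 (hf0 x)
    linarith

lemma U_rho0_far : ∃ C1 : ℝ, 0 ≤ C1 ∧ ∀ y : X, y ≠ 0 →
    U rho0 y ≤ (∫ x, rho0 x) / ‖y‖ + C1 / ‖y‖ ^ 2 := by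
  obtain ⟨C, hC⟩ := U_bound BI_normsq_rho0
  have hC0 : 0 ≤ C := (abs_nonneg _).trans (hC 0)
  have hI : 0 ≤ ∫ x : X, ‖x‖ * rho0 x :=
    integral_nonneg fun x => mul_nonneg (norm_nonneg _) (rho0_pos x).le
  refine ⟨(∫ x : X, ‖x‖ * rho0 x) + C, by positivity, fun y hy => ?_⟩
  have hp : 0 < ‖y‖ := norm_pos_iff.2 hy
  have h1 := norm_mul_U_le BI_rho0 (fun x => (rho0_pos x).le) BI_norm_rho0 y
  have h2 := norm_mul_U_le BI_norm_rho0 (fun x => mul_nonneg (norm_nonneg _) (rho0_pos x).le)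
    BI_normsq_rho0 y
  have h3 := (le_abs_self _).trans (hC y)
  rw [div_add_div _ _ hp.ne' (by positivity), le_div_iff₀ (by positivity)]
  have h4 : U (fun x => ‖x‖ * rho0 x) y * ‖y‖ ≤ (∫ x : X, ‖x‖ * rho0 x) + C := by linarith
  have h5 := mul_le_mul_of_nonneg_left h1 (by positivity : 0 ≤ ‖y‖ ^ 2)
  nlinarith

lemma F0_far {y : X} (hy : 1 ≤ ‖y‖) : F0 (‖y‖ ^ 2) ≤ -(1 / ‖y‖) + (17/2) / ‖y‖ ^ 2 := by
  set r := ‖y‖ with hr
  have hr0 : 0 < r := by linarith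
  set u := uu (r ^ 2) with hu
  have p : 0 < u := uu_pos (sq_nonneg r)
  have l : u ≤ 1 := uu_le_one (sq_nonneg r)
  have h2 : u ^ 2 = kk 1 (r ^ 2) := uu_sq (sq_nonneg r)
  have h3 : kk 1 (r ^ 2) ≤ 1 / r := by
    unfold kk
    rw [one_div]
    apply inv_anti₀ hr0
    apply Real.le_sqrt_of_sq_le
    linarith
  have h4 : 1 / r - 1 / r ^ 2 ≤ kk 1 (r ^ 2) := by
    have e1 : 1 / r - 1 / r ^ 2 ≤ 1 / (1 + r) := by
      rw [div_sub_div _ _ hr0.ne' (by positivity), div_le_div_iff₀ (by positivity) (by positivity)]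
      nlinarith
    have e2 : 1 / (1 + r) ≤ kk 1 (r ^ 2) := by
      unfold kk
      rw [one_div]
      apply inv_anti₀ (by positivity)
      rw [Real.sqrt_le_left (by positivity)]
      nlinarith
    linarith
  have h5 : u ^ 6 ≤ 1 / r ^ 2 := by
    have e1 : u ^ 6 ≤ u ^ 4 := pow_le_pow_of_le_one p.le l (by norm_num)
    have e2 : u ^ 4 = kk 1 (r ^ 2) ^ 2 := by rw [← h2]; ring
    have e3 : kk 1 (r ^ 2) ^ 2 ≤ (1 / r) ^ 2 :=
      pow_le_pow_left₀ (kk_pos one_pos (sq_nonneg r)).le h3 2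
    rw [div_pow, one_pow] at e3
    linarith
  have h7 : u ^ 7 ≤ u ^ 6 := pow_le_pow_of_le_one p.le l (by norm_num)
  have h8 : u ^ 8 ≤ u ^ 6 := pow_le_pow_of_le_one p.le l (by norm_num)
  have h9 : 0 < u ^ 3 := by positivity
  unfold F0
  rw [← hu]
  have h10 : (17/2) / r ^ 2 = (17/2) * (1 / r ^ 2) := by ring
  rw [h10]
  linarith

/-- Upper bound for the nuclear potential far out. -/
lemma U_mus_far : ∃ C : ℝ, 0 ≤ C ∧ ∀ s m : ℝ, 0 ≤ s → s ≤ 1/2 → 0 < m → ∀ y : X, 1 ≤ ‖y‖ →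
    U (mus s m) y ≤ ((∫ x, rho0 x) - 1/2) / ‖y‖ + C / ‖y‖ ^ 2 := by
  obtain ⟨C1, hC10, hC1⟩ := U_rho0_far
  refine ⟨C1 + 17/2, by positivity, fun s m hs hs1 hm y hy => ?_⟩
  have hy0 : y ≠ 0 := by
    intro h; rw [h, norm_zero] at hy; linarith
  have hp : 0 < ‖y‖ := by linarith
  rw [U_mus s hm]
  have h1 := hC1 y hy0
  have h2 := F0_far hy
  have h3 := kk_le_inv_norm (by positivity : 0 < (m ^ 2) ^ 2) hy0
  have h4 : s * kk ((m ^ 2) ^ 2) (‖y‖ ^ 2) ≤ 1/2 * ‖y‖⁻¹ :=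
    mul_le_mul hs1 h3 (kk_pos (by positivity) (sq_nonneg _)).le (by norm_num)
  have e1 : ((∫ x, rho0 x) - 1/2) / ‖y‖ + (C1 + 17/2) / ‖y‖ ^ 2
      = (∫ x, rho0 x) / ‖y‖ + C1 / ‖y‖ ^ 2 + (-(1 / ‖y‖) + (17/2) / ‖y‖ ^ 2) + 1/2 * ‖y‖⁻¹ := by
    rw [← one_div]
    ring
  rw [e1]
  linarith

/-- Mass in a ball. -/
noncomputable def mass (ψ : X → ℝ) (r : ℝ) : ℝ := ∫ x in Metric.ball (0:X) r, sq ψ x

/-- Lower bound for the potential of the inner part. -/
lemma U_inner_ge {ψ : X → ℝ} (hψ : Adm ψ) {r0 L : ℝ} (hr0 : 0 < r0) (hL : r0 ≤ L) {y : X}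
    (_hy : y ≠ 0) :
    mass ψ r0 / (‖y‖ + r0) ≤ U (fun y => Real.cos (th L y) ^ 2 * sq ψ y) y := by
  have hL0 : 0 < L := by linarith
  have hB := hψ.BI
  have hf : BI (fun y => Real.cos (th L y) ^ 2 * sq ψ y) := by
    apply hB.bdd_mul (f := fun x => Real.cos (th L x) ^ 2)
      ((contDiff_cos_th L).continuous.pow 2) (C := 1)
    intro x
    have h1 := Real.sin_sq_add_cos_sq (th L x)
    rw [abs_of_nonneg (sq_nonneg _)]
    nlinarith [sq_nonneg (Real.sin (th L x))]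
  have hp : 0 < ‖y‖ + r0 := by positivity
  unfold mass U
  rw [div_eq_mul_inv, ← integral_mul_const, ← integral_indicator Metric.isOpen_ball.measurableSet]
  apply integral_mono_ae
  · exact (hB.int.mul_const _).indicator measurableSet_ball
  · exact integrable_div_norm hf y
  · have hne : ∀ᵐ x : X, x ≠ y := by simp [ae_iff]
    filter_upwards [hne] with x hx
    have hxy : 0 < ‖y - x‖ := norm_pos_iff.2 (sub_ne_zero.2 hx.symm)
    by_cases hb : x ∈ Metric.ball (0:X) r0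
    · rw [indicator_of_mem hb]
      rw [mem_ball_zero_iff] at hb
      rw [cos_th_inner hL0 (by linarith), one_pow, one_mul, div_eq_mul_inv]
      apply mul_le_mul_of_nonneg_left _ (sq_nonneg' ψ x)
      apply inv_anti₀ hxy
      have := norm_sub_le y x
      linarith
    · rw [indicator_of_notMem hb]
      exact div_nonneg (mul_nonneg (sq_nonneg _) (sq_nonneg' ψ x)) hxy.le

end Pool.Agent.Lib.TFW
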