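import Pool.Agent.Lib.MP_1526eb_mp.Mass

set_option autoImplicit false

open MeasureTheory Set Filter Topology

namespace Pool.Agent.Lib.TFW

lemma mass_eventually {ψ : X → ℝ} (hψ : Adm ψ) {L0 : ℝ} (hL0 : 0 < L0) :
    ∃ n : ℕ, ∀ k : ℕ, n ≤ k → mass ψ (2 ^ k * L0) = mass ψ (2 ^ n * L0) := by
  obtain ⟨B, hB⟩ := hψ.2.isCompact.isBounded.subset_ball (0:X)
  obtain ⟨n, hn⟩ := pow_unbounded_of_one_lt (B / L0) (one_lt_two (α := ℝ))
  have hn' : B ≤ 2 ^ n * L0 := by
    rw [div_lt_iff₀ hL0] at hn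
    exact hn.le
  have key : ∀ r : ℝ, B ≤ r → mass ψ r = ∫ x, sq ψ x := by
    intro r hr
    unfold mass
    apply setIntegral_eq_integral_of_forall_compl_eq_zero
    intro x hx
    have hx' : x ∉ tsupport ψ := fun h => hx (Metric.ball_subset_ball hr (hB h))
    unfold sq
    rw [image_eq_zero_of_notMem_tsupport hx']
    simp
  refine ⟨n, fun k hk => ?_⟩
  rw [key _ hn', key _ (hn'.trans _)]
  apply mul_le_mul_of_nonneg_right _ hL0.le
  exact pow_le_pow_right₀ (by norm_num) hk

/-- Gradient term bound. -/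
lemma grad_term {Cθ : ℝ} (hCθ : ∀ L : ℝ, 0 < L → ∀ x : X, ‖fderiv ℝ (th L) x‖ ^ 2 ≤ Cθ / L ^ 2)
    {ψ : X → ℝ} (hψ : Adm ψ) {L : ℝ} (hL : 0 < L) :
    ∫ x, sq ψ x * ‖fderiv ℝ (th L) x‖ ^ 2 ≤ (Cθ / L ^ 2) * (mass ψ (2 * L) - mass ψ L) := by
  have hB := hψ.BI
  rw [← mass_shell hψ (by linarith : L ≤ 2 * L), ← integral_const_mul]
  have hms : MeasurableSet (Metric.ball (0:X) (2 * L) \ Metric.ball 0 L) :=
    measurableSet_ball.diff measurableSet_ball
  have hth : Continuous (fun x : X => fderiv ℝ (th L) x) :=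
    (contDiff_th L).continuous_fderiv one_ne_zero
  have i2 : Integrable (fun x => sq ψ x * ‖fderiv ℝ (th L) x‖ ^ 2) :=
    (hB.cont.mul (hth.norm.pow 2)).integrable_of_hasCompactSupport (hcs_sq hψ.2).mul_right
  have e1 : ∫ x, sq ψ x * ‖fderiv ℝ (th L) x‖ ^ 2
      = ∫ x in Metric.ball (0:X) (2 * L) \ Metric.ball 0 L, sq ψ x * ‖fderiv ℝ (th L) x‖ ^ 2 := by
    symm
    apply setIntegral_eq_integral_of_forall_compl_eq_zero
    intro x hx
    have hx' : ‖x‖ ≤ L ∨ 2 * L ≤ ‖x‖ := by
      by_contra hcon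
      push Not at hcon
      apply hx
      refine ⟨?_, ?_⟩
      · rw [mem_ball_zero_iff]; exact hcon.2
      · rw [mem_ball_zero_iff, not_lt]; exact hcon.1.le
    rcases hx' with h | h
    · rw [fderiv_th_inner hL h]; simp
    · rw [fderiv_th_outer hL h]; simp
  rw [e1]
  apply setIntegral_mono_on i2.integrableOn (hB.int.const_mul _).integrableOn hms
  intro x _
  have := mul_le_mul_of_nonneg_left (hCθ L hL x) (sq_nonneg' ψ x)
  linarith

/-- Truncation of near minimisers. -/
theorem truncation : ∃ δ' : ℝ, 0 < δ' ∧ ∀ (Λ h : ℝ) (K : ℕ) (R : Fin K → X) (C : Fin K → Set X),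
    Part Λ h K R C → 0 < h → 4 * h * ((∫ x, mu0 x) + 1/2) ≤ 1/2 →
    ∀ s m : ℝ, 0 ≤ s → s ≤ 1/2 → 0 < m → ∀ cTF : ℝ, 0 ≤ cTF → ∀ ψ : X → ℝ, Adm ψ →
    D (fun x => sq ψ x - rho0 x) (fun x => sq ψ x - rho0 x) ≤ δ' →
    (∫ x, rho0 x) - 1/10 ≤ ∫ x, sq ψ x ∧
    ∃ φ : X → ℝ, Adm φ ∧ (∫ x, sq φ x) ≤ (∫ x, rho0 x) + 1/10 ∧
      En cTF R (chg C (mus s m)) φ ≤ En cTF R (chg C (mus s m)) ψ := by
  obtain ⟨r0, hr0, hmc⟩ := mass_control (η := 1/200) (by norm_num)
  obtain ⟨C0, hC0, hfar⟩ := U_mus_far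
  obtain ⟨Cθ, hCθ0, hCθ⟩ := exists_bound_th
  set N0 := ∫ x, rho0 x with hN0
  have hN0pos : 0 ≤ N0 := integral_nonneg fun x => (rho0_pos x).le
  set C' := C0 + (N0 + 1) * r0 with hC'
  have hC'0 : 0 ≤ C' := by positivity
  set L0 := r0 + 1 + 32 * Cθ + 5 * C' with hL0def
  have hL0r : r0 ≤ L0 := by
    have : 0 ≤ 1 + 32 * Cθ + 5 * C' := by positivity
    linarith
  have hL01 : 1 ≤ L0 := by
    have : 0 ≤ r0 + 32 * Cθ + 5 * C' := by positivity
    linarith
  have hL0θ : 32 * Cθ ≤ L0 := by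
    have : 0 ≤ r0 + 1 + 5 * C' := by positivity
    linarith
  have hL0C : 5 * C' ≤ L0 := by
    have : 0 ≤ r0 + 1 + 32 * Cθ := by positivity
    linarith
  clear_value L0
  obtain ⟨δ', hδ', hctl⟩ := hmc L0 hL0r
  refine ⟨δ', hδ', ?_⟩
  intro Λ h K R C P hh hhZ s m hs hs1 hm cTF hc ψ hψ hD
  obtain ⟨hlow, hup⟩ := hctl ψ hψ hD
  refine ⟨?_, ?_⟩
  · have := mass_le hψ r0
    linarith
  -- dyadic selection
  have hL0p : 0 < L0 := by linarith
  set S : ℕ → ℝ := fun i => mass ψ (2 ^ i * L0) with hS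
  have hSmono : Monotone S := by
    intro a b hab
    apply mass_mono hψ
    apply mul_le_mul_of_nonneg_right _ hL0p.le
    exact pow_le_pow_right₀ (by norm_num) hab
  obtain ⟨i, hi1, hi2⟩ := dyadic hSmono (mass_eventually hψ hL0p)
  set L := 2 ^ i * L0 with hLdef
  have h2i : (1:ℝ) ≤ 2 ^ i := one_le_pow₀ (by norm_num)
  have hLL0 : L0 ≤ L := by
    have := mul_le_mul_of_nonneg_right h2i hL0p.le
    linarith
  have hLp : 0 < L := by linarith
  have eS0 : S i = mass ψ L := rfl
  have eS1 : S (i + 1) = mass ψ (2 * L) := by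
    simp only [hS, hLdef]
    congr 1
    ring
  have eS2 : S (i + 2) = mass ψ (4 * L) := by
    simp only [hS, hLdef]
    congr 1
    ring
  have eSz : S 0 = mass ψ L0 := by
    simp only [hS, pow_zero, one_mul]
  have eSo : S 1 = mass ψ (2 * L0) := by
    simp only [hS, pow_one]
  rw [eS0, eS1, eS2] at hi1
  rw [eS1, eSz, eSo] at hi2
  have hA : Adm (fun x => Real.cos (th L x) * ψ x) := Adm.mul (contDiff_cos_th L) hψ
  refine ⟨fun x => Real.cos (th L x) * ψ x, hA, ?_, ?_⟩
  · -- mass of the truncated function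
    have h1 : ∫ x, sq (fun x => Real.cos (th L x) * ψ x) x ≤ mass ψ (2 * L) := by
      have e1 : ∫ x, sq (fun x => Real.cos (th L x) * ψ x) x
          = ∫ x in Metric.ball (0:X) (2 * L), sq (fun x => Real.cos (th L x) * ψ x) x := by
        symm
        apply setIntegral_eq_integral_of_forall_compl_eq_zero
        intro x hx
        rw [mem_ball_zero_iff, not_lt] at hx
        unfold sq
        simp only [cos_th_outer hLp hx]
        simp
      rw [e1]
      unfold mass
      apply setIntegral_mono_on hA.BI.int.integrableOn hψ.BI.int.integrableOn measurableSet_ball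
      intro x _
      unfold sq
      rw [mul_pow]
      have h2 := Real.sin_sq_add_cos_sq (th L x)
      have h3 : Real.cos (th L x) ^ 2 ≤ 1 := by nlinarith [sq_nonneg (Real.sin (th L x))]
      have := mul_le_mul_of_nonneg_right h3 (sq_nonneg (ψ x))
      linarith
    have h2 := mass_mono hψ hL0r
    linarith
  · -- energy
    have hims := ims_energy P hh hhZ hs hs1 hm hc hψ L
    have hgrad := grad_term hCθ hψ hLp
    have hB := hψ.BI
    have hBm := BI_mus s hm
    have hcosB : BI (fun y => Real.cos (th L y) ^ 2 * sq ψ y) := by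
      have := hA.BI
      have e : sq (fun x => Real.cos (th L x) * ψ x)
          = fun y => Real.cos (th L y) ^ 2 * sq ψ y := by
        ext x; simp only [sq, mul_pow]
      rwa [e] at this
    have hsinB : BI (fun y => Real.sin (th L y) ^ 2 * sq ψ y) := by
      have := (Adm.mul (contDiff_sin_th L) hψ).BI
      have e : sq (fun x => Real.sin (th L x) * ψ x)
          = fun y => Real.sin (th L y) ^ 2 * sq ψ y := by
        ext x; simp only [sq, mul_pow]
      rwa [e] at this
    have pointwise : ∀ y : X, L ≤ ‖y‖ → 1 / (4 * ‖y‖) ≤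
        U (fun y => Real.cos (th L y) ^ 2 * sq ψ y) y - U (mus s m) y := by
      intro y hy
      have hyp : 0 < ‖y‖ := by linarith
      have hy0 : y ≠ 0 := norm_pos_iff.1 hyp
      have h1 := U_inner_ge hψ hr0 (hL0r.trans hLL0) hy0
      have h2 := hfar s m hs hs1 hm y (by linarith)
      set A := mass ψ r0 with hAdef
      have hA0 : 0 ≤ A := mass_nonneg ψ r0
      have hA1 : A ≤ N0 + 1 := by
        have := mass_mono hψ (by linarith : r0 ≤ 2 * L0)
        linarith
      have h3 : A / ‖y‖ - (N0 + 1) * r0 / ‖y‖ ^ 2 ≤ A / (‖y‖ + r0) := by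
        have e1 : A / ‖y‖ - A * r0 / ‖y‖ ^ 2 ≤ A / (‖y‖ + r0) := by
          rw [div_sub_div _ _ hyp.ne' (by positivity), div_le_div_iff₀ (by positivity)
            (by positivity)]
          have : 0 ≤ A * r0 ^ 2 * ‖y‖ := by positivity
          nlinarith
        have e2 : A * r0 / ‖y‖ ^ 2 ≤ (N0 + 1) * r0 / ‖y‖ ^ 2 := by
          apply div_le_div_of_nonneg_right _ (by positivity)
          exact mul_le_mul_of_nonneg_right hA1 hr0.le
        linarith
      have h4 : (N0 - 8 * (1/200)) / ‖y‖ ≤ A / ‖y‖ :=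
        div_le_div_of_nonneg_right hlow hyp.le
      have h5 : 1 / (4 * ‖y‖) ≤ (N0 - 8 * (1/200)) / ‖y‖ - (N0 + 1) * r0 / ‖y‖ ^ 2
          - ((N0 - 1/2) / ‖y‖ + C0 / ‖y‖ ^ 2) := by
        have e3 : (N0 - 8 * (1/200)) / ‖y‖ - (N0 + 1) * r0 / ‖y‖ ^ 2
          - ((N0 - 1/2) / ‖y‖ + C0 / ‖y‖ ^ 2) = (23/50) / ‖y‖ - C' / ‖y‖ ^ 2 := by
          rw [hC']
          ring
        have e4 : C' / ‖y‖ ^ 2 ≤ (1/5) / ‖y‖ := by
          rw [div_le_div_iff₀ (by positivity) hyp]
          have : 5 * C' ≤ ‖y‖ := by linarith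
          nlinarith
        have e5 : 1 / (4 * ‖y‖) = (1/4) / ‖y‖ := by
          field_simp
        rw [e3, e5]
        have e6 : (23/50 : ℝ) / ‖y‖ = (1/4) / ‖y‖ + (1/5) / ‖y‖ + (1/100) / ‖y‖ := by ring
        have e7 : 0 ≤ (1/100 : ℝ) / ‖y‖ := by positivity
        linarith
      linarith
    have hI : Integrable (fun x => (Real.sin (th L x) ^ 2 * sq ψ x)
        * (U (fun y => Real.cos (th L y) ^ 2 * sq ψ y) x - U (mus s m) x)) := by
      have := (integrable_mul_U hsinB hcosB).sub (integrable_mul_U hsinB hBm)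
      refine this.congr (Eventually.of_forall fun y => ?_)
      simp only [Pi.sub_apply]
      ring
    have hlower : (1 / (16 * L)) * (mass ψ (4 * L) - mass ψ (2 * L)) ≤
        ∫ x, (Real.sin (th L x) ^ 2 * sq ψ x)
          * (U (fun y => Real.cos (th L y) ^ 2 * sq ψ y) x - U (mus s m) x) := by
      rw [← mass_shell hψ (by linarith : 2 * L ≤ 4 * L), ← integral_const_mul]
      have hms : MeasurableSet (Metric.ball (0:X) (4 * L) \ Metric.ball 0 (2 * L)) :=
        measurableSet_ball.diff measurableSet_ball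
      refine le_trans (b := ∫ x in Metric.ball (0:X) (4 * L) \ Metric.ball 0 (2 * L),
        (Real.sin (th L x) ^ 2 * sq ψ x)
          * (U (fun y => Real.cos (th L y) ^ 2 * sq ψ y) x - U (mus s m) x)) ?_ ?_
      · apply setIntegral_mono_on (hB.int.const_mul _).integrableOn hI.integrableOn hms
        intro x hx
        have hx1 : ‖x‖ < 4 * L := mem_ball_zero_iff.1 hx.1
        have hx2 : 2 * L ≤ ‖x‖ := by
          have := hx.2
          rw [mem_ball_zero_iff, not_lt] at this
          exact this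
        have hxp : 0 < ‖x‖ := by linarith
        rw [sin_th_outer hLp hx2, one_pow, one_mul, mul_comm]
        apply mul_le_mul_of_nonneg_left _ (sq_nonneg' ψ x)
        refine le_trans ?_ (pointwise x (by linarith))
        apply div_le_div_of_nonneg_left (by norm_num) (by positivity)
        linarith
      · apply setIntegral_le_integral hI
        refine Eventually.of_forall fun x => ?_
        simp only [Pi.zero_apply]
        by_cases hx : ‖x‖ ≤ L
        · rw [sin_th_inner hLp hx]; simp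
        · push Not at hx
          have h1 := pointwise x hx.le
          have hxp : 0 < ‖x‖ := by linarith
          have h2 : 0 ≤ 1 / (4 * ‖x‖) := by positivity
          exact mul_nonneg (mul_nonneg (sq_nonneg _) (sq_nonneg' ψ x)) (by linarith)
    -- compare
    have hm21 : 0 ≤ mass ψ (2 * L) - mass ψ L := by
      have := mass_mono hψ (by linarith : L ≤ 2 * L)
      linarith
    have h6 : Cθ / L ^ 2 ≤ 1 / (32 * L) := by
      rw [div_le_div_iff₀ (by positivity) (by positivity)]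
      have : 32 * Cθ ≤ L := by linarith
      nlinarith
    have h7 : (Cθ / L ^ 2) * (mass ψ (2 * L) - mass ψ L)
        ≤ (1 / (32 * L)) * (mass ψ (2 * L) - mass ψ L) := mul_le_mul_of_nonneg_right h6 hm21
    have h8 : (1 / (16 * L)) * (1 / 2 * (mass ψ (2 * L) - mass ψ L))
        ≤ (1 / (16 * L)) * (mass ψ (4 * L) - mass ψ (2 * L)) :=
      mul_le_mul_of_nonneg_left hi1 (by positivity)
    have h9 : (1 / (16 * L)) * (1 / 2 * (mass ψ (2 * L) - mass ψ L))
        = (1 / (32 * L)) * (mass ψ (2 * L) - mass ψ L) := by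
      field_simp
      ring
    linarith

end Pool.Agent.Lib.TFW
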